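import Pool.Agent.H98.Gap.Stmt

/-! S1: energy of the large spectrum. -/

set_option autoImplicit false

namespace Pool.Agent.H98.Gap

open Finset
open scoped Pointwise ComplexConjugate

namespace P1L

variable {D n : ℕ} [NeZero n]

theorem ch_comm (Y u : Fin D → ZMod n) : ch Y u = ch u Y := by
  unfold ch
  rw [sum_congr rfl fun i _ => mul_comm (Y i) (u i)]

theorem ch_add (Y u v : Fin D → ZMod n) : ch Y (u + v) = ch Y u * ch Y v := by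
  unfold ch
  rw [← AddChar.map_add_eq_mul, ← sum_add_distrib]
  rw [sum_congr rfl fun i _ => (show Y i * (u + v) i = Y i * u i + Y i * v i by
    rw [Pi.add_apply, mul_add])]

theorem ch_add' (Y Z u : Fin D → ZMod n) : ch (Y + Z) u = ch Y u * ch Z u := by
  rw [ch_comm, ch_add, ch_comm u Y, ch_comm u Z]

theorem ch_zero (Y : Fin D → ZMod n) : ch Y 0 = 1 := by simp [ch]

theorem ch_norm (Y u : Fin D → ZMod n) : ‖ch Y u‖ = 1 := by
  unfold ch; rw [ZMod.stdAddChar_apply]; exact Circle.norm_coe _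

theorem norm_sq_eq (z : ℂ) : ((‖z‖ ^ 2 : ℝ) : ℂ) = z * conj z := by
  rw [Complex.mul_conj, Complex.normSq_eq_norm_sq]

theorem ch_conj (Y u : Fin D → ZMod n) : conj (ch Y u) = ch Y (-u) := by
  have h1 : ch Y u * ch Y (-u) = 1 := by rw [← ch_add, add_neg_cancel, ch_zero]
  have h2 : ch Y u * conj (ch Y u) = 1 := by
    rw [← norm_sq_eq, ch_norm]; simp
  exact mul_left_cancel₀ (left_ne_zero_of_mul_eq_one h1) (h2.trans h1.symm)

theorem orth (t : Fin D → ZMod n) :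
    ∑ Y : Fin D → ZMod n, ch Y t = if t = 0 then ((n : ℂ) ^ D) else 0 := by
  by_cases ht : t = 0
  · rw [if_pos ht, ht]
    simp only [ch_zero, sum_const, card_univ, Fintype.card_pi, ZMod.card, prod_const,
      Fintype.card_fin, nsmul_eq_mul, mul_one, Nat.cast_pow]
  · rw [if_neg ht]
    obtain ⟨i, hi⟩ : ∃ i, t i ≠ 0 := by
      by_contra h; push Not at h; exact ht (funext h)
    have h1 : ∑ Y, ch Y t = ch (Pi.single i 1) t * ∑ Y, ch Y t := by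
      rw [mul_sum]
      rw [← Equiv.sum_comp (Equiv.addLeft (Pi.single i (1 : ZMod n) : Fin D → ZMod n))]
      exact sum_congr rfl fun Y _ => ch_add' _ _ _
    have h2 : ch (Pi.single i 1) t ≠ 1 := by
      unfold ch
      have h5 : ∑ j, (Pi.single i 1 : Fin D → ZMod n) j * t j = t i := by
        rw [sum_eq_single i]
        · simp
        · intro j _ hj; simp [hj]
        · intro h; exact absurd (mem_univ i) h
      rw [h5]
      intro h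
      exact hi (ZMod.injective_stdAddChar (h.trans (AddChar.map_zero_eq_one _).symm))
    have h3 : (1 - ch (Pi.single i 1) t) * ∑ Y, ch Y t = 0 := by
      rw [sub_mul, one_mul, ← h1, sub_self]
    rcases mul_eq_zero.1 h3 with h4 | h4
    · exact absurd (sub_eq_zero.1 h4).symm h2
    · exact h4

theorem parseval (f : (Fin D → ZMod n) → ℂ) :
    ∑ Y : Fin D → ZMod n, ‖∑ t, f t * ch Y t‖ ^ 2 = (n : ℝ) ^ D * ∑ t, ‖f t‖ ^ 2 := by
  have h : ((∑ Y : Fin D → ZMod n, ‖∑ t, f t * ch Y t‖ ^ 2 : ℝ) : ℂ) =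
      (((n : ℝ) ^ D * ∑ t, ‖f t‖ ^ 2 : ℝ) : ℂ) := by
    have e1 : ∀ Y : Fin D → ZMod n, ((‖∑ t, f t * ch Y t‖ ^ 2 : ℝ) : ℂ) =
        ∑ t, ∑ t', f t * conj (f t') * ch Y (t - t') := by
      intro Y
      rw [norm_sq_eq, map_sum, sum_mul_sum]
      refine sum_congr rfl fun t _ => sum_congr rfl fun t' _ => ?_
      rw [map_mul, ch_conj, sub_eq_add_neg, ch_add]
      ring
    rw [Complex.ofReal_sum, sum_congr rfl fun Y _ => e1 Y, sum_comm]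
    rw [Complex.ofReal_mul, Complex.ofReal_sum, mul_sum]
    refine sum_congr rfl fun t _ => ?_
    rw [sum_comm]
    have e2 : ∀ t' : Fin D → ZMod n, ∑ Y : Fin D → ZMod n, f t * conj (f t') * ch Y (t - t') =
        if t = t' then f t * conj (f t') * (n : ℂ) ^ D else 0 := by
      intro t'
      rw [← mul_sum, orth]
      by_cases h : t = t'
      · rw [if_pos h, if_pos (sub_eq_zero.2 h)]
      · rw [if_neg h, if_neg (fun h' => h (sub_eq_zero.1 h')), mul_zero]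
    rw [sum_congr rfl fun t' _ => e2 t', sum_ite_eq, if_pos (mem_univ t), norm_sq_eq]
    push_cast
    ring
  exact_mod_cast h

/-- number of representations as a difference -/
def R (S : Finset (Fin D → ZMod n)) (t : Fin D → ZMod n) : ℕ :=
  #{p ∈ S ×ˢ S | p.1 - p.2 = t}

theorem ft_sq (S : Finset (Fin D → ZMod n)) (Y : Fin D → ZMod n) :
    ((‖ft S Y‖ ^ 2 : ℝ) : ℂ) = ∑ t, (R S t : ℂ) * ch Y t := by
  rw [norm_sq_eq]
  unfold ft
  rw [map_sum, sum_mul_sum, ← sum_product']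
  rw [← sum_fiberwise (S ×ˢ S) (fun p => p.1 - p.2)]
  refine sum_congr rfl fun t _ => ?_
  rw [R, ← nsmul_eq_mul, ← sum_const]
  refine sum_congr rfl fun p hp => ?_
  rw [ch_conj, ← ch_add, ← sub_eq_add_neg, (mem_filter.1 hp).2]

theorem sum_w (S : Finset (Fin D → ZMod n)) :
    ∑ Y : Fin D → ZMod n, ‖ft S Y‖ ^ 2 = (n : ℝ) ^ D * S.card := by
  have h := parseval (fun t : Fin D → ZMod n => if t ∈ S then (1 : ℂ) else 0)
  have e1 : ∀ Y : Fin D → ZMod n, ∑ t, (if t ∈ S then (1 : ℂ) else 0) * ch Y t = ft S Y := by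
    intro Y
    unfold ft
    simp only [ite_mul, one_mul, zero_mul]
    rw [sum_ite_mem, univ_inter]
  have e2 : ∑ t : Fin D → ZMod n, ‖(if t ∈ S then (1 : ℂ) else 0)‖ ^ 2 = S.card := by
    have : ∀ t : Fin D → ZMod n, ‖(if t ∈ S then (1 : ℂ) else 0)‖ ^ 2 =
        if t ∈ S then (1 : ℝ) else 0 := by
      intro t; split_ifs <;> simp
    rw [sum_congr rfl fun t _ => this t, sum_ite_mem, univ_inter]
    simp
  rw [e2] at h
  rw [← h]
  exact sum_congr rfl fun Y _ => by rw [e1 Y]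

/-- convolution -/
noncomputable def cv (w : (Fin D → ZMod n) → ℝ) (Y : Fin D → ZMod n) : ℝ :=
  ∑ Z, w Z * w (Y - Z)

theorem sum_cv (w : (Fin D → ZMod n) → ℝ) : ∑ Y, cv w Y = (∑ Y, w Y) ^ 2 := by
  unfold cv
  rw [sum_comm, sq, sum_mul_sum]
  refine sum_congr rfl fun Z _ => ?_
  rw [← mul_sum, ← mul_sum]
  congr 1
  exact Equiv.sum_comp (Equiv.subRight Z) w

theorem cv_eq (S : Finset (Fin D → ZMod n)) (Y : Fin D → ZMod n) :
    ((cv (fun Y => ‖ft S Y‖ ^ 2) Y : ℝ) : ℂ) =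
      ∑ t, ((n : ℂ) ^ D * (R S t : ℂ) ^ 2) * ch Y t := by
  unfold cv
  rw [Complex.ofReal_sum]
  have e1 : ∀ Z : Fin D → ZMod n, ((‖ft S Z‖ ^ 2 * ‖ft S (Y - Z)‖ ^ 2 : ℝ) : ℂ) =
      ∑ t, ∑ t', (R S t : ℂ) * (R S t' : ℂ) * ch Y t' * ch Z (t - t') := by
    intro Z
    rw [Complex.ofReal_mul, ft_sq, ft_sq, sum_mul_sum]
    refine sum_congr rfl fun t _ => sum_congr rfl fun t' _ => ?_
    have h1 : ch (Y - Z) t' = ch Y t' * ch Z (-t') := by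
      rw [sub_eq_add_neg, ch_add', ch_comm (-Z) t', ch_comm Z (-t')]
      congr 1
      rw [← ch_conj, ch_comm t' Z, ch_conj, ch_comm Z (-t')]
    rw [h1, sub_eq_add_neg t t', ch_add]
    ring
  rw [sum_congr rfl fun Z _ => e1 Z, sum_comm]
  refine sum_congr rfl fun t _ => ?_
  rw [sum_comm]
  have e2 : ∀ t' : Fin D → ZMod n,
      ∑ Z : Fin D → ZMod n, (R S t : ℂ) * (R S t' : ℂ) * ch Y t' * ch Z (t - t') =
        if t = t' then (R S t : ℂ) * (R S t' : ℂ) * ch Y t' * (n : ℂ) ^ D else 0 := by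
    intro t'
    rw [← mul_sum, orth]
    by_cases h : t = t'
    · rw [if_pos h, if_pos (sub_eq_zero.2 h)]
    · rw [if_neg h, if_neg (fun h' => h (sub_eq_zero.1 h')), mul_zero]
  rw [sum_congr rfl fun t' _ => e2 t', sum_ite_eq, if_pos (mem_univ t)]
  ring

theorem sum_cv_sq (S : Finset (Fin D → ZMod n)) :
    ∑ Y, cv (fun Y : Fin D → ZMod n => ‖ft S Y‖ ^ 2) Y ^ 2 =
      ((n : ℝ) ^ D) ^ 3 * ∑ t, (R S t : ℝ) ^ 4 := by
  have h := parseval (fun t : Fin D → ZMod n => (n : ℂ) ^ D * (R S t : ℂ) ^ 2)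
  have e1 : ∀ Y : Fin D → ZMod n, ‖∑ t, ((n : ℂ) ^ D * (R S t : ℂ) ^ 2) * ch Y t‖ ^ 2 =
      cv (fun Y : Fin D → ZMod n => ‖ft S Y‖ ^ 2) Y ^ 2 := by
    intro Y
    rw [← cv_eq, Complex.norm_real, Real.norm_eq_abs, sq_abs]
  rw [sum_congr rfl fun Y _ => e1 Y] at h
  rw [h, pow_succ ((n : ℝ) ^ D) 2, mul_comm (((n : ℝ) ^ D) ^ 2), mul_assoc]
  congr 1
  rw [mul_sum]
  refine sum_congr rfl fun t _ => ?_
  rw [norm_mul, norm_pow, norm_pow, Complex.norm_natCast, Complex.norm_natCast]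
  ring

theorem sum_R (S : Finset (Fin D → ZMod n)) : ∑ t ∈ S - S, (R S t : ℝ) = (S.card : ℝ) ^ 2 := by
  have h1 : ∑ t ∈ S - S, R S t = S.card * S.card := by
    rw [← card_product]
    unfold R
    exact (card_eq_sum_card_fiberwise (fun p hp => by
      have := mem_product.1 hp
      exact sub_mem_sub this.1 this.2)).symm
  have h2 : ((∑ t ∈ S - S, R S t : ℕ) : ℝ) = (S.card : ℝ) ^ 2 := by
    rw [h1]; push_cast; ring
  rw [← h2]; push_cast; rfl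

theorem pow_mean (S : Finset (Fin D → ZMod n)) :
    ((S.card : ℝ) ^ 2) ^ 4 ≤ ((S - S).card : ℝ) ^ 3 * ∑ t, (R S t : ℝ) ^ 4 := by
  have h1 := pow_sum_le_card_mul_sum_pow (s := S - S) (f := fun t => (R S t : ℝ))
    (fun t _ => Nat.cast_nonneg _) 3
  rw [sum_R] at h1
  refine h1.trans (mul_le_mul_of_nonneg_left ?_ (by positivity))
  exact sum_le_univ_sum_of_nonneg fun t => by positivity

theorem energy_ge (T : Finset (Fin D → ZMod n)) (w₁ : (Fin D → ZMod n) → ℝ) (q : ℝ)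
    (h0 : ∀ Y, 0 ≤ w₁ Y) (h1 : ∀ Y, w₁ Y ≤ q) (h2 : ∀ Y, Y ∉ T → w₁ Y = 0) :
    ∑ Y, cv w₁ Y ^ 2 ≤ q ^ 4 * ((addEnergy T T : ℕ) : ℝ) := by
  have hq : 0 ≤ q := (h0 0).trans (h1 0)
  have h3 : ∀ Y, cv w₁ Y ≤ q ^ 2 * (#{xy ∈ T ×ˢ T | xy.1 + xy.2 = Y} : ℝ) := by
    intro Y
    have h4 : cv w₁ Y = ∑ Z ∈ T with Y - Z ∈ T, w₁ Z * w₁ (Y - Z) := by
      unfold cv
      symm
      apply sum_subset (subset_univ _)
      intro Z _ hZ
      by_cases h5 : Z ∈ T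
      · have h6 : Y - Z ∉ T := fun h7 => hZ (mem_filter.2 ⟨h5, h7⟩)
        rw [h2 _ h6, mul_zero]
      · rw [h2 _ h5, zero_mul]
    have h5 : #{xy ∈ T ×ˢ T | xy.1 + xy.2 = Y} = #{Z ∈ T | Y - Z ∈ T} := by
      refine card_nbij' (fun p => p.1) (fun Z => (Z, Y - Z)) ?_ ?_ ?_ ?_
      · intro p hp
        have hp1 := mem_filter.1 (mem_coe.1 hp)
        have hp2 := mem_product.1 hp1.1
        refine mem_coe.2 (mem_filter.2 ⟨hp2.1, ?_⟩)
        rw [← hp1.2, add_sub_cancel_left]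
        exact hp2.2
      · intro Z hZ
        have hZ1 := mem_filter.1 (mem_coe.1 hZ)
        exact mem_coe.2 (mem_filter.2 ⟨mem_product.2 ⟨hZ1.1, hZ1.2⟩, add_sub_cancel Z Y⟩)
      · intro p hp
        have hp1 := mem_filter.1 (mem_coe.1 hp)
        refine Prod.ext rfl ?_
        show Y - p.1 = p.2
        rw [← hp1.2, add_sub_cancel_left]
      · intro Z _; rfl
    rw [h4, h5]
    calc ∑ Z ∈ T with Y - Z ∈ T, w₁ Z * w₁ (Y - Z) ≤ ∑ Z ∈ T with Y - Z ∈ T, q ^ 2 := by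
          refine sum_le_sum fun Z _ => ?_
          rw [sq]; exact mul_le_mul (h1 _) (h1 _) (h0 _) hq
      _ = q ^ 2 * (#{Z ∈ T | Y - Z ∈ T} : ℝ) := by rw [sum_const, nsmul_eq_mul, mul_comm]
  have h4 : ∀ Y, 0 ≤ cv w₁ Y := fun Y => sum_nonneg fun Z _ => mul_nonneg (h0 _) (h0 _)
  rw [addEnergy_eq_sum_sq, Nat.cast_sum, mul_sum]
  refine sum_le_sum fun Y _ => ?_
  calc cv w₁ Y ^ 2 ≤ (q ^ 2 * (#{xy ∈ T ×ˢ T | xy.1 + xy.2 = Y} : ℝ)) ^ 2 :=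
        pow_le_pow_left₀ (h4 Y) (h3 Y) 2
    _ = q ^ 4 * (((#{xy ∈ T ×ˢ T | xy.1 + xy.2 = Y}) ^ 2 : ℕ) : ℝ) := by push_cast; ring

theorem trunc (w w₁ : (Fin D → ZMod n) → ℝ) (ε : ℝ) (h0 : ∀ Y, 0 ≤ w₁ Y) (h1 : ∀ Y, w₁ Y ≤ w Y)
    (h2 : ∀ Y, w Y - w₁ Y ≤ ε) :
    ∑ Y, cv w Y ^ 2 - 4 * ε * (∑ Y, w Y) ^ 3 ≤ ∑ Y, cv w₁ Y ^ 2 := by
  have hw : ∀ Y, 0 ≤ w Y := fun Y => (h0 Y).trans (h1 Y)
  have hε : 0 ≤ ε := (sub_nonneg.2 (h1 0)).trans (h2 0)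
  have hW : 0 ≤ ∑ Y, w Y := sum_nonneg fun Y _ => hw Y
  have c0 : ∀ Y, 0 ≤ cv w₁ Y := fun Y => sum_nonneg fun Z _ => mul_nonneg (h0 _) (h0 _)
  have c1 : ∀ Y, cv w₁ Y ≤ cv w Y := fun Y => sum_le_sum fun Z _ =>
    mul_le_mul (h1 _) (h1 _) (h0 _) (hw _)
  have c2 : ∀ Y, cv w Y ≤ cv w₁ Y + 2 * ε * ∑ Y, w Y := by
    intro Y
    have e1 : ∑ Z, w (Y - Z) = ∑ Z, w Z := Equiv.sum_comp (Equiv.subLeft Y) w
    calc cv w Y ≤ ∑ Z, (w₁ Z * w₁ (Y - Z) + (ε * w (Y - Z) + w Z * ε)) := by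
          refine sum_le_sum fun Z _ => ?_
          have g1 : (w Z - w₁ Z) * w (Y - Z) ≤ ε * w (Y - Z) :=
            mul_le_mul_of_nonneg_right (h2 Z) (hw _)
          have g2 : w₁ Z * (w (Y - Z) - w₁ (Y - Z)) ≤ w Z * ε :=
            mul_le_mul (h1 Z) (h2 _) (sub_nonneg.2 (h1 _)) (hw _)
          nlinarith
      _ = cv w₁ Y + 2 * ε * ∑ Y, w Y := by
          rw [sum_add_distrib, sum_add_distrib, ← mul_sum, ← sum_mul, e1]
          unfold cv; ring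
  have c3 : ∀ Y, cv w Y ^ 2 - 4 * ε * (∑ Y, w Y) * cv w Y ≤ cv w₁ Y ^ 2 := by
    intro Y
    have g0 := c0 Y
    have g1 := c1 Y
    have g2 := c2 Y
    have g3 : (cv w Y - cv w₁ Y) * (cv w Y + cv w₁ Y) ≤ (2 * ε * ∑ Y, w Y) * (2 * cv w Y) :=
      mul_le_mul (by linarith) (by linarith) (by linarith) (by positivity)
    nlinarith
  calc ∑ Y, cv w Y ^ 2 - 4 * ε * (∑ Y, w Y) ^ 3 =
      ∑ Y, (cv w Y ^ 2 - 4 * ε * (∑ Y, w Y) * cv w Y) := by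
        rw [sum_sub_distrib, ← mul_sum, sum_cv]; ring
    _ ≤ ∑ Y, cv w₁ Y ^ 2 := sum_le_sum fun Y _ => c3 Y

theorem fin_calc {N s L δ Q E c : ℝ} (hN : 0 < N) (hs : 0 < s) (hL0 : 0 < L)
    (hδL : δ * (8 * L ^ 3) = 1) (hQ0 : 0 ≤ Q) (hSS : c ≤ L * s) (hc : 0 ≤ c)
    (k5 : (s ^ 2) ^ 4 ≤ c ^ 3 * Q)
    (k8 : N ^ 3 * Q - 4 * (δ * s ^ 2) * (N * s) ^ 3 ≤ (s ^ 2) ^ 4 * E) :
    N ^ 3 ≤ 2 * L ^ 3 * s ^ 3 * E := by
  have hL3 : (0 : ℝ) < L ^ 3 := by positivity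
  have k6 : (s ^ 2) ^ 4 ≤ (L * s) ^ 3 * Q :=
    k5.trans (mul_le_mul_of_nonneg_right (pow_le_pow_left₀ hc hSS 3) hQ0)
  have k7 : s ^ 5 ≤ L ^ 3 * Q := by
    have : s ^ 5 * s ^ 3 ≤ L ^ 3 * Q * s ^ 3 := by
      calc s ^ 5 * s ^ 3 = (s ^ 2) ^ 4 := by ring
        _ ≤ (L * s) ^ 3 * Q := k6
        _ = L ^ 3 * Q * s ^ 3 := by ring
    exact le_of_mul_le_mul_right this (by positivity)
  have k9 : N ^ 3 * s ^ 5 ≤ 2 * L ^ 3 * (s ^ 8 * E) := by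
    have e1 : N ^ 3 * s ^ 5 ≤ N ^ 3 * (L ^ 3 * Q) := mul_le_mul_of_nonneg_left k7 (by positivity)
    have e2 : L ^ 3 * (4 * (δ * s ^ 2) * (N * s) ^ 3) = (δ * (8 * L ^ 3)) * (N ^ 3 * s ^ 5) / 2 := by
      ring
    rw [hδL, one_mul] at e2
    have e3 := mul_le_mul_of_nonneg_left k8 hL3.le
    have e4 : L ^ 3 * (N ^ 3 * Q - 4 * (δ * s ^ 2) * (N * s) ^ 3) =
        N ^ 3 * (L ^ 3 * Q) - N ^ 3 * s ^ 5 / 2 := by
      rw [mul_sub, e2]; ring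
    rw [e4] at e3
    have e5 : L ^ 3 * ((s ^ 2) ^ 4 * E) = L ^ 3 * (s ^ 8 * E) := by ring
    rw [e5] at e3
    linarith
  have k10 : N ^ 3 * s ^ 5 ≤ (2 * L ^ 3 * s ^ 3 * E) * s ^ 5 := by
    calc N ^ 3 * s ^ 5 ≤ 2 * L ^ 3 * (s ^ 8 * E) := k9
      _ = (2 * L ^ 3 * s ^ 3 * E) * s ^ 5 := by ring
  exact le_of_mul_le_mul_right k10 (by positivity)

end P1L

open P1L in
theorem s1 : S1 := by
  intro D n _ S L hS hL hSS
  have hs : (0 : ℝ) < S.card := by exact_mod_cast hS.card_pos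
  have hn : (0 : ℝ) < n := by exact_mod_cast Nat.pos_of_ne_zero (NeZero.ne n)
  have hN : (0 : ℝ) < (n : ℝ) ^ D := by positivity
  have hL0 : 0 < L := by linarith
  have hL3 : (0 : ℝ) < L ^ 3 := by positivity
  obtain ⟨δ, hδ⟩ : ∃ δ : ℝ, δ = 1 / (8 * L ^ 3) := ⟨_, rfl⟩
  have hδ0 : 0 < δ := by rw [hδ]; positivity
  have hδL : δ * (8 * L ^ 3) = 1 := by rw [hδ]; field_simp
  rw [← hδ]
  have hmem : ∀ Y, Y ∈ spec S δ ↔ δ * (S.card : ℝ) ^ 2 ≤ ‖ft S Y‖ ^ 2 := by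
    intro Y; unfold spec; rw [mem_filter]; exact ⟨fun h => h.2, fun h => ⟨mem_univ _, h⟩⟩
  constructor
  · have h1 : ((spec S δ).card : ℝ) * (δ * (S.card : ℝ) ^ 2) ≤ (n : ℝ) ^ D * S.card := by
      calc ((spec S δ).card : ℝ) * (δ * (S.card : ℝ) ^ 2) = ∑ Y ∈ spec S δ, δ * (S.card : ℝ) ^ 2 := by
            rw [sum_const, nsmul_eq_mul]
        _ ≤ ∑ Y ∈ spec S δ, ‖ft S Y‖ ^ 2 := sum_le_sum fun Y hY => (hmem Y).1 hY
        _ ≤ ∑ Y, ‖ft S Y‖ ^ 2 := sum_le_univ_sum_of_nonneg fun Y => by positivity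
        _ = (n : ℝ) ^ D * S.card := sum_w S
    have h2 : ((spec S δ).card : ℝ) * S.card * δ ≤ (n : ℝ) ^ D := by
      have h3 : (((spec S δ).card : ℝ) * S.card * δ) * S.card ≤ (n : ℝ) ^ D * S.card := by
        calc _ = ((spec S δ).card : ℝ) * (δ * (S.card : ℝ) ^ 2) := by ring
          _ ≤ _ := h1
      exact le_of_mul_le_mul_right h3 hs
    calc ((spec S δ).card : ℝ) * S.card = (8 * L ^ 3) * (((spec S δ).card : ℝ) * S.card * δ) := by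
          have : (8 * L ^ 3) * (((spec S δ).card : ℝ) * S.card * δ) =
            ((spec S δ).card : ℝ) * S.card * (δ * (8 * L ^ 3)) := by ring
          rw [this, hδL, mul_one]
      _ ≤ (8 * L ^ 3) * (n : ℝ) ^ D := mul_le_mul_of_nonneg_left h2 (by positivity)
  · classical
    obtain ⟨w, hw⟩ : ∃ w : (Fin D → ZMod n) → ℝ, w = fun Y => ‖ft S Y‖ ^ 2 := ⟨_, rfl⟩
    obtain ⟨w₁, hw₁⟩ : ∃ w₁ : (Fin D → ZMod n) → ℝ, w₁ = fun Y => if Y ∈ spec S δ then w Y else 0 :=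
      ⟨_, rfl⟩
    have w0 : ∀ Y, 0 ≤ w Y := fun Y => by rw [hw]; positivity
    have w1 : ∀ Y, w Y ≤ (S.card : ℝ) ^ 2 := by
      intro Y
      rw [hw]
      refine pow_le_pow_left₀ (norm_nonneg _) ?_ 2
      unfold ft
      refine (norm_sum_le _ _).trans ?_
      rw [sum_congr rfl fun u _ => ch_norm Y u]
      simp
    have a0 : ∀ Y, 0 ≤ w₁ Y := by
      intro Y; rw [hw₁]; dsimp only; split_ifs
      · exact w0 Y
      · exact le_rfl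
    have a1 : ∀ Y, w₁ Y ≤ w Y := by
      intro Y; rw [hw₁]; dsimp only; split_ifs
      · exact le_rfl
      · exact w0 Y
    have a2 : ∀ Y, w Y - w₁ Y ≤ δ * (S.card : ℝ) ^ 2 := by
      intro Y; rw [hw₁]; dsimp only
      by_cases h : Y ∈ spec S δ
      · rw [if_pos h, sub_self]; positivity
      · rw [if_neg h, sub_zero, hw]
        rw [hmem] at h
        exact (not_le.1 h).le
    have a3 : ∀ Y, Y ∉ spec S δ → w₁ Y = 0 := by
      intro Y h; rw [hw₁]; dsimp only; rw [if_neg h]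
    have k1 := trunc w w₁ _ a0 a1 a2
    have k2 := energy_ge (spec S δ) w₁ _ a0 (fun Y => (a1 Y).trans (w1 Y)) a3
    have k3 : ∑ Y, w Y = (n : ℝ) ^ D * S.card := by rw [hw]; exact sum_w S
    have k4 : ∑ Y, cv w Y ^ 2 = ((n : ℝ) ^ D) ^ 3 * ∑ t, (R S t : ℝ) ^ 4 := by
      rw [hw]; exact sum_cv_sq S
    have k5 := pow_mean S
    rw [k3, k4] at k1
    obtain ⟨Q, hQ⟩ : ∃ Q : ℝ, Q = ∑ t, (R S t : ℝ) ^ 4 := ⟨_, rfl⟩
    obtain ⟨E, hE⟩ : ∃ E : ℝ, E = ((addEnergy (spec S δ) (spec S δ) : ℕ) : ℝ) := ⟨_, rfl⟩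
    rw [← hQ] at k1 k5
    rw [← hE] at k2
    have hQ0 : 0 ≤ Q := by rw [hQ]; exact sum_nonneg fun _ _ => by positivity
    rw [← hE]
    exact fin_calc hN hs hL0 hδL hQ0 hSS (Nat.cast_nonneg _) k5 (k1.trans k2)

end Pool.Agent.H98.Gap
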