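import Pool.Agent.H98.Gap.Stmt

/-! Much of the spectrum in a coset of a subgroup gives periods. -/

set_option autoImplicit false

namespace Pool.Agent.H98.Gap

open Finset Pool.Agent.Y806.DF Pool.Agent.H608VF
open scoped Pointwise

namespace P2L

variable {D n : ℕ} [NeZero n]

theorem ch_comm (Y u : Fin D → ZMod n) : ch Y u = ch u Y := by
  unfold ch
  congr 1
  exact Finset.sum_congr rfl fun i _ => mul_comm _ _

theorem ch_add_left (Y Z u : Fin D → ZMod n) : ch (Y + Z) u = ch Y u * ch Z u := by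
  unfold ch
  rw [← AddChar.map_add_eq_mul, ← Finset.sum_add_distrib]
  congr 1
  exact Finset.sum_congr rfl fun i _ => add_mul _ _ _

theorem ch_add_right (Y u v : Fin D → ZMod n) : ch Y (u + v) = ch Y u * ch Y v := by
  rw [ch_comm, ch_add_left, ch_comm u, ch_comm v]

theorem norm_ch (Y u : Fin D → ZMod n) : ‖ch Y u‖ = 1 := by
  unfold ch
  exact AddChar.norm_apply _ _

theorem ch_neg (Y u : Fin D → ZMod n) : ch Y (-u) = (starRingEnd ℂ) (ch Y u) := by
  unfold ch
  rw [← AddChar.map_neg_eq_conj]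
  congr 1
  rw [← Finset.sum_neg_distrib]
  exact Finset.sum_congr rfl fun i _ => mul_neg _ _

theorem ch_eq_one {Y u : Fin D → ZMod n} (h : ∑ i, Y i * u i = 0) : ch Y u = 1 := by
  unfold ch
  rw [h, AddChar.map_zero_eq_one]

theorem ch_ne_one {Y u : Fin D → ZMod n} (h : ∑ i, Y i * u i ≠ 0) : ch Y u ≠ 1 := by
  intro h1
  apply h
  apply ZMod.injective_stdAddChar
  rw [AddChar.map_zero_eq_one]
  exact h1

open Classical in
/-- the elements of a subgroup -/
noncomputable def el (W : AddSubgroup (Fin D → ZMod n)) : Finset (Fin D → ZMod n) :=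
  Finset.univ.filter (· ∈ W)

theorem mem_el {W : AddSubgroup (Fin D → ZMod n)} {Y : Fin D → ZMod n} : Y ∈ el W ↔ Y ∈ W := by
  unfold el
  simp

theorem card_el (W : AddSubgroup (Fin D → ZMod n)) : (el W).card = Nat.card W := by
  classical
  unfold el
  rw [Nat.card_eq_fintype_card, ← Fintype.card_subtype]

open Classical in
theorem sum_el (W : AddSubgroup (Fin D → ZMod n)) (t : Fin D → ZMod n) :
    ∑ Y ∈ el W, ch Y t = if t ∈ ann W then ((el W).card : ℂ) else 0 := by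
  by_cases ht : t ∈ ann W
  · rw [if_pos ht]
    have h1 : ∀ Y ∈ el W, ch Y t = 1 := fun Y hY => ch_eq_one (ht Y (mem_el.1 hY))
    rw [Finset.sum_congr rfl h1]
    simp
  · rw [if_neg ht]
    have h1 : ∃ Z ∈ W, ∑ i, Z i * t i ≠ 0 := by
      by_contra hcon
      push Not at hcon
      exact ht hcon
    obtain ⟨Z, hZ, hZt⟩ := h1
    have h2 : ∑ Y ∈ el W, ch Y t = ∑ Y ∈ el W, ch (Y + Z) t := by
      symm
      refine Finset.sum_equiv (Equiv.addRight Z) (fun Y => ?_) (fun Y _ => rfl)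
      rw [mem_el, mem_el]
      show Y ∈ W ↔ Y + Z ∈ W
      exact (W.add_mem_cancel_right hZ).symm
    have h3 : ∑ Y ∈ el W, ch Y t = (∑ Y ∈ el W, ch Y t) * ch Z t := by
      conv_lhs => rw [h2]
      rw [Finset.sum_mul]
      exact Finset.sum_congr rfl fun Y _ => ch_add_left Y Z t
    have h4 : (∑ Y ∈ el W, ch Y t) * (ch Z t - 1) = 0 := by
      rw [mul_sub, mul_one, ← h3, sub_self]
    rcases mul_eq_zero.1 h4 with h5 | h5
    · exact h5
    · exact absurd (sub_eq_zero.1 h5) (ch_ne_one hZt)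

theorem mem_ann_top {Y : Fin D → ZMod n} : Y ∈ ann (⊤ : AddSubgroup (Fin D → ZMod n)) ↔ Y = 0 := by
  constructor
  · intro h
    funext i
    have h1 := h (Pi.single i 1) (AddSubgroup.mem_top _)
    rw [Finset.sum_eq_single i] at h1
    · rw [Pi.single_eq_same, one_mul] at h1
      exact h1
    · intro j _ hj
      rw [Pi.single_eq_of_ne hj, zero_mul]
    · intro hi
      exact absurd (Finset.mem_univ i) hi
  · rintro rfl
    exact AddSubgroup.zero_mem _

theorem el_top : el (⊤ : AddSubgroup (Fin D → ZMod n)) = Finset.univ := by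
  ext Y
  simp [mem_el]

theorem card_mul (W : AddSubgroup (Fin D → ZMod n)) : (el W).card * (el (ann W)).card = n ^ D := by
  classical
  have h1 : ∑ t : Fin D → ZMod n, ∑ Y ∈ el W, ch Y t = ((el W).card : ℂ) * (el (ann W)).card := by
    rw [Finset.sum_congr rfl fun t _ => sum_el W t, ← Finset.sum_filter, Finset.sum_const,
      nsmul_eq_mul, mul_comm]
    rfl
  have h2 : ∑ t : Fin D → ZMod n, ∑ Y ∈ el W, ch Y t = ((n ^ D : ℕ) : ℂ) := by
    rw [Finset.sum_comm]
    have h3 : ∀ Y ∈ el W, ∑ t : Fin D → ZMod n, ch Y t =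
        if Y = 0 then ((n ^ D : ℕ) : ℂ) else 0 := by
      intro Y _
      have h4 := sum_el (⊤ : AddSubgroup (Fin D → ZMod n)) Y
      rw [el_top] at h4
      rw [Finset.sum_congr rfl fun t _ => ch_comm Y t, h4]
      by_cases hY : Y = 0
      · rw [if_pos (mem_ann_top.2 hY), if_pos hY, Finset.card_univ]
        simp
      · rw [if_neg (fun h => hY (mem_ann_top.1 h)), if_neg hY]
    rw [Finset.sum_congr rfl h3, Finset.sum_ite_eq', if_pos (mem_el.2 W.zero_mem)]
  rw [h2] at h1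
  exact_mod_cast h1.symm

theorem ft_sq (S : Finset (Fin D → ZMod n)) (Y : Fin D → ZMod n) :
    ((‖ft S Y‖ ^ 2 : ℝ) : ℂ) = ∑ s ∈ S, ∑ s' ∈ S, ch Y (s' - s) := by
  have h1 : ((‖ft S Y‖ ^ 2 : ℝ) : ℂ) = (starRingEnd ℂ) (ft S Y) * ft S Y := by
    rw [Complex.conj_mul']
    push_cast
    rfl
  rw [h1]
  unfold ft
  rw [map_sum, Finset.sum_mul_sum]
  refine Finset.sum_congr rfl fun s _ => Finset.sum_congr rfl fun s' _ => ?_
  rw [← ch_neg, ← ch_add_right]
  congr 1
  abel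

open Classical in
theorem main_bd (S : Finset (Fin D → ZMod n)) (Y₀ : Fin D → ZMod n)
    (W : AddSubgroup (Fin D → ZMod n)) : ∑ Z ∈ el W, ‖ft S (Z + Y₀)‖ ^ 2 ≤
      ((el W).card : ℝ) * ∑ s ∈ S, ((S.filter (fun s' => s' - s ∈ ann W)).card : ℝ) := by
  have h1 : ((∑ Z ∈ el W, ‖ft S (Z + Y₀)‖ ^ 2 : ℝ) : ℂ) =
      ∑ s ∈ S, ∑ s' ∈ S, (if s' - s ∈ ann W then ((el W).card : ℂ) else 0) * ch Y₀ (s' - s) := by
    rw [Complex.ofReal_sum, Finset.sum_congr rfl fun Z _ => ft_sq S (Z + Y₀), Finset.sum_comm]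
    refine Finset.sum_congr rfl fun s _ => ?_
    rw [Finset.sum_comm]
    refine Finset.sum_congr rfl fun s' _ => ?_
    rw [← sum_el, Finset.sum_mul]
    exact Finset.sum_congr rfl fun Z _ => ch_add_left Z Y₀ _
  have h2 : ∑ Z ∈ el W, ‖ft S (Z + Y₀)‖ ^ 2 =
      ‖((∑ Z ∈ el W, ‖ft S (Z + Y₀)‖ ^ 2 : ℝ) : ℂ)‖ := by
    rw [Complex.norm_real, Real.norm_of_nonneg]
    exact Finset.sum_nonneg fun Z _ => sq_nonneg _
  rw [h2, h1, Finset.mul_sum]
  refine (norm_sum_le _ _).trans (Finset.sum_le_sum fun s _ => (norm_sum_le _ _).trans ?_)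
  have h3 : ∀ s' ∈ S, ‖(if s' - s ∈ ann W then ((el W).card : ℂ) else 0) * ch Y₀ (s' - s)‖ =
      if s' - s ∈ ann W then ((el W).card : ℝ) else 0 := by
    intro s' _
    rw [norm_mul, norm_ch, mul_one]
    split_ifs
    · simp
    · simp
  rw [Finset.sum_congr rfl h3, ← Finset.sum_filter, Finset.sum_const, nsmul_eq_mul, mul_comm]

end P2L

open P2L in
theorem s2 : S2 := by
  classical
  intro D n _ S δ Y₀ W B hS hδ hB hW
  -- the lower bound
  have h1 : (B.card : ℝ) * (δ * (S.card : ℝ) ^ 2) ≤ ∑ Y ∈ B, ‖ft S Y‖ ^ 2 := by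
    rw [← nsmul_eq_mul]
    refine Finset.card_nsmul_le_sum _ _ _ fun Y hY => ?_
    have := hB hY
    unfold spec at this
    exact (Finset.mem_filter.1 this).2
  have h2 : ∑ Y ∈ B, ‖ft S Y‖ ^ 2 ≤ ∑ Z ∈ el W, ‖ft S (Z + Y₀)‖ ^ 2 := by
    have h3 : ∑ Y ∈ B, ‖ft S Y‖ ^ 2 = ∑ Z ∈ B.image (fun Y => Y - Y₀), ‖ft S (Z + Y₀)‖ ^ 2 := by
      rw [Finset.sum_image]
      · exact Finset.sum_congr rfl fun Y _ => by rw [sub_add_cancel]
      · intro a _ b _ hab
        exact sub_left_injective hab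
    rw [h3]
    refine Finset.sum_le_sum_of_subset_of_nonneg ?_ fun _ _ _ => sq_nonneg _
    intro Z hZ
    obtain ⟨Y, hY, rfl⟩ := Finset.mem_image.1 hZ
    exact mem_el.2 (hW Y hY)
  have h4 := h1.trans (h2.trans (main_bd S Y₀ W))
  -- a good translate
  obtain ⟨s, hs, hmax⟩ := S.exists_max_image
    (fun s => ((S.filter (fun s' => s' - s ∈ ann W)).card : ℝ)) hS
  refine ⟨s, hs, ?_⟩
  have h5 : ∑ s ∈ S, ((S.filter (fun s' => s' - s ∈ ann W)).card : ℝ) ≤
      S.card * ((S.filter (fun s' => s' - s ∈ ann W)).card : ℝ) := by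
    rw [← nsmul_eq_mul]
    exact Finset.sum_le_card_nsmul _ _ _ hmax
  have h6 : ({s' : Fin D → ZMod n | s' ∈ S ∧ s' - s ∈ ann W}.ncard : ℝ) =
      ((S.filter (fun s' => s' - s ∈ ann W)).card : ℝ) := by
    rw [← Set.ncard_coe_finset]
    congr 2
    ext s'
    simp
  rw [h6]
  set F : ℝ := ((S.filter (fun s' => s' - s ∈ ann W)).card : ℝ) with hF
  have hS0 : (0 : ℝ) < S.card := by exact_mod_cast hS.card_pos
  have h7 : (B.card : ℝ) * (δ * (S.card : ℝ) ^ 2) ≤ ((el W).card : ℝ) * (S.card * F) :=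
    h4.trans (mul_le_mul_of_nonneg_left h5 (Nat.cast_nonneg _))
  have h8 : δ * B.card * S.card ≤ ((el W).card : ℝ) * F := by
    have : (S.card : ℝ) * (δ * B.card * S.card) ≤ S.card * (((el W).card : ℝ) * F) := by
      nlinarith
    exact le_of_mul_le_mul_left this hS0
  have h9 : ((el W).card : ℝ) * (Nat.card (ann W) : ℝ) = (n : ℝ) ^ D := by
    rw [← card_el]
    exact_mod_cast card_mul W
  rw [← h9]
  calc δ * B.card * S.card * Nat.card (ann W) ≤ ((el W).card : ℝ) * F * Nat.card (ann W) :=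
        mul_le_mul_of_nonneg_right h8 (Nat.cast_nonneg _)
    _ = ((el W).card : ℝ) * (Nat.card (ann W) : ℝ) * F := by ring

end Pool.Agent.H98.Gap
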