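import Pool.Agent.H98.Gap.Stmt

set_option autoImplicit false

namespace Pool.Agent.H98.Gap

open Finset
open scoped Pointwise

namespace P3L

variable {G : Type} [AddCommGroup G] [DecidableEq G]

/-- a subset with minimal expansion -/
theorem exists_min (S : Finset G) (hS : S.Nonempty) :
    ∃ X ⊆ S, X.Nonempty ∧ ∀ A ⊆ S, (#(X + S)) * #A ≤ #(A + S) * #X := by
  have hS' : S ∈ S.powerset.erase ∅ := mem_erase_of_ne_of_mem hS.ne_empty (mem_powerset_self _)
  obtain ⟨U, hU, hUA⟩ :=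
    exists_min_image (S.powerset.erase ∅) (fun U => (#(U + S) : ℚ≥0) / #U) ⟨S, hS'⟩
  rw [mem_erase, mem_powerset, ← nonempty_iff_ne_empty] at hU
  refine ⟨U, hU.2, hU.1, ?_⟩
  intro A hA
  obtain rfl | hA' := A.eq_empty_or_nonempty
  · simp
  have h1 : (0 : ℚ≥0) < #U := Nat.cast_pos.2 hU.1.card_pos
  have h2 : (0 : ℚ≥0) < #A := Nat.cast_pos.2 hA'.card_pos
  have h3 := hUA A (mem_erase_of_ne_of_mem hA'.ne_empty (mem_powerset.2 hA))
  have h4 := (div_le_div_iff₀ h1 h2).1 h3
  exact_mod_cast h4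

/-- iteration -/
theorem iter (S X C : Finset G) (K : ℝ) (hX : X.Nonempty) (hK : 0 ≤ K)
    (hm : ∀ A ⊆ X, (#(X + S)) * #A ≤ #(A + S) * #X) (hXS : ((#(X + S) : ℕ) : ℝ) ≤ K * #X)
    (k : ℕ) : ((#(C + X + k • S) : ℕ) : ℝ) ≤ K ^ k * #(C + X) := by
  induction k with
  | zero => simp
  | succ k ih =>
    have h1 := pluennecke_petridis_inequality_add (A := X) (B := S) (C + k • S) hm
    have e1 : C + X + (k + 1) • S = C + k • S + X + S := by
      rw [succ_nsmul]
      abel
    have e2 : C + X + k • S = C + k • S + X := by abel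
    rw [e1]
    rw [e2] at ih
    have hXp : (0 : ℝ) < #X := by exact_mod_cast hX.card_pos
    have h2 : ((#(C + k • S + X + S) : ℕ) : ℝ) * #X ≤ #(X + S) * #(C + k • S + X) := by
      exact_mod_cast h1
    have h3 : ((#(C + k • S + X + S) : ℕ) : ℝ) * #X ≤ (K * #(C + k • S + X)) * #X := by
      calc ((#(C + k • S + X + S) : ℕ) : ℝ) * #X ≤ #(X + S) * #(C + k • S + X) := h2
        _ ≤ (K * #X) * #(C + k • S + X) := by gcongr
        _ = (K * #(C + k • S + X)) * #X := by ring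
    have h4 := le_of_mul_le_mul_right h3 hXp
    calc ((#(C + k • S + X + S) : ℕ) : ℝ) ≤ K * #(C + k • S + X) := h4
      _ ≤ K * (K ^ k * #(C + X)) := by gcongr
      _ = K ^ (k + 1) * #(C + X) := by ring

/-- the number of cosets -/
theorem cosets (S F Hf : Finset G) (H : AddSubgroup G) (hH : ∀ x, x ∈ Hf ↔ x ∈ H) (s : G)
    (hF : ∀ x, x ∈ F ↔ x ∈ S ∧ x - s ∈ H) :
    ∃ n : ℕ, #(S + Hf) ≤ n * #Hf ∧ n * #F ≤ #(S + S) := by
  classical
  obtain ⟨T, hTS, hinj, himg⟩ := exists_subset_injOn_image_eq_of_surjOn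
    (f := fun x : G => (QuotientAddGroup.mk x : G ⧸ H)) S (S.image fun x : G => (QuotientAddGroup.mk x : G ⧸ H))
    (by
      intro y hy
      rw [Finset.mem_coe, Finset.mem_image] at hy
      obtain ⟨x, hx, rfl⟩ := hy
      exact ⟨x, hx, rfl⟩)
  refine ⟨#T, ?_, ?_⟩
  · have h1 : S + Hf ⊆ T + Hf := by
      intro z hz
      rw [mem_add] at hz
      obtain ⟨x, hx, h, hh, rfl⟩ := hz
      have hx' : (QuotientAddGroup.mk x : G ⧸ H) ∈ T.image fun x : G => (QuotientAddGroup.mk x : G ⧸ H) := by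
        rw [himg]
        exact Finset.mem_image_of_mem _ hx
      rw [Finset.mem_image] at hx'
      obtain ⟨t, ht, htx⟩ := hx'
      rw [QuotientAddGroup.eq] at htx
      rw [mem_add]
      refine ⟨t, ht, -t + x + h, ?_, by abel⟩
      rw [hH] at hh ⊢
      exact H.add_mem htx hh
    exact (card_le_card h1).trans card_add_le
  · have h1 : T + F ⊆ S + S := add_subset_add hTS (fun x hx => ((hF x).1 hx).1)
    have h2 : #(T + F) = #T * #F := by
      rw [card_add_iff]
      rintro ⟨t, f⟩ htf ⟨t', f'⟩ htf' h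
      simp only [Set.mem_prod, Finset.mem_coe] at htf htf'
      simp only at h
      have e1 : t = t' := by
        apply hinj htf.1 htf'.1
        show (QuotientAddGroup.mk t : G ⧸ H) = QuotientAddGroup.mk t'
        rw [QuotientAddGroup.eq]
        have h3 := ((hF f).1 htf.2).2
        have h4 := ((hF f').1 htf'.2).2
        have e2 : -t + t' = (f - s) - (f' - s) := by
          have : t' = t + f - f' := by rw [h]; abel
          rw [this]; abel
        rw [e2]
        exact H.sub_mem h3 h4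
      subst e1
      have e3 : f = f' := by simpa using h
      rw [e3]
    rw [← h2]
    exact card_le_card h1

end P3L

open P3L in
/-- **S3** -/
theorem s3 : S3 := by
  intro G _ _ _ S H K κ s hS hK hκ hSS hF k
  classical
  set Hf : Finset G := univ.filter (fun x => x ∈ H) with hHf
  set F : Finset G := univ.filter (fun x => x ∈ S ∧ x - s ∈ H) with hFf
  have hH : ∀ x, x ∈ Hf ↔ x ∈ H := by intro x; simp [hHf]
  have hF' : ∀ x, x ∈ F ↔ x ∈ S ∧ x - s ∈ H := by intro x; simp [hFf]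
  have hHc : (Hf : Set G) = (H : Set G) := by ext x; simp [hH]
  have hcH : Nat.card H = #Hf := by
    rw [← Set.ncard_coe_finset, hHc]
    rfl
  have hcF : ({s' : G | s' ∈ S ∧ s' - s ∈ H}).ncard = #F := by
    rw [← Set.ncard_coe_finset]
    congr 1
    ext x
    simp [hF']
  have hL : (((k • S : Finset G) : Set G) + (H : Set G)).ncard = #(Hf + k • S) := by
    rw [← Set.ncard_coe_finset, coe_add, hHc, add_comm]
  rw [hL]
  rw [hcH, hcF] at hF
  obtain ⟨n, hn1, hn2⟩ := cosets S F Hf H hH s hF'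
  obtain ⟨X, hXS, hX, hmin⟩ := exists_min S hS
  have hSp : (0 : ℝ) < #S := by exact_mod_cast hS.card_pos
  have hXp : (0 : ℝ) < #X := by exact_mod_cast hX.card_pos
  have hXK : ((#(X + S) : ℕ) : ℝ) ≤ K * #X := by
    have h1 : ((#(X + S) : ℕ) : ℝ) * #S ≤ #(S + S) * #X := by
      exact_mod_cast hmin S (Subset.refl S)
    have h2 : ((#(X + S) : ℕ) : ℝ) * #S ≤ (K * #X) * #S := by
      calc ((#(X + S) : ℕ) : ℝ) * #S ≤ #(S + S) * #X := h1
        _ ≤ (K * #S) * #X := by gcongr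
        _ = (K * #X) * #S := by ring
    exact le_of_mul_le_mul_right h2 hSp
  have hit := iter S X Hf K hX (by linarith) (fun A hA => hmin A (hA.trans hXS)) hXK k
  have h1 : #(Hf + k • S) ≤ #(Hf + X + k • S) := by
    have e : Hf + X + k • S = (Hf + k • S) + X := by abel
    rw [e]
    exact card_le_card_add_right hX
  have h2 : #(Hf + X) ≤ #(S + Hf) := by
    rw [add_comm]
    exact card_le_card (add_subset_add_right hXS)
  have h3 : κ * (#(S + Hf) : ℝ) ≤ K * #S := by
    calc κ * (#(S + Hf) : ℝ) ≤ κ * ((n * #Hf : ℕ) : ℝ) := by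
          have : ((#(S + Hf) : ℕ) : ℝ) ≤ ((n * #Hf : ℕ) : ℝ) := by exact_mod_cast hn1
          exact mul_le_mul_of_nonneg_left this hκ.le
      _ = n * (κ * #Hf) := by push_cast; ring
      _ ≤ n * #F := by gcongr
      _ ≤ #(S + S) := by exact_mod_cast hn2
      _ ≤ K * #S := hSS
  have h4 : ((#(S + Hf) : ℕ) : ℝ) ≤ κ⁻¹ * (K * #S) := by
    rw [← div_eq_inv_mul, le_div_iff₀ hκ]
    linarith
  have hKk : (0 : ℝ) ≤ K ^ k := by positivity
  calc ((#(Hf + k • S) : ℕ) : ℝ) ≤ #(Hf + X + k • S) := by exact_mod_cast h1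
    _ ≤ K ^ k * #(Hf + X) := hit
    _ ≤ K ^ k * #(S + Hf) := by
        have : ((#(Hf + X) : ℕ) : ℝ) ≤ #(S + Hf) := by exact_mod_cast h2
        exact mul_le_mul_of_nonneg_left this hKk
    _ ≤ K ^ k * (κ⁻¹ * (K * #S)) := mul_le_mul_of_nonneg_left h4 hKk
    _ = κ⁻¹ * K ^ (k + 1) * (#S : ℝ) := by ring

end Pool.Agent.H98.Gap
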