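import Pool.Agent.H98.Gap.Stmt

set_option autoImplicit false

namespace Pool.Agent.H98.Gap

open Finset
open scoped Pointwise

namespace P4L

theorem dbl {G : Type*} [AddCommGroup G] [DecidableEq G] {A : Finset G} (hA : A.Nonempty) {K : ℝ}
    (h : ((A - A).card : ℝ) ≤ K * A.card) : ((A + A).card : ℝ) ≤ K ^ 2 * A.card := by
  have h1 := Finset.pluennecke_ruzsa_inequality_nsmul_sub hA A 2
  have hA0 : (0 : ℝ) < (A.card : ℝ) := by exact_mod_cast hA.card_pos
  have h2 : (((2 • A : Finset G)).card : ℝ) ≤ (((A - A).card : ℝ) / A.card) ^ 2 * A.card := by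
    have h1' := (NNRat.cast_le (K := ℝ)).2 h1
    push_cast at h1'
    exact h1'
  rw [two_nsmul] at h2
  refine h2.trans ?_
  refine mul_le_mul_of_nonneg_right ?_ hA0.le
  refine pow_le_pow_left₀ (by positivity) ?_ 2
  rwa [div_le_iff₀ hA0]

theorem popular {G : Type*} [DecidableEq G] {A T : Finset G} {p : G → G → Prop}
    [∀ t, DecidablePred (p t)] (hA : A.Nonempty) {L : ℝ}
    (hT : (T.card : ℝ) ≤ L) (h : ∀ a ∈ A, ∃ t ∈ T, p t a) :
    ∃ t ∈ T, (A.card : ℝ) ≤ L * (A.filter (p t)).card := by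
  have hA0 : (0 : ℝ) < (A.card : ℝ) := by exact_mod_cast hA.card_pos
  have hTne : T.Nonempty := by
    obtain ⟨a, ha⟩ := hA
    obtain ⟨t, ht, -⟩ := h a ha
    exact ⟨t, ht⟩
  have hT0 : (0 : ℝ) < (T.card : ℝ) := by exact_mod_cast hTne.card_pos
  by_contra hc
  push Not at hc
  have h1 : A ⊆ T.biUnion (fun t => A.filter (p t)) := by
    intro a ha
    obtain ⟨t, ht, hp⟩ := h a ha
    exact mem_biUnion.2 ⟨t, ht, mem_filter.2 ⟨ha, hp⟩⟩
  have h2 : A.card ≤ ∑ t ∈ T, (A.filter (p t)).card := (card_le_card h1).trans card_biUnion_le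
  have h3 : (A.card : ℝ) ≤ ∑ t ∈ T, ((A.filter (p t)).card : ℝ) := by exact_mod_cast h2
  have h4 : L * ∑ t ∈ T, ((A.filter (p t)).card : ℝ) < T.card * (A.card : ℝ) := by
    rw [Finset.mul_sum]
    calc ∑ t ∈ T, L * ((A.filter (p t)).card : ℝ) < ∑ _t ∈ T, (A.card : ℝ) :=
          Finset.sum_lt_sum_of_nonempty hTne hc
      _ = T.card * (A.card : ℝ) := by rw [sum_const, nsmul_eq_mul]
  have h5 : L * (A.card : ℝ) ≤ L * ∑ t ∈ T, ((A.filter (p t)).card : ℝ) :=
    mul_le_mul_of_nonneg_left h3 (hT0.le.trans hT)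
  have h6 : (T.card : ℝ) * A.card ≤ L * A.card := mul_le_mul_of_nonneg_right hT hA0.le
  linarith

end P4L

theorem s4 : S4 := by
  intro D Y K hY hK hE
  classical
  obtain ⟨B', hBY, hBne, h1, h2⟩ :=
    Pool.Agent.H217R3.AK.bsg Y hY K (by linarith) hE
  have h3 := P4L.dbl hBne h2
  obtain ⟨S₀, T, hS, hT, hcov⟩ := W860.PC.marton_Zm hBne h3
  obtain ⟨t₀, -, ht⟩ := P4L.popular
    (p := fun t a => a - t ∈ AddSubgroup.closure (S₀ : Set (Fin D → ℤ))) hBne hT hcov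
  have hB0 : (0 : ℝ) < (B'.card : ℝ) := by exact_mod_cast hBne.card_pos
  refine ⟨B'.filter (fun a => a - t₀ ∈ AddSubgroup.closure (S₀ : Set (Fin D → ℤ))), S₀, t₀,
    (filter_subset _ _).trans hBY, ?_, ?_, hS, fun y hy => (mem_filter.1 hy).2⟩
  · rw [Finset.nonempty_iff_ne_empty]
    intro he
    rw [he, card_empty, Nat.cast_zero, mul_zero] at ht
    linarith
  · calc (Y.card : ℝ) ≤ 8 * K * B'.card := h1
      _ ≤ 8 * K * (((2 ^ 22 * K ^ 10) ^ 2) ^ 185 *
          (B'.filter (fun a => a - t₀ ∈ AddSubgroup.closure (S₀ : Set (Fin D → ℤ)))).card) :=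
        mul_le_mul_of_nonneg_left ht (by linarith)
      _ = _ := by rw [← mul_assoc]

end Pool.Agent.H98.Gap
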