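import Pool.Agent.H98.Gap.Stmt

/-! S5: rational points are dense in the solutions of a system of congruences. -/

set_option autoImplicit false

namespace Pool.Agent.H98.Gap

open Finset

namespace P5L

/-- simultaneous approximation modulo `g` -/
lemma dir (D g N : ℕ) (hg : 1 ≤ g) (hN : 0 < N) (w : Fin D → ℝ) :
    ∃ q : ℕ, 1 ≤ q ∧ q ≤ N ^ D ∧ ∃ z : Fin D → ℤ, ∀ i, |(q : ℝ) * w i - g * z i| < g / N := by
  have hg0 : (0 : ℝ) < g := by exact_mod_cast hg
  have hN0 : (0 : ℝ) < N := by exact_mod_cast hN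
  have hlt : ∀ x : ℝ, ⌊(N : ℝ) * Int.fract x⌋₊ < N := by
    intro x
    rw [Nat.floor_lt (mul_nonneg hN0.le (Int.fract_nonneg x))]
    have := Int.fract_lt_one x
    nlinarith
  have hcard : Fintype.card (Fin D → Fin N) < Fintype.card (Fin (N ^ D + 1)) := by
    simp
  obtain ⟨a, b, hab, hf⟩ := Fintype.exists_ne_map_eq_of_card_lt
    (fun (j : Fin (N ^ D + 1)) (i : Fin D) =>
      (⟨⌊(N : ℝ) * Int.fract (((j : ℕ) : ℝ) * w i / g)⌋₊, hlt _⟩ : Fin N)) hcard
  -- the key estimate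
  have key : ∀ a b : Fin (N ^ D + 1), a < b → (∀ i,
      ⌊(N : ℝ) * Int.fract (((a : ℕ) : ℝ) * w i / g)⌋₊ =
        ⌊(N : ℝ) * Int.fract (((b : ℕ) : ℝ) * w i / g)⌋₊) →
      ∃ q : ℕ, 1 ≤ q ∧ q ≤ N ^ D ∧ ∃ z : Fin D → ℤ, ∀ i, |(q : ℝ) * w i - g * z i| < g / N := by
    intro a b hab hf
    have hab' : (a : ℕ) < b := hab
    refine ⟨b - a, by omega, by omega,
      fun i => ⌊((b : ℕ) : ℝ) * w i / g⌋ - ⌊((a : ℕ) : ℝ) * w i / g⌋, fun i => ?_⟩
    have h1 := hf i
    set x := ((a : ℕ) : ℝ) * w i / g with hx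
    set y := ((b : ℕ) : ℝ) * w i / g with hy
    have hx1 : ((a : ℕ) : ℝ) * w i = g * x := by rw [hx]; field_simp
    have hy1 : ((b : ℕ) : ℝ) * w i = g * y := by rw [hy]; field_simp
    have e1 : (((b : ℕ) - (a : ℕ) : ℕ) : ℝ) = ((b : ℕ) : ℝ) - ((a : ℕ) : ℝ) :=
      Nat.cast_sub hab'.le
    have e2 : (((b : ℕ) - (a : ℕ) : ℕ) : ℝ) * w i - g * ((⌊y⌋ - ⌊x⌋ : ℤ) : ℝ) =
        g * (Int.fract y - Int.fract x) := by
      rw [e1, sub_mul, hx1, hy1, Int.cast_sub]
      unfold Int.fract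
      ring
    rw [e2, abs_mul, abs_of_pos hg0]
    have hfx := mul_nonneg hN0.le (Int.fract_nonneg x)
    have hfy := mul_nonneg hN0.le (Int.fract_nonneg y)
    have b1 := Nat.floor_le hfx
    have b2 := Nat.lt_floor_add_one ((N : ℝ) * Int.fract x)
    have b3 := Nat.floor_le hfy
    have b4 := Nat.lt_floor_add_one ((N : ℝ) * Int.fract y)
    rw [← h1] at b3 b4
    have b5 : |(N : ℝ) * (Int.fract y - Int.fract x)| < 1 := by
      rw [abs_lt]; constructor <;> nlinarith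
    rw [abs_mul, abs_of_pos hN0] at b5
    rw [lt_div_iff₀ hN0]
    nlinarith
  have hf' : ∀ i, ⌊(N : ℝ) * Int.fract (((a : ℕ) : ℝ) * w i / g)⌋₊ =
      ⌊(N : ℝ) * Int.fract (((b : ℕ) : ℝ) * w i / g)⌋₊ := by
    intro i
    exact congrArg Fin.val (congrFun hf i)
  rcases lt_or_gt_of_ne hab with h | h
  · exact key a b h hf'
  · exact key b a h fun i => (hf' i).symm

end P5L

theorem s5 : S5 := by
  intro D g R N M hg hgN hDR hM hM0 𝒴 h𝒴 w hw
  have hN : 0 < N := lt_of_lt_of_le hg hgN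
  have hg0 : (0 : ℝ) < g := by exact_mod_cast hg
  have hN0 : (0 : ℝ) < N := by exact_mod_cast hN
  obtain ⟨q, hq1, hqN, z, hz⟩ := P5L.dir D g N hg hN w
  have hqM : q ∣ M := (Nat.dvd_factorial hq1 hqN).trans hM
  obtain ⟨c, hc⟩ := hqM
  have hq0 : (0 : ℝ) < q := by exact_mod_cast hq1
  have hMc : (M : ℝ) = q * c := by exact_mod_cast hc
  refine ⟨fun i => (c : ℤ) * (g * z i), ?_, ?_⟩
  · intro Y hY
    obtain ⟨k, hk⟩ := hw Y hY
    -- the integer `q k - ∑ Y i z i` is zero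
    have h1 : ∑ i, (Y i : ℝ) * ((q : ℝ) * w i - g * z i) =
        g * ((q * k - ∑ i, Y i * z i : ℤ) : ℝ) := by
      have e1 : ∑ i, (Y i : ℝ) * ((q : ℝ) * w i - g * z i) =
          q * ∑ i, (Y i : ℝ) * w i - g * ∑ i, (Y i : ℝ) * z i := by
        rw [mul_sum, mul_sum, ← sum_sub_distrib]
        refine sum_congr rfl fun i _ => by ring
      rw [e1, hk]
      push_cast
      ring
    have h2 : |∑ i, (Y i : ℝ) * ((q : ℝ) * w i - g * z i)| ≤ D * (R * (g / N)) := by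
      refine (abs_sum_le_sum_abs _ _).trans ?_
      have h3 : ∀ i ∈ (Finset.univ : Finset (Fin D)),
          |(Y i : ℝ) * ((q : ℝ) * w i - g * z i)| ≤ R * (g / N) := by
        intro i _
        rw [abs_mul]
        have h4 : |(Y i : ℝ)| ≤ R := by exact_mod_cast h𝒴 Y hY i
        exact mul_le_mul h4 (hz i).le (abs_nonneg _) (Nat.cast_nonneg _)
      have h5 := Finset.sum_le_card_nsmul _ _ _ h3
      rwa [Finset.card_univ, Fintype.card_fin, nsmul_eq_mul] at h5
    have h6 : (D : ℝ) * (R * (g / N)) < g := by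
      have h7 : (D : ℝ) * R < N := by exact_mod_cast hDR
      have h8 : (D : ℝ) * (R * (g / N)) = (D * R) * (g / N) := by ring
      rw [h8]
      calc ((D : ℝ) * R) * (g / N) < N * (g / N) :=
            mul_lt_mul_of_pos_right h7 (div_pos hg0 hN0)
        _ = g := by field_simp
    rw [h1, abs_mul, abs_of_pos hg0] at h2
    have h9 : |((q * k - ∑ i, Y i * z i : ℤ) : ℝ)| < 1 := by
      have h10 := h2.trans_lt h6
      by_contra hcon
      push Not at hcon
      nlinarith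
    have h11 : |(q * k - ∑ i, Y i * z i : ℤ)| < 1 := by exact_mod_cast h9
    have h12 : (q : ℤ) * k - ∑ i, Y i * z i = 0 := Int.abs_lt_one_iff.1 h11
    have h13 : ∑ i, Y i * ((c : ℤ) * (g * z i)) = ((g * M : ℕ) : ℤ) * k := by
      have e2 : ∑ i, Y i * ((c : ℤ) * (g * z i)) = c * g * ∑ i, Y i * z i := by
        rw [mul_sum]
        refine sum_congr rfl fun i _ => by ring
      rw [e2, hc]
      push_cast
      have h14 : ∑ i, Y i * z i = (q : ℤ) * k := by linarith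
      rw [h14]
      ring
    exact ⟨k, h13⟩
  · intro i
    have e3 : (M : ℝ) * w i - ((c : ℤ) * (g * z i) : ℤ) = c * ((q : ℝ) * w i - g * z i) := by
      rw [hMc]
      push_cast
      ring
    rw [e3, abs_mul, abs_of_nonneg (Nat.cast_nonneg c)]
    have h15 : (g : ℝ) / N ≤ 1 := by
      rw [div_le_one hN0]
      exact_mod_cast hgN
    have h16 : (c : ℝ) ≤ M := by
      rw [hMc]
      have : (1 : ℝ) ≤ q := by exact_mod_cast hq1
      have hc0 : (0 : ℝ) ≤ c := Nat.cast_nonneg c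
      nlinarith
    calc (c : ℝ) * |(q : ℝ) * w i - g * z i| ≤ c * 1 :=
          mul_le_mul_of_nonneg_left ((hz i).le.trans h15) (Nat.cast_nonneg c)
      _ ≤ M := by rw [mul_one]; exact h16

end Pool.Agent.H98.Gap
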