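import Pool.Agent.H98.Gap.Stmt

/-!
# Convex coset progressions from systems of relations (task S6, helper34)
-/

set_option autoImplicit false

namespace Pool.Agent.H98.Gap

open Finset Pool.Agent.Y806.DF Pool.Agent.H608VF
open scoped Pointwise

universe u

namespace P6L

/-- the integer combinations of some vectors, and the same for real combinations -/
theorem comb_re {k m : ℕ} (v : Fin k → Fin m → ℤ) (c : Fin k → ℤ) :
    Fintype.linearCombination ℝ (fun i => re (v i)) (re c) = re (∑ i, c i • v i) := by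
  funext j
  rw [Fintype.linearCombination_apply, Finset.sum_apply]
  show ∑ i, (c i : ℝ) * (v i j : ℝ) = (((∑ i, c i • v i) j : ℤ) : ℝ)
  rw [Finset.sum_apply]
  simp only [Pi.smul_apply, smul_eq_mul]
  push_cast
  rfl

theorem sym_preimage {k m : ℕ} {B : Set (Fin m → ℝ)} (hB : Sym B)
    (Φ : (Fin k → ℝ) →ₗ[ℝ] (Fin m → ℝ)) (hΦ : Function.Injective Φ) : Sym (Φ ⁻¹' B) where
  conv := hB.conv.linear_preimage Φ
  comp := (LinearMap.isClosedEmbedding_of_injective (LinearMap.ker_eq_bot.2 hΦ)).isCompact_preimage hB.comp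
  symm := by
    intro x hx
    show Φ (-x) ∈ B
    rw [map_neg]
    exact hB.symm _ hx
  ne := ⟨0, by
    show Φ 0 ∈ B
    rw [map_zero]
    exact hB.zero⟩

end P6L

theorem s6 : S6.{u} := by
  classical
  intro Γ _ m G B hB hfin
  set L : Submodule ℤ (Fin m → ℤ) :=
    AddSubgroup.toIntSubmodule (G.map (AddMonoidHom.fst (Fin m → ℤ) Γ)) with hL
  have hmemL : ∀ c : Fin m → ℤ, c ∈ L ↔ ∃ y : Γ, (c, y) ∈ G := by
    intro c
    constructor
    · rintro ⟨⟨c', y⟩, hc', hcc⟩
      have h1 : c' = c := hcc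
      subst h1
      exact ⟨y, hc'⟩
    · rintro ⟨y, hy⟩
      exact ⟨(c, y), hy, rfl⟩
  obtain ⟨k, b⟩ := Submodule.basisOfPid (Pi.basisFun ℤ (Fin m)) L
  have hb : ∀ i, ∃ y : Γ, ((b i : Fin m → ℤ), y) ∈ G := fun i => (hmemL _).1 (b i).2
  choose y hy using hb
  let v : Fin k → (Fin m → ℤ) := fun i => (b i : Fin m → ℤ)
  have hvZ : LinearIndependent ℤ v := b.linearIndependent.map' L.subtype (Submodule.ker_subtype L)
  have hvR : LinearIndependent ℝ (fun i => (algebraMap ℤ ℝ) ∘ v i) :=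
    linearIndependent_algebraMap_comp_iff.2 hvZ
  have hvR' : LinearIndependent ℝ (fun i => re (v i)) := hvR
  let Φ : (Fin k → ℝ) →ₗ[ℝ] (Fin m → ℝ) := Fintype.linearCombination ℝ (fun i => re (v i))
  have hΦ : Function.Injective Φ := by
    exact hvR'.fintypeLinearCombination_injective
  let ψ : (Fin k → ℤ) →+ Γ := (Fintype.linearCombination ℤ y).toAddMonoidHom
  have hψ : ∀ c : Fin k → ℤ, ψ c = ∑ i, c i • y i := fun c => rfl
  have hG : ∀ c : Fin k → ℤ, ((∑ i, c i • v i : Fin m → ℤ), ψ c) ∈ G := by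
    intro c
    have h1 : ((∑ i, c i • v i : Fin m → ℤ), ψ c) = ∑ i, c i • ((v i, y i) : (Fin m → ℤ) × Γ) := by
      rw [hψ]
      refine Prod.ext ?_ ?_
      · rw [Prod.fst_sum]
        rfl
      · rw [Prod.snd_sum]
        rfl
    rw [h1]
    exact AddSubgroup.sum_mem _ fun i _ => AddSubgroup.zsmul_mem _ (hy i) _
  have hspan : ∀ c ∈ L, ∃ w : Fin k → ℤ, ∑ i, w i • v i = c := by
    intro c hc
    refine ⟨fun i => b.repr ⟨c, hc⟩ i, ?_⟩
    have h1 := congrArg (fun z : L => (z : Fin m → ℤ)) (b.sum_repr ⟨c, hc⟩)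
    simp only [AddSubmonoidClass.coe_finsetSum, Submodule.coe_smul] at h1
    exact h1
  let H : AddSubgroup Γ := G.comap (AddMonoidHom.inr (Fin m → ℤ) Γ)
  have hH : ∀ z : Γ, z ∈ H ↔ ((0 : Fin m → ℤ), z) ∈ G := fun z => Iff.rfl
  refine ⟨k, Φ ⁻¹' B, ψ, H, ?_, P6L.sym_preimage hB Φ hΦ, ?_, ?_⟩
  · have h1 := hvR'.fintype_card_le_finrank
    simpa using h1
  · exact hfin
  · intro z
    constructor
    · rintro ⟨c, hc, hcz⟩
      obtain ⟨w, hw⟩ := hspan c ((hmemL c).2 ⟨z, hcz⟩)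
      refine ⟨w, ?_, z - ψ w, ?_, by abel⟩
      · show Φ (re w) ∈ B
        rw [P6L.comb_re, hw]
        exact hc
      · rw [hH]
        have h1 := G.sub_mem hcz (hG w)
        rw [hw] at h1
        have h2 : ((c, z) : (Fin m → ℤ) × Γ) - (c, ψ w) = (0, z - ψ w) := by
          refine Prod.ext ?_ ?_
          · exact sub_self c
          · rfl
        rw [h2] at h1
        exact h1
    · rintro ⟨w, hw, h, hh, rfl⟩
      refine ⟨∑ i, w i • v i, ?_, ?_⟩
      · show re (∑ i, w i • v i) ∈ B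
        rw [← P6L.comb_re]
        exact hw
      · have h1 := G.add_mem (hG w) ((hH h).1 hh)
        have h2 : ((∑ i, w i • v i : Fin m → ℤ), ψ w) + ((0 : Fin m → ℤ), h) =
            ((∑ i, w i • v i : Fin m → ℤ), ψ w + h) := by
          refine Prod.ext ?_ ?_
          · exact add_zero _
          · rfl
        rw [h2] at h1
        exact h1

end Pool.Agent.H98.Gap
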