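import Pool.Agent.H98.Gap.Stmt

/-!
# Sizes and sums of blow-ups
-/

set_option autoImplicit false

namespace Pool.Agent.H98.Gap

namespace P7L

open Finset
open scoped Pointwise

/-- the high part of a residue -/
def hi {D g M : ℕ} (u : Fin D → ZMod (g * M)) : Fin D → ℤ :=
  fun i => ((u i).val : ℤ) / (M : ℤ)

/-- the low part of a residue -/
def lo {D g M : ℕ} (u : Fin D → ZMod (g * M)) : Fin D → ℤ :=
  fun i => ((u i).val : ℤ) % (M : ℤ)

theorem pos_M {g M : ℕ} (h : NeZero (g * M)) : 0 < M := by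
  rcases Nat.eq_zero_or_pos M with h0 | h0
  · exact absurd (by rw [h0, Nat.mul_zero]) h.out
  · exact h0

theorem hi_lo {D g M : ℕ} [h : NeZero (g * M)] (u : Fin D → ZMod (g * M)) (i : Fin D) :
    u i = ((M * hi u i + lo u i : ℤ) : ZMod (g * M)) := by
  have h1 : (M : ℤ) * hi u i + lo u i = ((u i).val : ℤ) := Int.mul_ediv_add_emod _ _
  rw [h1, Int.cast_natCast, ZMod.natCast_val, ZMod.cast_id]

theorem lo_bd {D g M : ℕ} [h : NeZero (g * M)] (u : Fin D → ZMod (g * M)) (i : Fin D) :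
    0 ≤ lo u i ∧ lo u i < M := by
  have hM : (0 : ℤ) < (M : ℤ) := by exact_mod_cast pos_M h
  exact ⟨Int.emod_nonneg _ hM.ne', Int.emod_lt_of_pos _ hM⟩

/-- the high part is determined modulo `g` -/
theorem hi_eq {D g M : ℕ} [h : NeZero (g * M)] (u : Fin D → ZMod (g * M)) (z q : Fin D → ℤ)
    (hq : ∀ i, 0 ≤ q i ∧ q i < M) (hu : ∀ i, u i = ((M * z i + q i : ℤ) : ZMod (g * M))) :
    ∃ t : Fin D → ℤ, z = hi u + g • t := by
  have hM : (0 : ℤ) < (M : ℤ) := by exact_mod_cast pos_M h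
  have h1 : ∀ i, ∃ t : ℤ, z i = hi u i + (g : ℤ) * t := by
    intro i
    have h2 : ((M * z i + q i : ℤ) : ZMod (g * M)) = ((M * hi u i + lo u i : ℤ) : ZMod (g * M)) := by
      rw [← hu i, ← hi_lo u i]
    have h3 := (ZMod.intCast_eq_intCast_iff_dvd_sub _ _ _).1 h2
    obtain ⟨c, hc⟩ := h3
    have h4 := lo_bd u i
    have h5 := hq i
    have h6 : (M : ℤ) * (hi u i - z i - g * c) = q i - lo u i := by
      push_cast at hc
      linear_combination hc
    have h7 : hi u i - z i - g * c = 0 := by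
      by_contra hne
      rcases lt_or_gt_of_ne hne with hlt | hgt
      · have h8 : hi u i - z i - g * c ≤ -1 := by omega
        nlinarith [h4.1, h4.2, h5.1, h5.2]
      · have h8 : 1 ≤ hi u i - z i - g * c := by omega
        nlinarith [h4.1, h4.2, h5.1, h5.2]
    exact ⟨-c, by linear_combination -h7⟩
  choose t ht using h1
  refine ⟨t, ?_⟩
  funext i
  simp only [Pi.add_apply, nsmul_eq_mul]
  exact ht i

section

variable {D : ℕ} {Q : Type} [AddCommGroup Q] (ψ : (Fin D → ℤ) →+ Q) (g M : ℕ) [h : NeZero (g * M)]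

theorem psi_hi (hψ : ∀ z, ψ (g • z) = 0) (u : Fin D → ZMod (g * M)) (z q : Fin D → ℤ)
    (hq : ∀ i, 0 ≤ q i ∧ q i < M) (hu : ∀ i, u i = ((M * z i + q i : ℤ) : ZMod (g * M))) :
    ψ (hi u) = ψ z := by
  obtain ⟨t, ht⟩ := hi_eq u z q hq hu
  rw [ht, map_add, hψ, add_zero]

theorem inBlow_iff (hψ : ∀ z, ψ (g • z) = 0) (P : Set Q) (u : Fin D → ZMod (g * M)) :
    inBlow ψ g M P u ↔ ψ (hi u) ∈ P := by
  constructor
  · rintro ⟨z, q, hq, hz, hu⟩
    rw [psi_hi ψ g M hψ u z q hq hu]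
    exact hz
  · intro hP
    exact ⟨hi u, lo u, fun i => lo_bd u i, hP, fun i => hi_lo u i⟩

theorem mem_blow (P : Set Q) (u : Fin D → ZMod (g * M)) :
    u ∈ blow ψ g M P ↔ inBlow ψ g M P u := by
  classical
  unfold blow
  rw [Finset.mem_filter]
  exact ⟨fun h1 => h1.2, fun h1 => ⟨Finset.mem_univ _, h1⟩⟩

theorem hi_shift (hψ : ∀ z, ψ (g • z) = 0) (u : Fin D → ZMod (g * M)) (z₀ : Fin D → ℤ) :
    ψ (hi (fun i => u i + ((M * z₀ i : ℤ) : ZMod (g * M)))) = ψ (hi u) + ψ z₀ := by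
  rw [← map_add]
  refine psi_hi ψ g M hψ _ (hi u + z₀) (lo u) (fun i => lo_bd u i) (fun i => ?_)
  have h1 := hi_lo u i
  have h2 : ((M * (hi u + z₀) i + lo u i : ℤ) : ZMod (g * M)) =
      ((M * hi u i + lo u i : ℤ) : ZMod (g * M)) + ((M * z₀ i : ℤ) : ZMod (g * M)) := by
    rw [Pi.add_apply]
    push_cast
    ring
  rw [h2, ← h1]

open Classical in
theorem fib_card (hψ : ∀ z, ψ (g • z) = 0) (x : Q) (hx : x ∈ Set.range ψ) :
    (Finset.univ.filter (fun u : Fin D → ZMod (g * M) => ψ (hi u) = x)).card =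
      (Finset.univ.filter (fun u : Fin D → ZMod (g * M) => ψ (hi u) = 0)).card := by
  obtain ⟨z₀, rfl⟩ := hx
  symm
  refine Finset.card_bij' (fun u _ => fun i => u i + ((M * z₀ i : ℤ) : ZMod (g * M)))
    (fun u _ => fun i => u i + ((M * (-z₀) i : ℤ) : ZMod (g * M))) ?_ ?_ ?_ ?_
  · intro u hu
    rw [Finset.mem_filter] at hu ⊢
    refine ⟨Finset.mem_univ _, ?_⟩
    rw [hi_shift ψ g M hψ, hu.2, zero_add]
  · intro u hu
    rw [Finset.mem_filter] at hu ⊢
    refine ⟨Finset.mem_univ _, ?_⟩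
    rw [hi_shift ψ g M hψ, hu.2, map_neg, add_neg_cancel]
  · intro u _
    funext i
    simp only [Pi.neg_apply]
    push_cast
    ring
  · intro u _
    funext i
    simp only [Pi.neg_apply]
    push_cast
    ring

theorem card_blow [Finite Q] (hψ : ∀ z, ψ (g • z) = 0) :
    ∃ κ : ℕ, 0 < κ ∧ ∀ P : Set Q, P ⊆ Set.range ψ → (blow ψ g M P).card = κ * P.ncard := by
  classical
  have : Fintype Q := Fintype.ofFinite Q
  refine ⟨(Finset.univ.filter (fun u : Fin D → ZMod (g * M) => ψ (hi u) = 0)).card, ?_, ?_⟩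
  · rw [Finset.card_pos]
    refine ⟨0, ?_⟩
    rw [Finset.mem_filter]
    refine ⟨Finset.mem_univ _, ?_⟩
    have h1 : hi (0 : Fin D → ZMod (g * M)) = 0 := by
      funext i
      simp only [hi, Pi.zero_apply, ZMod.val_zero, Nat.cast_zero, Int.zero_ediv]
    rw [h1, map_zero]
  · intro P hP
    have h1 : (P.toFinset).card = P.ncard := (Set.ncard_eq_toFinset_card' P).symm
    have h2 : ∀ u ∈ blow ψ g M P, ψ (hi u) ∈ P.toFinset := by
      intro u hu
      rw [Set.mem_toFinset]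
      exact (inBlow_iff ψ g M hψ P u).1 ((mem_blow ψ g M P u).1 hu)
    rw [Finset.card_eq_sum_card_fiberwise h2]
    have h3 : ∀ x ∈ P.toFinset, ((blow ψ g M P).filter (fun u => ψ (hi u) = x)).card =
        (Finset.univ.filter (fun u : Fin D → ZMod (g * M) => ψ (hi u) = 0)).card := by
      intro x hx
      rw [← fib_card ψ g M hψ x (hP (Set.mem_toFinset.1 hx))]
      congr 1
      ext u
      rw [Finset.mem_filter, Finset.mem_filter]
      constructor
      · rintro ⟨_, h4⟩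
        exact ⟨Finset.mem_univ _, h4⟩
      · rintro ⟨_, h4⟩
        refine ⟨?_, h4⟩
        rw [mem_blow, inBlow_iff ψ g M hψ, h4]
        exact Set.mem_toFinset.1 hx
    rw [Finset.sum_congr rfl h3, Finset.sum_const, smul_eq_mul, mul_comm, h1]

theorem add_blow (P₁ P₂ : Set Q) :
    blow ψ g M P₁ + blow ψ g M P₂ ⊆ blow ψ g M (P₁ + P₂ + cube ψ) := by
  intro w hw
  rw [Finset.mem_add] at hw
  obtain ⟨u, hu, v, hv, rfl⟩ := hw
  rw [mem_blow] at hu hv ⊢
  obtain ⟨z, q, hq, hz, hu⟩ := hu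
  obtain ⟨z', q', hq', hz', hv⟩ := hv
  refine ⟨z + z' + (fun i => if q i + q' i < M then 0 else 1),
    fun i => if q i + q' i < M then q i + q' i else q i + q' i - M, ?_, ?_, ?_⟩
  · intro i
    have h1 := hq i
    have h2 := hq' i
    dsimp only
    split_ifs with h3
    · exact ⟨by omega, h3⟩
    · exact ⟨by omega, by omega⟩
  · rw [map_add, map_add]
    refine Set.add_mem_add (Set.add_mem_add hz hz') ⟨_, ?_, rfl⟩
    intro i
    split_ifs with h3
    · exact Or.inl rfl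
    · exact Or.inr rfl
  · intro i
    rw [Pi.add_apply, hu i, hv i]
    simp only [Pi.add_apply]
    split_ifs with h3
    · push_cast
      ring
    · push_cast
      ring

theorem sub_blow (P₁ P₂ : Set Q) :
    blow ψ g M P₁ - blow ψ g M P₂ ⊆ blow ψ g M (P₁ - P₂ - cube ψ) := by
  intro w hw
  rw [Finset.mem_sub] at hw
  obtain ⟨u, hu, v, hv, rfl⟩ := hw
  rw [mem_blow] at hu hv ⊢
  obtain ⟨z, q, hq, hz, hu⟩ := hu
  obtain ⟨z', q', hq', hz', hv⟩ := hv
  refine ⟨z - z' - (fun i => if q' i ≤ q i then 0 else 1),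
    fun i => if q' i ≤ q i then q i - q' i else q i - q' i + M, ?_, ?_, ?_⟩
  · intro i
    have h1 := hq i
    have h2 := hq' i
    dsimp only
    split_ifs with h3
    · exact ⟨by omega, by omega⟩
    · exact ⟨by omega, by omega⟩
  · rw [map_sub, map_sub]
    refine Set.sub_mem_sub (Set.sub_mem_sub hz hz') ⟨_, ?_, rfl⟩
    intro i
    split_ifs with h3
    · exact Or.inl rfl
    · exact Or.inr rfl
  · intro i
    rw [Pi.sub_apply, hu i, hv i]
    simp only [Pi.sub_apply]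
    split_ifs with h3
    · push_cast
      ring
    · push_cast
      ring

end

theorem sum_mem_nsmul {G : Type*} [AddCommGroup G] [DecidableEq G] (A : Finset G) :
    ∀ (n : ℕ) (f : Fin n → G), (∀ j, f j ∈ A) → ∑ j, f j ∈ n • A := by
  intro n
  induction n with
  | zero =>
    intro f _
    rw [Fin.sum_univ_zero, zero_nsmul]
    exact Finset.zero_mem_zero
  | succ n ih =>
    intro f hf
    rw [Fin.sum_univ_castSucc, succ_nsmul]
    exact Finset.add_mem_add (ih _ (fun j => hf _)) (hf _)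

section

variable {D : ℕ} {Q : Type} [AddCommGroup Q] (ψ : (Fin D → ℤ) →+ Q) (g M : ℕ) [h : NeZero (g * M)]

theorem iter_blow (k : ℕ) (P E : Set Q)
    (hE : ∀ x ∈ E, ∃ p : Fin (k + 1) → Fin D → ℤ, (∀ j, ψ (p j) ∈ P) ∧ x = ψ (∑ j, p j)) :
    blow ψ g M E ⊆ (k + 1) • blow ψ g M P := by
  intro u hu
  rw [mem_blow] at hu
  obtain ⟨z, q, hq, hz, hu⟩ := hu
  obtain ⟨p, hp, hzp⟩ := hE _ hz
  have hM : (0 : ℤ) < (M : ℤ) := by exact_mod_cast pos_M h
  -- the vectors
  have key : u = ∑ j : Fin (k + 1), (fun i => ((M * ((if j = Fin.last k then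
      p j + (z - ∑ j, p j) else p j) i) + (if j = Fin.last k then q i else 0) : ℤ) :
        ZMod (g * M))) := by
    rw [Fin.sum_univ_castSucc]
    funext i
    rw [Pi.add_apply, Finset.sum_apply, hu i]
    simp only [if_true]
    have h1 : ∀ j : Fin k, ¬ (Fin.castSucc j = Fin.last k) := fun j => (Fin.castSucc_lt_last j).ne
    have h2 : ∑ j : Fin k, (((M : ℤ) * ((if Fin.castSucc j = Fin.last k then
      p (Fin.castSucc j) + (z - ∑ j, p j) else p (Fin.castSucc j)) i) +
        (if Fin.castSucc j = Fin.last k then q i else 0) : ℤ) : ZMod (g * M)) =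
        ((∑ j : Fin k, (M : ℤ) * p (Fin.castSucc j) i : ℤ) : ZMod (g * M)) := by
      rw [Int.cast_sum]
      refine Finset.sum_congr rfl (fun j _ => ?_)
      rw [if_neg (h1 j), if_neg (h1 j), add_zero]
    rw [h2, ← Int.cast_add]
    congr 1
    have h3 : (∑ j, p j) i = ∑ j : Fin k, p (Fin.castSucc j) i + p (Fin.last k) i := by
      rw [Fin.sum_univ_castSucc, Pi.add_apply, Finset.sum_apply]
    rw [Pi.add_apply, Pi.sub_apply, h3, ← Finset.mul_sum]
    ring
  rw [key]
  refine sum_mem_nsmul _ _ _ (fun j => ?_)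
  rw [mem_blow]
  refine ⟨if j = Fin.last k then p j + (z - ∑ j, p j) else p j,
    fun i => if j = Fin.last k then q i else 0, ?_, ?_, ?_⟩
  · intro i
    dsimp only
    split_ifs with h1
    · exact hq i
    · exact ⟨le_refl _, hM⟩
  · split_ifs with h1
    · rw [map_add, map_sub, ← hzp, sub_self, add_zero]
      exact hp j
    · exact hp j
  · intro i
    rfl

end

end P7L

theorem s7 : S7 := by
  intro D Q _ _ ψ g M _ hψ
  exact ⟨P7L.card_blow ψ g M hψ, fun P₁ P₂ => P7L.add_blow ψ g M P₁ P₂,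
    fun P₁ P₂ => P7L.sub_blow ψ g M P₁ P₂, fun k P E hE => P7L.iter_blow ψ g M k P E hE⟩

end Pool.Agent.H98.Gap
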