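import Pool.Agent.H98.Gap.Stmt

/-!
# Frequencies in the spectrum of a blow-up (S8; written by helper97)
-/

set_option autoImplicit false

namespace Pool.Agent.H98.Gap

open Finset Pool.Agent.Y806.DF Pool.Agent.H608VF
open scoped Pointwise

namespace P8L

lemma ch_add {D n : ℕ} [NeZero n] (Y u v : Fin D → ZMod n) :
    ch Y (u + v) = ch Y u * ch Y v := by
  unfold ch
  rw [← AddChar.map_add_eq_mul]
  congr 1
  rw [← Finset.sum_add_distrib]
  exact Finset.sum_congr rfl fun i _ => by rw [Pi.add_apply, mul_add]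

lemma ch_single {D n : ℕ} [NeZero n] (Y : Fin D → ZMod n) (i : Fin D) (q : ℕ) :
    ch Y (Pi.single i (q : ZMod n)) = (ZMod.stdAddChar (Y i) : ℂ) ^ q := by
  unfold ch
  rw [Finset.sum_eq_single i]
  · rw [Pi.single_eq_same, mul_comm, ← nsmul_eq_mul, AddChar.map_nsmul_eq_pow]
  · intro j _ hj
    rw [Pi.single_eq_of_ne hj, mul_zero]
  · intro h
    exact absurd (mem_univ i) h

lemma norm_ch {D n : ℕ} [NeZero n] (Y u : Fin D → ZMod n) : ‖ch Y u‖ = 1 := by
  unfold ch
  exact AddChar.norm_apply _ _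

/-- the geometric sum -/
lemma geo {n : ℕ} [NeZero n] (y : ZMod n) (M : ℕ) :
    ‖∑ q ∈ range M, (ZMod.stdAddChar y : ℂ) ^ q‖ * (2 * |(y.valMinAbs : ℝ)|) ≤ n := by
  have hn : (0 : ℝ) < n := by exact_mod_cast Nat.pos_of_ne_zero (NeZero.ne n)
  set v : ℤ := y.valMinAbs with hv
  set θ : ℝ := (v : ℝ) / n with hθ
  have hζ : (ZMod.stdAddChar y : ℂ) = Complex.exp (Complex.I * ((2 * Real.pi * θ : ℝ) : ℂ)) := by
    have h1 : y = ((v : ℤ) : ZMod n) := (ZMod.coe_valMinAbs y).symm
    rw [h1, ZMod.stdAddChar_coe]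
    congr 1
    rw [hθ]
    push_cast
    ring
  have hv2 : |(v : ℝ)| ≤ n / 2 := by
    have h1 := ZMod.natAbs_valMinAbs_le y
    have h2 : (v.natAbs : ℝ) ≤ ((n / 2 : ℕ) : ℝ) := by exact_mod_cast h1
    have h3 : ((n / 2 : ℕ) : ℝ) ≤ n / 2 := Nat.cast_div_le
    have h4 : (v.natAbs : ℝ) = |(v : ℝ)| := by
      rw [Nat.cast_natAbs]
      push_cast
      rfl
    linarith
  have hθ2 : |Real.pi * θ| ≤ Real.pi / 2 := by
    rw [abs_mul, abs_of_pos Real.pi_pos, hθ, abs_div, abs_of_pos hn]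
    have h1 : |(v : ℝ)| / n ≤ 1 / 2 := by
      rw [div_le_iff₀ hn]
      linarith
    nlinarith [Real.pi_pos]
  have hsin := Real.mul_abs_le_abs_sin hθ2
  have hnorm : ‖(ZMod.stdAddChar y : ℂ) - 1‖ = 2 * |Real.sin (Real.pi * θ)| := by
    rw [hζ, Complex.norm_exp_I_mul_ofReal_sub_one, norm_mul, Real.norm_eq_abs, Real.norm_eq_abs,
      abs_of_pos (by norm_num : (0 : ℝ) < 2)]
    congr 3
    ring
  have hlow : 4 * |θ| ≤ ‖(ZMod.stdAddChar y : ℂ) - 1‖ := by
    rw [hnorm]
    have h1 : 2 / Real.pi * |Real.pi * θ| = 2 * |θ| := by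
      rw [abs_mul, abs_of_pos Real.pi_pos]
      field_simp
    linarith
  have hgeo : ‖∑ q ∈ range M, (ZMod.stdAddChar y : ℂ) ^ q‖ * ‖(ZMod.stdAddChar y : ℂ) - 1‖ ≤ 2 := by
    rw [← norm_mul, geom_sum_mul]
    refine (norm_sub_le _ _).trans ?_
    rw [norm_pow, norm_one]
    have h1 : ‖(ZMod.stdAddChar y : ℂ)‖ = 1 := AddChar.norm_apply _ _
    rw [h1, one_pow]
    norm_num
  have h5 : ‖∑ q ∈ range M, (ZMod.stdAddChar y : ℂ) ^ q‖ * (4 * |θ|) ≤ 2 :=
    (mul_le_mul_of_nonneg_left hlow (norm_nonneg _)).trans hgeo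
  have h6 : |θ| * n = |(v : ℝ)| := by
    rw [hθ, abs_div, abs_of_pos hn, div_mul_cancel₀ _ hn.ne']
  rw [← h6]
  nlinarith

/-- the digit -/
lemma digit {g M : ℕ} [NeZero (g * M)] {a : ZMod (g * M)} {z q : ℤ} (h0 : 0 ≤ q) (h1 : q < M)
    (h : a = ((M * z + q : ℤ) : ZMod (g * M))) : ((a.val % M : ℕ) : ℤ) = q := by
  have h2 : ((a.val : ℕ) : ℤ) = (M * z + q) % ((g * M : ℕ) : ℤ) := by
    rw [h, ZMod.val_intCast]
  push_cast at h2
  rw [Int.natCast_mod, h2, Int.emod_emod_of_dvd _ (Dvd.intro_left (g : ℤ) rfl),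
    Int.mul_add_emod_self_left, Int.emod_eq_of_lt h0 h1]

section

variable {D : ℕ} {Q : Type} [AddCommGroup Q] {ψ : (Fin D → ℤ) →+ Q} {g M : ℕ}
  [NeZero (g * M)] {P : Set Q}

open Classical in
/-- the elements whose digit at `i` is `0` -/
noncomputable def base (ψ : (Fin D → ℤ) →+ Q) (g M : ℕ) [NeZero (g * M)] (P : Set Q) (i : Fin D) :
    Finset (Fin D → ZMod (g * M)) :=
  (blow ψ g M P).filter (fun u => (u i).val % M = 0)

lemma mem_blow {u : Fin D → ZMod (g * M)} : u ∈ blow ψ g M P ↔ inBlow ψ g M P u := by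
  unfold blow
  simp

/-- a vector with one coordinate -/
abbrev sg {D n : ℕ} (i : Fin D) (a : ZMod n) : Fin D → ZMod n := Pi.single i a

lemma sg_self {D n : ℕ} (i : Fin D) (a : ZMod n) : (sg i a : Fin D → ZMod n) i = a := by
  simp [sg]

lemma sg_ne {D n : ℕ} {i j : Fin D} (h : j ≠ i) (a : ZMod n) :
    (sg i a : Fin D → ZMod n) j = 0 := by
  simp [sg, h]

lemma sg_zero {D n : ℕ} (i : Fin D) : sg i (0 : ZMod n) = 0 := Pi.single_zero i

/-- a digit can be changed -/
lemma change {u : Fin D → ZMod (g * M)} (hu : inBlow ψ g M P u) (i : Fin D) {q : ℕ} (hq : q < M) :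
    inBlow ψ g M P (u - sg i (((u i).val % M : ℕ) : ZMod (g * M)) +
      sg i (q : ZMod (g * M))) := by
  obtain ⟨z, q', h1, h2, h3⟩ := hu
  refine ⟨z, Function.update q' i q, ?_, h2, ?_⟩
  · intro j
    by_cases hj : j = i
    · subst hj
      rw [Function.update_self]
      exact ⟨by positivity, by exact_mod_cast hq⟩
    · rw [Function.update_of_ne hj]
      exact h1 j
  · intro j
    by_cases hj : j = i
    · subst hj
      have h4 := digit (h1 j).1 (h1 j).2 (h3 j)
      have h5 : (((u j).val % M : ℕ) : ZMod (g * M)) = ((q' j : ℤ) : ZMod (g * M)) := by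
        rw [← h4]
        exact (Int.cast_natCast _).symm
      rw [Function.update_self, Pi.add_apply, Pi.sub_apply, sg_self, sg_self,
        h5, h3 j]
      push_cast
      ring
    · rw [Function.update_of_ne hj, Pi.add_apply, Pi.sub_apply, sg_ne hj,
        sg_ne hj, sub_zero, add_zero]
      exact h3 j

/-- the digit after a change -/
lemma digit_add {u : Fin D → ZMod (g * M)} (hu : inBlow ψ g M P u) {i : Fin D}
    (h0 : (u i).val % M = 0) {q : ℕ} (hq : q < M) :
    ((u + sg i (q : ZMod (g * M))) i).val % M = q := by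
  have h1 := change hu i hq
  rw [h0, Nat.cast_zero, sg_zero, sub_zero] at h1
  obtain ⟨z, q', h2, -, h3⟩ := hu
  have h4 := digit (h2 i).1 (h2 i).2 (h3 i)
  have h5 : (u + sg i (q : ZMod (g * M))) i =
      ((M * z i + (q : ℤ) : ℤ) : ZMod (g * M)) := by
    rw [Pi.add_apply, sg_self, h3 i, ← h4, h0]
    push_cast
    ring
  have h6 := digit (Int.natCast_nonneg q) (by exact_mod_cast hq) h5
  exact_mod_cast h6

/-- sums over the blow-up -/
lemma sum_blow (i : Fin D) (hM : 0 < M) (F : (Fin D → ZMod (g * M)) → ℂ) :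
    ∑ u ∈ blow ψ g M P, F u = ∑ b ∈ base ψ g M P i, ∑ q ∈ range M,
      F (b + sg i (q : ZMod (g * M))) := by
  rw [← Finset.sum_product']
  refine Finset.sum_nbij' (fun u => (u - sg i (((u i).val % M : ℕ) : ZMod (g * M)),
    (u i).val % M)) (fun p => p.1 + sg i (p.2 : ZMod (g * M))) ?_ ?_ ?_ ?_ ?_
  · intro u hu
    have hu' := mem_blow.1 hu
    have h1 := change hu' i hM
    rw [Nat.cast_zero, sg_zero, add_zero] at h1
    rw [mem_product, mem_range]
    refine ⟨?_, Nat.mod_lt _ hM⟩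
    unfold base
    rw [mem_filter]
    refine ⟨mem_blow.2 h1, ?_⟩
    obtain ⟨z, q', h2, -, h3⟩ := hu'
    have h4 := digit (h2 i).1 (h2 i).2 (h3 i)
    have h5 : (u - sg i (((u i).val % M : ℕ) : ZMod (g * M))) i =
        ((M * z i + 0 : ℤ) : ZMod (g * M)) := by
      rw [Pi.sub_apply, sg_self]
      have h6 : (((u i).val % M : ℕ) : ZMod (g * M)) = ((q' i : ℤ) : ZMod (g * M)) := by
        rw [← h4]
        exact (Int.cast_natCast _).symm
      rw [h6, h3 i]
      push_cast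
      ring
    have h7 := digit le_rfl (by exact_mod_cast hM) h5
    exact_mod_cast h7
  · intro p hp
    rw [mem_product, mem_range] at hp
    unfold base at hp
    rw [mem_filter] at hp
    have h1 := change (mem_blow.1 hp.1.1) i hp.2
    rw [hp.1.2, Nat.cast_zero, sg_zero, sub_zero] at h1
    exact mem_blow.2 h1
  · intro u _
    exact sub_add_cancel _ _
  · intro p hp
    rw [mem_product, mem_range] at hp
    unfold base at hp
    rw [mem_filter] at hp
    have h1 := digit_add (mem_blow.1 hp.1.1) hp.1.2 hp.2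
    refine Prod.ext ?_ ?_
    · show p.1 + sg i (p.2 : ZMod (g * M)) -
        sg i ((((p.1 + sg i (p.2 : ZMod (g * M))) i).val % M : ℕ) :
          ZMod (g * M)) = p.1
      rw [h1, add_sub_cancel_right]
    · exact h1
  · intro u _
    show F u = F (u - _ + _)
    rw [sub_add_cancel]

/-- the bound for the Fourier coefficient -/
lemma ft_le (i : Fin D) (hM : 0 < M) (Y : Fin D → ZMod (g * M)) :
    ‖ft (blow ψ g M P) Y‖ * (2 * |((Y i).valMinAbs : ℝ)|) ≤ g * (blow ψ g M P).card := by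
  have h1 : ft (blow ψ g M P) Y = (∑ b ∈ base ψ g M P i, ch Y b) *
      ∑ q ∈ range M, (ZMod.stdAddChar (Y i) : ℂ) ^ q := by
    unfold ft
    rw [sum_blow i hM, Finset.sum_mul]
    refine Finset.sum_congr rfl fun b _ => ?_
    rw [Finset.mul_sum]
    exact Finset.sum_congr rfl fun q _ => (ch_add _ _ _).trans (by rw [ch_single])
  have h2 : ((blow ψ g M P).card : ℝ) = (base ψ g M P i).card * M := by
    have h3 := sum_blow (ψ := ψ) (g := g) (P := P) i hM (fun _ => (1 : ℂ))
    rw [Finset.sum_const, nsmul_one, Finset.sum_const, Finset.sum_const, card_range, nsmul_one,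
      nsmul_eq_mul] at h3
    exact_mod_cast h3
  have h4 : ‖∑ b ∈ base ψ g M P i, ch Y b‖ ≤ (base ψ g M P i).card := by
    refine (norm_sum_le _ _).trans ?_
    rw [Finset.sum_congr rfl fun b _ => norm_ch Y b, Finset.sum_const, nsmul_one]
  have h5 := geo (Y i) M
  rw [h1, norm_mul, mul_assoc, h2]
  calc ‖∑ b ∈ base ψ g M P i, ch Y b‖ * (‖∑ q ∈ range M, (ZMod.stdAddChar (Y i) : ℂ) ^ q‖ *
      (2 * |((Y i).valMinAbs : ℝ)|)) ≤ (base ψ g M P i).card * ((g * M : ℕ) : ℝ) :=
        mul_le_mul h4 h5 (by positivity) (by positivity)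
    _ = g * ((base ψ g M P i).card * M) := by
        push_cast
        ring

/-- periods -/
lemma trans_mem {z₀ : Fin D → ℤ} (hz : ψ z₀ = 0) {u : Fin D → ZMod (g * M)}
    (hu : inBlow ψ g M P u) :
    inBlow ψ g M P (u + fun i => ((M * z₀ i : ℤ) : ZMod (g * M))) := by
  obtain ⟨z, q, h1, h2, h3⟩ := hu
  refine ⟨z + z₀, q, h1, ?_, ?_⟩
  · rw [map_add, hz, add_zero]
    exact h2
  · intro i
    rw [Pi.add_apply, h3 i, Pi.add_apply]
    push_cast
    ring

lemma ft_trans {z₀ : Fin D → ℤ} (hz : ψ z₀ = 0) (Y : Fin D → ZMod (g * M)) :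
    ft (blow ψ g M P) Y = ft (blow ψ g M P) Y *
      ch Y (fun i => ((M * z₀ i : ℤ) : ZMod (g * M))) := by
  unfold ft
  rw [Finset.sum_mul]
  refine (Finset.sum_nbij' (fun u => u + fun i => ((M * z₀ i : ℤ) : ZMod (g * M)))
    (fun u => u + fun i => ((M * (-z₀) i : ℤ) : ZMod (g * M))) ?_ ?_ ?_ ?_ ?_).symm
  · intro u hu
    exact mem_blow.2 (trans_mem hz (mem_blow.1 hu))
  · intro u hu
    exact mem_blow.2 (trans_mem (by rw [map_neg, hz, neg_zero]) (mem_blow.1 hu))
  · intro u _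
    funext i
    simp only [Pi.add_apply, Pi.neg_apply]
    push_cast
    ring
  · intro u _
    funext i
    simp only [Pi.add_apply, Pi.neg_apply]
    push_cast
    ring
  · intro u _
    exact (ch_add _ _ _).symm

end

end P8L

open P8L

/-- **Frequencies in the spectrum of a blow-up.** -/
theorem s8 : S8 := by
  intro D Q _ _ ψ g M _ hψ P hne δ hδ Y hY
  have hgM : 0 < g * M := Nat.pos_of_ne_zero (NeZero.ne _)
  have hM : 0 < M := Nat.pos_of_mul_pos_left hgM
  have hg : 0 < g := Nat.pos_of_mul_pos_right hgM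
  unfold spec at hY
  rw [mem_filter] at hY
  have hc : (0 : ℝ) < (blow ψ g M P).card := by exact_mod_cast card_pos.2 hne
  have hft : 0 < ‖ft (blow ψ g M P) Y‖ := by
    rcases (norm_nonneg (ft (blow ψ g M P) Y)).eq_or_lt with h | h
    · exfalso
      have h1 := hY.2
      rw [← h] at h1
      have : 0 < δ * ((blow ψ g M P).card : ℝ) ^ 2 := by positivity
      linarith
    · exact h
  have hs : Real.sqrt δ * (blow ψ g M P).card ≤ ‖ft (blow ψ g M P) Y‖ := by
    refine le_of_sq_le_sq ?_ hft.le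
    rw [mul_pow, Real.sq_sqrt hδ.le]
    exact hY.2
  refine ⟨?_, ?_⟩
  · intro i
    have h1 := ft_le (ψ := ψ) (P := P) i hM Y
    have h2 : (2 * Real.sqrt δ * |((Y i).valMinAbs : ℝ)|) * (blow ψ g M P).card ≤
        g * (blow ψ g M P).card := by
      calc (2 * Real.sqrt δ * |((Y i).valMinAbs : ℝ)|) * (blow ψ g M P).card =
          (Real.sqrt δ * (blow ψ g M P).card) * (2 * |((Y i).valMinAbs : ℝ)|) := by ring
        _ ≤ ‖ft (blow ψ g M P) Y‖ * (2 * |((Y i).valMinAbs : ℝ)|) :=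
            mul_le_mul_of_nonneg_right hs (by positivity)
        _ ≤ _ := h1
    exact le_of_mul_le_mul_right h2 hc
  · intro z hz
    have h1 := ft_trans (ψ := ψ) (g := g) (M := M) (P := P) hz Y
    have h2 : ch Y (fun i => ((M * z i : ℤ) : ZMod (g * M))) = 1 := by
      have h3 : ft (blow ψ g M P) Y ≠ 0 := norm_pos_iff.1 hft
      exact (mul_left_cancel₀ h3 (by rw [mul_one]; exact h1)).symm
    unfold ch at h2
    have h3 : (∑ i, Y i * ((M * z i : ℤ) : ZMod (g * M))) = 0 := by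
      refine ZMod.injective_stdAddChar ?_
      rw [h2, AddChar.map_zero_eq_one]
    have h4 : ((M * ∑ i, (Y i).valMinAbs * z i : ℤ) : ZMod (g * M)) = 0 := by
      rw [← h3]
      push_cast
      rw [Finset.mul_sum]
      refine Finset.sum_congr rfl fun i _ => ?_
      ring
    rw [ZMod.intCast_zmod_eq_zero_iff_dvd] at h4
    push_cast at h4
    rw [mul_comm (g : ℤ)] at h4
    exact Int.dvd_of_mul_dvd_mul_left (by exact_mod_cast hM.ne') h4

end Pool.Agent.H98.Gap
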