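import Pool.Agent.H98.Gap.Stmt

set_option autoImplicit false

namespace Pool.Agent.H98.Gap

open Finset Pool.Agent.Y806.DF Pool.Agent.H608VF
open scoped Pointwise

namespace P9L

/-- the coordinate of the `l`-th small vector -/
def st (e : ℤ) (l : ℕ) : ℤ := if (l : ℤ) < e then 1 else if (l : ℤ) < -e then -1 else 0

theorem st_abs (e : ℤ) (l : ℕ) : |st e l| ≤ 1 := by
  unfold st
  split_ifs <;> simp

theorem st_sum (e : ℤ) (k : ℕ) : ∑ l ∈ Finset.range k, st e l = max (-(k : ℤ)) (min (k : ℤ) e) := by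
  induction k with
  | zero =>
    rw [Finset.sum_range_zero]
    rcases le_total 0 e with h | h
    · rw [Nat.cast_zero, min_eq_left h, neg_zero, max_self]
    · rw [Nat.cast_zero, min_eq_right h, neg_zero, max_eq_left h]
  | succ k ih =>
    rw [Finset.sum_range_succ, ih]
    unfold st
    push_cast
    rcases lt_or_ge (k : ℤ) e with h | h
    · rw [if_pos h, min_eq_left h.le, min_eq_left (by omega), max_eq_right (by omega),
        max_eq_right (by omega)]
    · rw [if_neg (not_lt.2 h), min_eq_right h, min_eq_right (by omega)]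
      rcases lt_or_ge (k : ℤ) (-e) with h2 | h2
      · rw [if_pos h2, max_eq_left (by omega), max_eq_left (by omega)]
        ring
      · rw [if_neg (not_lt.2 h2), max_eq_right (by omega), max_eq_right (by omega)]
        ring

theorem st_sum' (e : ℤ) (k : ℕ) (h : |e| ≤ k) : ∑ l ∈ Finset.range k, st e l = e := by
  rw [st_sum]
  obtain ⟨h1, h2⟩ := abs_le.1 h
  rw [min_eq_right h2, max_eq_right h1]

end P9L

open P9L in
theorem s9 : S9 := by
  intro D k V hV hcube hk z hz
  obtain ⟨v, hv, hzv⟩ := hz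
  have hk0 : (0 : ℝ) < k := by exact_mod_cast hk
  obtain ⟨r, hr⟩ : ∃ r : Fin D → ℤ, r = fun i => round ((z i : ℝ) / (2 * k)) := ⟨_, rfl⟩
  have hri : ∀ i, |v i / 2 - r i| ≤ 1 / 2 := by
    intro i
    have h1 : (z i : ℝ) / (2 * k) = v i / 2 := by
      rw [hzv]
      field_simp
    rw [hr, ← h1]
    exact abs_sub_round _
  -- the rounded point
  have hrV : r ∈ lat V := by
    show re r ∈ V
    have hw : (fun i => 2 * (r i : ℝ) - v i) ∈ V := by
      apply hcube
      intro i
      have h1 := abs_le.1 (hri i)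
      exact abs_le.2 ⟨by linarith [h1.2], by linarith [h1.1]⟩
    have h2 := hV hv hw (by norm_num : (0 : ℝ) ≤ 1 / 2) (by norm_num : (0 : ℝ) ≤ 1 / 2) (by norm_num)
    have h3 : (1 / 2 : ℝ) • v + (1 / 2 : ℝ) • (fun i => 2 * (r i : ℝ) - v i) = re r := by
      funext i
      show (1 / 2 : ℝ) * v i + (1 / 2 : ℝ) * (2 * (r i : ℝ) - v i) = (r i : ℝ)
      ring
    rwa [h3] at h2
  -- the error
  obtain ⟨e, he⟩ : ∃ e : Fin D → ℤ, e = fun i => z i - 2 * k * r i := ⟨_, rfl⟩
  have hei : ∀ i, |e i| ≤ k := by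
    intro i
    have h1 : |(e i : ℝ)| ≤ k := by
      have h2 : (e i : ℝ) = 2 * k * (v i / 2 - r i) := by
        rw [he]
        push_cast
        rw [hzv]
        ring
      rw [h2, abs_mul, abs_of_pos (by positivity : (0 : ℝ) < 2 * k)]
      have := mul_le_mul_of_nonneg_left (hri i) (by positivity : (0 : ℝ) ≤ 2 * k)
      linarith
    exact_mod_cast h1
  obtain ⟨P, hP⟩ : ∃ P : ℕ → Fin D → ℤ, P = fun j => if j < 2 * k then r else
    fun i => st (e i) (j - 2 * k) := ⟨_, rfl⟩
  refine ⟨fun j => P j, ?_, ?_⟩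
  · intro j
    show P j ∈ lat V
    rw [hP]
    simp only
    split_ifs with h
    · exact hrV
    · show re (fun i => st (e i) (j - 2 * k)) ∈ V
      apply hcube
      intro i
      show |((st (e i) (j - 2 * k) : ℤ) : ℝ)| ≤ 1
      exact_mod_cast st_abs (e i) (j - 2 * k)
  · have h1 : ∑ j : Fin (3 * k), P j = ∑ j ∈ Finset.range (3 * k), P j :=
      Fin.sum_univ_eq_sum_range P (3 * k)
    rw [h1]
    have h2 : 3 * k = 2 * k + k := by ring
    rw [h2, Finset.sum_range_add]
    have h3 : ∑ j ∈ Finset.range (2 * k), P j = ∑ _j ∈ Finset.range (2 * k), r := by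
      refine Finset.sum_congr rfl fun j hj => ?_
      rw [hP]
      simp only
      rw [if_pos (Finset.mem_range.1 hj)]
    have h4 : ∑ j ∈ Finset.range k, P (2 * k + j) = e := by
      funext i
      rw [Finset.sum_apply]
      rw [← st_sum' (e i) k (hei i)]
      refine Finset.sum_congr rfl fun j _ => ?_
      rw [hP]
      simp only
      rw [if_neg (by omega), Nat.add_sub_cancel_left]
    rw [h3, h4, Finset.sum_const, Finset.card_range]
    funext i
    rw [he]
    rw [Pi.add_apply, Pi.smul_apply, nsmul_eq_mul]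
    push_cast
    ring

end Pool.Agent.H98.Gap
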