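import Pool.Agent.H98.Gap.Cor
import Pool.Agent.H98.Gap.P1
import Pool.Agent.H98.Gap.P2
import Pool.Agent.H98.Gap.P3
import Pool.Agent.H98.Gap.P4
import Pool.Agent.H98.Gap.P5
import Pool.Agent.H98.Gap.P6
import Pool.Agent.H98.Gap.P7
import Pool.Agent.H98.Gap.P8
import Pool.Agent.H98.Gap.P9

/-!
# Progressions of arbitrary rank: the theorem
-/

set_option autoImplicit false

namespace Pool.Agent.H98.Gap

open Finset H112 Pool.Agent.Y806.DF Pool.Agent.H608VF Pool.Agent.R92.Star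
open scoped Pointwise

universe u

/-- the theorem, for convex progressions -/
theorem conv_thm : ∃ C' : ℝ, 0 < C' ∧ ∀ (Γ : Type u) [AddCommGroup Γ] [DecidableEq Γ] (D : ℕ)
      (V : Set (Fin D → ℝ)) (ψ : (Fin D → ℤ) →+ Γ) (K : ℝ) (A P : Finset Γ), 1 ≤ K → Sym V →
      (∀ x : Fin D → ℝ, (∀ i, |x i| ≤ 1) → x ∈ V) → A.Nonempty → (P : Set Γ) = ψ '' lat V →
      ((A + P).card : ℝ) ≤ K * P.card → (P.card : ℝ) ≤ K * A.card → Concl C' K A := by
  obtain ⟨a, b, ha, hft⟩ := mainFin s1 s2 s3 s4 s5 s7 s8 s9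
  exact gap_concl s6.{u} a b ha hft

end Pool.Agent.H98.Gap
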