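import Pool.Agent.H98.Gap.Core
import Pool.Graph.R_seed8.H112R2.Final

/-!
# Progressions of arbitrary rank: the conclusion
-/

set_option autoImplicit false

namespace Pool.Agent.H98.Gap

open Finset H112 Pool.Agent.Y806.DF Pool.Agent.H608VF Pool.Agent.R92.Star
open scoped Pointwise

universe u

theorem dim_bound {K : ℝ} (hK : 1 ≤ K) {d : ℕ}
    (hd : (d : ℝ) ≤ (480 * Real.log ((2 ^ 22 * (1024 * (K ^ 3) ^ 12) ^ 10) ^ 2) + 1) +
        (480 * Real.log K + 1)) : (d : ℝ) ≤ 346080 * Real.log (2 * K) := by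
  have hK0 : 0 < K := by linarith
  have hlK : 0 ≤ Real.log K := Real.log_nonneg hK
  have hl2 : 0.6931471803 < Real.log 2 := Real.log_two_gt_d9
  have e0 : (2 ^ 22 * (1024 * (K ^ 3) ^ 12) ^ 10) ^ 2 = 2 ^ 244 * K ^ 720 := by ring
  have e1 : Real.log ((2 ^ 22 * (1024 * (K ^ 3) ^ 12) ^ 10) ^ 2) =
      244 * Real.log 2 + 720 * Real.log K := by
    rw [e0, Real.log_mul (by positivity) (by positivity), Real.log_pow, Real.log_pow]
    push_cast; ring
  have e2 : Real.log (2 * K) = Real.log 2 + Real.log K := by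
    rw [Real.log_mul (by norm_num) hK0.ne']
  rw [e1] at hd
  rw [e2]
  linarith

theorem gap_concl (h6 : S6.{u}) (a₁ b₁ : ℕ) (ha₁ : 1 ≤ a₁) (hft : FinThm a₁ b₁) :
    ∃ C' : ℝ, 0 < C' ∧ ∀ (Γ : Type u) [AddCommGroup Γ] [DecidableEq Γ] (D : ℕ)
      (V : Set (Fin D → ℝ)) (ψ : (Fin D → ℤ) →+ Γ) (K : ℝ) (A P : Finset Γ), 1 ≤ K → Sym V →
      (∀ x : Fin D → ℝ, (∀ i, |x i| ≤ 1) → x ∈ V) → A.Nonempty → (P : Set Γ) = ψ '' lat V →
      ((A + P).card : ℝ) ≤ K * P.card → (P.card : ℝ) ≤ K * A.card → Concl C' K A := by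
  classical
  obtain ⟨n₂, hn₂⟩ : ∃ n₂ : ℕ, (346080 : ℝ) ≤ n₂ := exists_nat_ge _
  obtain ⟨q, hq⟩ : ∃ q : ℕ, q = 4 ^ n₂ := ⟨_, rfl⟩
  have hq1 : 1 ≤ q := by rw [hq]; exact Nat.one_le_pow _ _ (by norm_num)
  have hq1r : (1 : ℝ) ≤ q := by exact_mod_cast hq1
  have ha₁r : (1 : ℝ) ≤ a₁ := by exact_mod_cast ha₁
  obtain ⟨C₁, hC₁⟩ := concl_of_cov.{u} (a₁ * q) (b₁ + q + 187)
  obtain ⟨C', hC', hC'1⟩ : ∃ C' : ℝ, 0 < C' ∧ 3 * |C₁| ≤ C' := ⟨3 * |C₁| + 1, by positivity, by linarith⟩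
  refine ⟨C', hC', ?_⟩
  intro Γ _ _ D V ψ K A P hK hV hVc hA hP hAP hPA
  have hK0 : 0 < K := by linarith
  have hPne : P.Nonempty := by
    rw [← Finset.coe_nonempty, hP]
    refine ⟨ψ 0, 0, ?_, rfl⟩
    show re 0 ∈ V
    have : re (0 : Fin D → ℤ) = 0 := by funext i; simp [re]
    rw [this]; exact hVc 0 (fun i => by simp)
  have hP0 : (0 : ℝ) < P.card := by exact_mod_cast hPne.card_pos
  have hA0 : (0 : ℝ) < A.card := by exact_mod_cast hA.card_pos
  -- small doubling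
  have hdoub : ((P + P).card : ℝ) ≤ K ^ 3 * P.card := by
    have h1 := Finset.ruzsa_triangle_inequality_add_add_add P A P
    have h2 : ((P + P).card : ℝ) * A.card ≤ (P + A).card * (A + P).card := by
      exact_mod_cast h1
    rw [add_comm P A] at h2
    have h3 : ((P + P).card : ℝ) * A.card ≤ (K ^ 3 * P.card) * A.card := by
      calc _ ≤ _ := h2
        _ ≤ (K * P.card) * (K * P.card) :=
          mul_le_mul hAP hAP (Nat.cast_nonneg _) (by positivity)
        _ ≤ (K * P.card) * (K * (K * A.card)) := by gcongr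
        _ = _ := by ring
    exact le_of_mul_le_mul_right h3 hA0
  have hdoubA : ((A + A).card : ℝ) ≤ K ^ 3 * A.card := by
    have h1 := Finset.ruzsa_triangle_inequality_add_add_add A P A
    have h2 : ((A + A).card : ℝ) * P.card ≤ (A + P).card * (P + A).card := by
      exact_mod_cast h1
    rw [add_comm P A] at h2
    have h3 : ((A + A).card : ℝ) * P.card ≤ (K ^ 3 * A.card) * P.card := by
      calc _ ≤ _ := h2
        _ ≤ (K * P.card) * (K * P.card) :=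
          mul_le_mul hAP hAP (Nat.cast_nonneg _) (by positivity)
        _ ≤ (K * (K * A.card)) * (K * P.card) := by gcongr
        _ = _ := by ring
    exact le_of_mul_le_mul_right h3 hP0
  have hK3 : 1 ≤ K ^ 3 := one_le_pow₀ hK
  -- the finitely generated group
  obtain ⟨Γ₀, hΓ₀⟩ : ∃ Γ₀ : AddSubgroup Γ, Γ₀ = ψ.range := ⟨_, rfl⟩
  have hfg : AddGroup.FG Γ₀ := by rw [hΓ₀]; infer_instance
  have hψ₀ : ∀ z, ψ z ∈ Γ₀ := by intro z; rw [hΓ₀]; exact ⟨z, rfl⟩
  obtain ⟨ψ₀, hψ₀e⟩ : ∃ ψ₀ : (Fin D → ℤ) →+ Γ₀, ∀ z, Γ₀.subtype (ψ₀ z) = ψ z :=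
    ⟨ψ.codRestrict Γ₀ hψ₀, fun z => rfl⟩
  have hinj : Function.Injective Γ₀.subtype := Γ₀.subtype_injective
  obtain ⟨P₀, hP₀⟩ := exists_model P Γ₀ (fun p hp => by
    have : p ∈ ψ '' lat V := by rw [← hP]; exact Finset.mem_coe.2 hp
    obtain ⟨z, -, rfl⟩ := this
    exact hψ₀ z)
  have hP₀e : (P₀ : Set Γ₀) = ψ₀ '' lat V := by
    have h1 : Γ₀.subtype '' (P₀ : Set Γ₀) = Γ₀.subtype '' (ψ₀ '' lat V) := by
      rw [← Finset.coe_image, hP₀, hP, Set.image_image]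
      refine Set.image_congr fun z _ => ?_
      exact (hψ₀e z).symm
    exact hinj.image_injective h1
  have hcardP : P₀.card = P.card := by
    rw [← hP₀, Finset.card_image_of_injective _ hinj]
  have hcardPP : (P₀ + P₀).card = (P + P).card := by
    rw [← hP₀, ← Finset.image_add, Finset.card_image_of_injective _ hinj]
  obtain ⟨P₁, d, B', θ, H, hP₁P, hP₁ne, hP₁c, hd, hB', hH, hsz, hcov⟩ := coreFg h6 a₁ b₁ hft hV hVc
    ψ₀ hK3 hP₀e (by rw [hcardPP, hcardP]; exact hdoub)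
  rw [hcardP] at hP₁c hsz
  -- the covering
  obtain ⟨P₂, hP₂⟩ : ∃ P₂, P₂ = P₁.image Γ₀.subtype := ⟨_, rfl⟩
  have hP₂ne : P₂.Nonempty := by rw [hP₂]; exact hP₁ne.image _
  have hcardP₂ : P₂.card = P₁.card := by rw [hP₂, Finset.card_image_of_injective _ hinj]
  have hP₂P : P₂ ⊆ P := by
    rw [hP₂, ← hP₀]; exact Finset.image_subset_image hP₁P
  obtain ⟨T, -, hTK, hAT⟩ := Finset.ruzsa_covering_add (A := A) (B := P₂) (K := K * (K ^ 3) ^ 185)
    hP₂ne (by
      have h1 : ((A + P₂).card : ℝ) ≤ (A + P).card := by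
        exact_mod_cast Finset.card_le_card (Finset.add_subset_add_left hP₂P)
      rw [hcardP₂]
      calc _ ≤ _ := h1
        _ ≤ K * P.card := hAP
        _ ≤ K * ((K ^ 3) ^ 185 * P₁.card) := mul_le_mul_of_nonneg_left hP₁c hK0.le
        _ = _ := by ring)
  obtain ⟨B'', hB'', hlat⟩ := fatten hB'
  have hbig : ∀ j k : ℕ, k ≤ b₁ + q + 187 → j ≤ a₁ * q →
      (j : ℝ) * (K ^ 3) ^ k ≤ ((a₁ * q : ℕ) : ℝ) * (K ^ 3) ^ (b₁ + q + 187) := by
    intro j k hk hj
    have hj' : (j : ℝ) ≤ ((a₁ * q : ℕ) : ℝ) := by exact_mod_cast hj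
    exact mul_le_mul hj' (pow_le_pow_right₀ hK3 hk) (by positivity) (by positivity)
  have haq : 1 ≤ a₁ * q := Nat.mul_pos ha₁ hq1
  have hKK3 : K ≤ K ^ 3 := by
    calc K = K ^ 1 := (pow_one K).symm
      _ ≤ K ^ 3 := pow_le_pow_right₀ hK (by norm_num)
  obtain ⟨d', Q, θ', H', T', g1, g2, g3, g4, g5, g6⟩ := hC₁ Γ (K ^ 3) A hA hdoubA d B''
    (Γ₀.subtype.comp θ) (H.map Γ₀.subtype) T
    (by
      have := hbig 1 0 (by omega) haq
      rwa [pow_zero, Nat.cast_one, one_mul] at this)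
    (by
      have h7 := four_pow hn₂ hK3 (dim_bound hK3 hd)
      rw [← hq] at h7
      have h8 := hbig q q (by omega) (Nat.le_mul_of_pos_left _ ha₁)
      exact h7.trans h8)
    hB'' (by
      have : (H.map Γ₀.subtype : Set Γ).Finite := by
        rw [AddSubgroup.coe_map]
        exact (Set.toFinite (H : Set Γ₀)).image _
      exact this.to_subtype)
    (by
      have himg2 : cpr (lat B'') (Γ₀.subtype.comp θ) (H.map Γ₀.subtype) ⊆
          Γ₀.subtype '' cpr (lat B') θ H := by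
        rintro _ ⟨v, hv, _, ⟨h, hh, rfl⟩, rfl⟩
        rw [hlat] at hv
        exact ⟨θ v + h, ⟨v, hv, h, hh, rfl⟩, by rw [map_add]; rfl⟩
      have hfin : (cpr (lat B') θ H).Finite := cpr_finite (lat_finite hB'.comp.isBounded) θ H
      have h1 := (Set.ncard_le_ncard himg2 (hfin.image _)).trans (Set.ncard_image_le hfin)
      have h2 : ((cpr (lat B'') (Γ₀.subtype.comp θ) (H.map Γ₀.subtype)).ncard : ℝ) ≤
          a₁ * (K ^ 3) ^ b₁ * P.card := le_trans (by exact_mod_cast h1) hsz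
      calc _ ≤ _ := h2
        _ ≤ a₁ * (K ^ 3) ^ b₁ * (K ^ 3 * A.card) := by
            refine mul_le_mul_of_nonneg_left (hPA.trans ?_) (by positivity)
            exact mul_le_mul_of_nonneg_right hKK3 hA0.le
        _ = (a₁ * (K ^ 3) ^ (b₁ + 1)) * A.card := by ring
        _ ≤ _ := mul_le_mul_of_nonneg_right
            (hbig a₁ (b₁ + 1) (by omega) (Nat.le_mul_of_pos_right _ hq1)) hA0.le)
    (by
      refine hTK.trans ?_
      have h1 := hbig 1 186 (by omega) haq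
      rw [Nat.cast_one, one_mul] at h1
      refine le_trans ?_ h1
      calc K * (K ^ 3) ^ 185 ≤ K ^ 3 * (K ^ 3) ^ 185 := mul_le_mul_of_nonneg_right hKK3 (by positivity)
        _ = (K ^ 3) ^ 186 := by ring)
    (by
      intro x hx
      obtain ⟨t, ht, w, hw, htw⟩ := Finset.mem_add.1 (hAT hx)
      obtain ⟨y₁, hy₁, y₂, hy₂, hyy⟩ := Finset.mem_sub.1 hw
      rw [hP₂] at hy₁ hy₂
      obtain ⟨z₁, hz₁, rfl⟩ := Finset.mem_image.1 hy₁
      obtain ⟨z₂, hz₂, rfl⟩ := Finset.mem_image.1 hy₂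
      obtain ⟨v, hv, h, hh, e⟩ := hcov z₁ hz₁ z₂ hz₂
      refine ⟨t, ht, v, by rw [hlat]; exact hv, Γ₀.subtype h, ⟨h, hh, rfl⟩, ?_⟩
      rw [← htw, ← hyy, ← map_sub, e, map_add, ← add_assoc]
      rfl)
  refine ⟨d', Q, θ', H', T', ?_, g2, g3, g4, ?_, g6⟩
  · refine g1.trans ?_
    have hl2 : 0 < Real.log 2 := Real.log_pos (by norm_num)
    have hlK : 0 ≤ Real.log K := Real.log_nonneg hK
    have e1 : Real.log (2 * K ^ 3) = Real.log 2 + 3 * Real.log K := by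
      rw [Real.log_mul (by norm_num) (by positivity), Real.log_pow]
      push_cast; ring
    have e2 : Real.log (2 * K) = Real.log 2 + Real.log K := by
      rw [Real.log_mul (by norm_num) hK0.ne']
    rw [e1, e2]
    calc C₁ * (Real.log 2 + 3 * Real.log K) ≤ |C₁| * (Real.log 2 + 3 * Real.log K) :=
          mul_le_mul_of_nonneg_right (le_abs_self _) (by positivity)
      _ ≤ |C₁| * (3 * (Real.log 2 + Real.log K)) :=
          mul_le_mul_of_nonneg_left (by linarith) (abs_nonneg _)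
      _ = (3 * |C₁|) * (Real.log 2 + Real.log K) := by ring
      _ ≤ _ := mul_le_mul_of_nonneg_right hC'1 (by positivity)
  · refine g5.trans ?_
    have e1 : (K ^ 3) ^ C₁ ≤ K ^ C' := by
      rw [← Real.rpow_natCast K 3, ← Real.rpow_mul hK0.le]
      refine Real.rpow_le_rpow_of_exponent_le hK ?_
      have : C₁ ≤ |C₁| := le_abs_self _
      have h8 : 0 ≤ |C₁| := abs_nonneg _
      push_cast
      linarith
    have h8 : C₁ ≤ C' := by
      have : C₁ ≤ |C₁| := le_abs_self _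
      have h8 : 0 ≤ |C₁| := abs_nonneg _
      linarith
    calc C₁ * (K ^ 3) ^ C₁ ≤ C' * (K ^ 3) ^ C₁ := mul_le_mul_of_nonneg_right h8 (by positivity)
      _ ≤ C' * K ^ C' := mul_le_mul_of_nonneg_left e1 hC'.le

end Pool.Agent.H98.Gap
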