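import Pool.Agent.H98.Gap.Concl

/-!
# Progressions of arbitrary rank: generalized arithmetic progressions
-/

set_option autoImplicit false

namespace Pool.Agent.H98.Gap

open Finset H112 Pool.Agent.Y806.DF Pool.Agent.H608VF Pool.Agent.R92.Star
open scoped Pointwise

universe u

theorem concl_pow {Γ : Type u} [AddCommGroup Γ] {C K : ℝ} (hK : 1 ≤ K) {m : ℕ} (hm : 1 ≤ m)
    {A : Finset Γ} (h : Concl C (K ^ m) A) : Concl (m * |C| + 1) K A := by
  have hK0 : 0 < K := by linarith
  have hmr : (1 : ℝ) ≤ m := by exact_mod_cast hm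
  obtain ⟨d', Q, θ', H', T', g1, g2, g3, g4, g5, g6⟩ := h
  have hCa : C ≤ |C| := le_abs_self _
  have hC0 : 0 ≤ |C| := abs_nonneg _
  have hC1 : |C| ≤ m * |C| := by nlinarith
  refine ⟨d', Q, θ', H', T', ?_, g2, g3, g4, ?_, g6⟩
  · refine g1.trans ?_
    have hl2 : 0 < Real.log 2 := Real.log_pos (by norm_num)
    have hlK : 0 ≤ Real.log K := Real.log_nonneg hK
    have e1 : Real.log (2 * K ^ m) = Real.log 2 + m * Real.log K := by
      rw [Real.log_mul (by norm_num) (by positivity), Real.log_pow]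
    have e2 : Real.log (2 * K) = Real.log 2 + Real.log K := by
      rw [Real.log_mul (by norm_num) hK0.ne']
    rw [e1, e2]
    calc C * (Real.log 2 + m * Real.log K) ≤ |C| * (Real.log 2 + m * Real.log K) :=
          mul_le_mul_of_nonneg_right hCa (by positivity)
      _ ≤ |C| * (m * (Real.log 2 + Real.log K)) := by
          refine mul_le_mul_of_nonneg_left ?_ hC0
          nlinarith
      _ = (m * |C|) * (Real.log 2 + Real.log K) := by ring
      _ ≤ _ := mul_le_mul_of_nonneg_right (by linarith) (by positivity)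
  · refine g5.trans ?_
    have e1 : (K ^ m) ^ C ≤ K ^ (m * |C| + 1) := by
      rw [← Real.rpow_natCast K m, ← Real.rpow_mul hK0.le]
      refine Real.rpow_le_rpow_of_exponent_le hK ?_
      have : (m : ℝ) * C ≤ m * |C| := mul_le_mul_of_nonneg_left hCa (by linarith)
      linarith
    calc C * (K ^ m) ^ C ≤ (m * |C| + 1) * (K ^ m) ^ C :=
          mul_le_mul_of_nonneg_right (by linarith) (by positivity)
      _ ≤ _ := mul_le_mul_of_nonneg_left e1 (by positivity)

/-- passing from a set to its difference set -/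
theorem commens {Γ : Type u} [AddCommGroup Γ] [DecidableEq Γ] {K : ℝ} (hK : 1 ≤ K)
    {A P : Finset Γ} (hA : A.Nonempty) (hP : P.Nonempty)
    (hAP : ((A + P).card : ℝ) ≤ K * P.card) (hPA : (P.card : ℝ) ≤ K * A.card) :
    ((A + (P - P)).card : ℝ) ≤ K ^ 13 * (P - P).card ∧ ((P - P).card : ℝ) ≤ K ^ 13 * A.card := by
  have hK0 : 0 < K := by linarith
  have hP0 : (0 : ℝ) < P.card := by exact_mod_cast hP.card_pos
  have hA0 : (0 : ℝ) < A.card := by exact_mod_cast hA.card_pos
  have hdoub : ((P + P).card : ℝ) ≤ K ^ 3 * P.card := by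
    have h1 := Finset.ruzsa_triangle_inequality_add_add_add P A P
    have h2 : ((P + P).card : ℝ) * A.card ≤ (P + A).card * (A + P).card := by
      exact_mod_cast h1
    rw [add_comm P A] at h2
    have h3 : ((P + P).card : ℝ) * A.card ≤ (K ^ 3 * P.card) * A.card := by
      calc _ ≤ _ := h2
        _ ≤ (K * P.card) * (K * P.card) :=
          mul_le_mul hAP hAP (Nat.cast_nonneg _) (by positivity)
        _ ≤ (K * P.card) * (K * (K * A.card)) := by gcongr
        _ = _ := by ring
    exact le_of_mul_le_mul_right h3 hA0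
  have h3P : ((P + (P + P)).card : ℝ) ≤ K ^ 9 * P.card := by
    have h1 := plun hP hdoub 3 0
    have e : (3 • P - 0 • P : Finset Γ) = P + (P + P) := by
      rw [zero_smul, sub_zero, show (3 : ℕ) = 1 + (1 + 1) by norm_num, add_smul, add_smul, one_smul]
    rw [e, ← pow_mul] at h1
    exact h1
  have hmm : ((P - P).card : ℝ) ≤ K ^ 6 * P.card := by
    have h1 := plun hP hdoub 1 1
    rw [one_smul, ← pow_mul] at h1
    exact h1
  have hPm : (P.card : ℝ) ≤ (P - P).card := by
    exact_mod_cast Finset.card_le_card_sub_left hP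
  have hA2 : ((A + (P + P)).card : ℝ) ≤ K ^ 10 * P.card := by
    have h1 := Finset.ruzsa_triangle_inequality_add_add_add A P (P + P)
    have h2 : ((A + (P + P)).card : ℝ) * P.card ≤ (A + P).card * (P + (P + P)).card := by
      exact_mod_cast h1
    have h3 : ((A + (P + P)).card : ℝ) * P.card ≤ (K ^ 10 * P.card) * P.card := by
      calc _ ≤ _ := h2
        _ ≤ (K * P.card) * (K ^ 9 * P.card) := mul_le_mul hAP h3P (by positivity) (by positivity)
        _ = _ := by ring
    exact le_of_mul_le_mul_right h3 hP0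
  constructor
  · have h1 := Finset.ruzsa_triangle_inequality_sub_add_add (A + P) P P
    have e1 : A + P - P = A + (P - P) := add_sub_assoc _ _ _
    rw [e1, add_assoc] at h1
    have h2 : ((A + (P - P)).card : ℝ) * P.card ≤ (A + (P + P)).card * (P + P).card := by
      exact_mod_cast h1
    have h3 : ((A + (P - P)).card : ℝ) * P.card ≤ (K ^ 13 * (P - P).card) * P.card := by
      calc _ ≤ _ := h2
        _ ≤ (K ^ 10 * P.card) * (K ^ 3 * P.card) := mul_le_mul hA2 hdoub (by positivity) (by positivity)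
        _ = (K ^ 13 * P.card) * P.card := by ring
        _ ≤ _ := mul_le_mul_of_nonneg_right (mul_le_mul_of_nonneg_left hPm (by positivity)) hP0.le
    exact le_of_mul_le_mul_right h3 hP0
  · calc ((P - P).card : ℝ) ≤ K ^ 6 * P.card := hmm
      _ ≤ K ^ 6 * (K * A.card) := mul_le_mul_of_nonneg_left hPA (by positivity)
      _ = K ^ 7 * A.card := by ring
      _ ≤ _ := mul_le_mul_of_nonneg_right (pow_le_pow_right₀ hK (by norm_num)) hA0.le

/-- the difference set of a generalized arithmetic progression -/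
theorem gap_diff {Γ : Type u} [AddCommGroup Γ] [DecidableEq Γ] {D : ℕ} (a : Γ) (x : Fin D → Γ)
    (N : Fin D → ℕ) (P : Finset Γ)
    (hP : ∀ y, y ∈ P ↔ ∃ n : Fin D → ℕ, (∀ i, n i ≤ N i) ∧ y = a + ∑ i, n i • x i) :
    ∃ (V : Set (Fin D → ℝ)) (ψ : (Fin D → ℤ) →+ Γ), Sym V ∧
      (∀ v : Fin D → ℝ, (∀ i, |v i| ≤ 1) → v ∈ V) ∧ ((P - P : Finset Γ) : Set Γ) = ψ '' lat V := by
  classical
  obtain ⟨M, hM⟩ : ∃ M : Fin D → ℕ, M = fun i => max (N i) 1 := ⟨_, rfl⟩
  obtain ⟨x', hx'⟩ : ∃ x' : Fin D → Γ, x' = fun i => if N i = 0 then 0 else x i := ⟨_, rfl⟩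
  have hM1 : ∀ i, 1 ≤ M i := fun i => by rw [hM]; exact le_max_right _ _
  refine ⟨Set.univ.pi fun i => Set.Icc (-(M i : ℝ)) (M i : ℝ),
    { toFun := fun z => ∑ i, z i • x' i
      map_zero' := by simp
      map_add' := fun z w => by simp only [Pi.add_apply, add_smul, Finset.sum_add_distrib] },
    ⟨?_, ?_, ?_, ?_⟩, ?_, ?_⟩
  · exact convex_pi fun i _ => convex_Icc _ _
  · exact isCompact_univ_pi fun i => isCompact_Icc
  · intro v hv i hi
    have h1 := hv i hi
    simp only [Set.mem_Icc, Pi.neg_apply] at h1 ⊢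
    constructor <;> linarith [h1.1, h1.2]
  · refine ⟨0, fun i _ => ?_⟩
    simp only [Pi.zero_apply, Set.mem_Icc, Left.neg_nonpos_iff, Nat.cast_nonneg, and_self]
  · intro v hv i _
    have h1 : (1 : ℝ) ≤ M i := by exact_mod_cast hM1 i
    have h2 := abs_le.1 (hv i)
    exact ⟨by linarith [h2.1], by linarith [h2.2]⟩
  · ext y
    rw [Finset.mem_coe, Finset.mem_sub]
    constructor
    · rintro ⟨p, hp, q, hq, rfl⟩
      obtain ⟨n, hn, rfl⟩ := (hP p).1 hp
      obtain ⟨m, hm, rfl⟩ := (hP q).1 hq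
      refine ⟨fun i => (n i : ℤ) - m i, ?_, ?_⟩
      · intro i _
        have h1 : (n i : ℝ) ≤ N i := by exact_mod_cast hn i
        have h2 : (m i : ℝ) ≤ N i := by exact_mod_cast hm i
        have h3 : (N i : ℝ) ≤ M i := by rw [hM]; exact_mod_cast le_max_left (N i) 1
        have h4 : (0 : ℝ) ≤ n i := Nat.cast_nonneg _
        have h5 : (0 : ℝ) ≤ m i := Nat.cast_nonneg _
        show (((n i : ℤ) - m i : ℤ) : ℝ) ∈ _
        push_cast
        exact ⟨by linarith, by linarith⟩
      · show ∑ i, ((n i : ℤ) - m i) • x' i = _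
        rw [add_sub_add_left_eq_sub, ← Finset.sum_sub_distrib]
        refine Finset.sum_congr rfl fun i _ => ?_
        rw [hx']
        by_cases h : N i = 0
        · have h1 : n i = 0 := by have := hn i; omega
          have h2 : m i = 0 := by have := hm i; omega
          simp [h, h1, h2]
        · simp only [h, if_false]
          rw [sub_smul, natCast_zsmul, natCast_zsmul]
    · rintro ⟨z, hz, rfl⟩
      have hz' : ∀ i, |z i| ≤ M i := by
        intro i
        have h1 := hz i (Set.mem_univ i)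
        have h2 : |(z i : ℝ)| ≤ M i := abs_le.2 h1
        exact_mod_cast h2
      refine ⟨a + ∑ i, (if N i = 0 then 0 else (z i).toNat) • x i, (hP _).2
        ⟨fun i => if N i = 0 then 0 else (z i).toNat, fun i => ?_, rfl⟩,
        a + ∑ i, (if N i = 0 then 0 else (-z i).toNat) • x i, (hP _).2
        ⟨fun i => if N i = 0 then 0 else (-z i).toNat, fun i => ?_, rfl⟩, ?_⟩
      · have h1 := abs_le.1 (hz' i)
        rw [hM] at h1
        dsimp only at h1 ⊢
        split_ifs with h
        · omega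
        · omega
      · have h1 := abs_le.1 (hz' i)
        rw [hM] at h1
        dsimp only at h1 ⊢
        split_ifs with h
        · omega
        · omega
      · show _ = ∑ i, z i • x' i
        rw [add_sub_add_left_eq_sub, ← Finset.sum_sub_distrib]
        refine Finset.sum_congr rfl fun i _ => ?_
        rw [hx']
        dsimp only
        split_ifs with h
        · simp
        · rw [← natCast_zsmul, ← natCast_zsmul, ← sub_smul]
          congr 1
          omega

/-- **The theorem for generalized arithmetic progressions.** -/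
theorem gap_cor {C' : ℝ} (h : ∀ (Γ : Type u) [AddCommGroup Γ] [DecidableEq Γ] (D : ℕ)
      (V : Set (Fin D → ℝ)) (ψ : (Fin D → ℤ) →+ Γ) (K : ℝ) (A P : Finset Γ), 1 ≤ K → Sym V →
      (∀ x : Fin D → ℝ, (∀ i, |x i| ≤ 1) → x ∈ V) → A.Nonempty → (P : Set Γ) = ψ '' lat V →
      ((A + P).card : ℝ) ≤ K * P.card → (P.card : ℝ) ≤ K * A.card → Concl C' K A)
    (Γ : Type u) [AddCommGroup Γ] [DecidableEq Γ] (D : ℕ) (a : Γ) (x : Fin D → Γ)
    (N : Fin D → ℕ) (K : ℝ) (A P : Finset Γ) (hK : 1 ≤ K) (hA : A.Nonempty)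
    (hP : ∀ y, y ∈ P ↔ ∃ n : Fin D → ℕ, (∀ i, n i ≤ N i) ∧ y = a + ∑ i, n i • x i)
    (hAP : ((A + P).card : ℝ) ≤ K * P.card) (hPA : (P.card : ℝ) ≤ K * A.card) :
    Concl (13 * |C'| + 1) K A := by
  obtain ⟨V, ψ, hV, hVc, he⟩ := gap_diff a x N P hP
  have hPne : P.Nonempty := ⟨a, (hP a).2 ⟨0, fun i => Nat.zero_le _, by simp⟩⟩
  obtain ⟨h1, h2⟩ := commens hK hA hPne hAP hPA
  have h3 := h Γ D V ψ (K ^ 13) A (P - P) (one_le_pow₀ hK) hV hVc hA he h1 h2
  have h4 := concl_pow hK (m := 13) (by norm_num) h3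
  exact_mod_cast h4

end Pool.Agent.H98.Gap
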