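import Pool.Agent.H98.Gap.Rel
import Pool.Graph.R_seed8.H112R2.Resid

/-!
# Progressions of arbitrary rank: the structure theorem in finitely generated groups
-/

set_option autoImplicit false

namespace Pool.Agent.H98.Gap

open Finset Pool.Agent.Y806.DF Pool.Agent.H608VF
open scoped Pointwise

universe u

/-- the finite torsion subgroup -/
theorem exists_tor (Γ : Type u) [AddCommGroup Γ] [AddGroup.FG Γ] :
    ∃ T : AddSubgroup Γ, Finite T ∧ ∀ (x : Γ) (m : ℕ), m ≠ 0 → m • x = 0 → x ∈ T := by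
  have : Module.Finite ℤ Γ := Module.Finite.iff_addGroup_fg.mpr inferInstance
  have hfin : Finite (Submodule.torsion ℤ Γ) :=
    Module.finite_of_fg_torsion _ (Submodule.torsion_isTorsion)
  refine ⟨(Submodule.torsion ℤ Γ).toAddSubgroup, hfin, ?_⟩
  intro x m hm hx
  show x ∈ Submodule.torsion ℤ Γ
  rw [Submodule.mem_torsion_iff]
  refine ⟨⟨(m : ℤ), ?_⟩, ?_⟩
  · rw [mem_nonZeroDivisors_iff_ne_zero]
    exact_mod_cast hm
  · show (m : ℤ) • x = 0
    rw [natCast_zsmul]; exact hx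

/-- the popular coset -/
theorem popular {Γ : Type u} [AddCommGroup Γ] [DecidableEq Γ] [AddGroup.FG Γ] {K : ℝ}
    (P : Finset Γ) (hPne : P.Nonempty) (hdoub : ((P + P).card : ℝ) ≤ K * P.card) :
    ∃ (T : AddSubgroup Γ) (b : ℕ) (s : Fin b → Γ) (P₁ : Finset Γ), Finite T ∧
      (b : ℝ) ≤ 480 * Real.log K + 1 ∧ P₁ ⊆ P ∧ P₁.Nonempty ∧
      (P.card : ℝ) ≤ K ^ 185 * P₁.card ∧
      ∀ x ∈ P₁, ∀ y ∈ P₁, ∃ c : Fin b → ℤ, x - y - ∑ i, c i • s i ∈ T := by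
  classical
  obtain ⟨T, hTfin, hT⟩ := exists_tor Γ
  obtain ⟨F, S, X, hF, hS, -, hX, hcov⟩ := wm K P hPne hdoub
  have hFT : F ≤ T := by
    intro x hx
    refine hT x (Nat.card F) Nat.card_pos.ne' ?_
    have := card_nsmul_eq_zero' (x := (⟨x, hx⟩ : F))
    have h2 := congrArg F.subtype this
    rw [map_nsmul, map_zero] at h2
    exact h2
  have hch : ∀ a : Γ, ∃ t : Γ, a ∈ P → t ∈ X ∧ a - t ∈ T ⊔ AddSubgroup.closure (S : Set Γ) := by
    intro a
    by_cases ha : a ∈ P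
    · obtain ⟨t, ht, o, ⟨m, hm, hmo⟩, hat⟩ := hcov a ha
      refine ⟨t, fun _ => ⟨ht, ?_⟩⟩
      have ho : o ∈ T := hT o m (by rintro rfl; simp at hm) hmo
      have h1 : a - t - o ∈ T ⊔ AddSubgroup.closure (S : Set Γ) :=
        sup_le_sup_right hFT _ hat
      have h2 := AddSubgroup.add_mem _ h1 (AddSubgroup.mem_sup_left ho :
        o ∈ T ⊔ AddSubgroup.closure (S : Set Γ))
      rwa [sub_add_cancel] at h2
    · exact ⟨0, fun h => absurd h ha⟩
  choose f hf using hch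
  have hXne : X.Nonempty := by
    obtain ⟨a, ha⟩ := hPne
    exact ⟨f a, (hf a ha).1⟩
  have hX0 : (0 : ℝ) < X.card := by exact_mod_cast hXne.card_pos
  have hP0 : (0 : ℝ) < P.card := by exact_mod_cast hPne.card_pos
  obtain ⟨t, ht, hcard⟩ := Finset.exists_le_card_fiber_of_nsmul_le_card_of_maps_to
    (s := P) (t := X) (f := f) (b := (P.card : ℝ) / X.card) (fun a ha => (hf a ha).1) hXne
    (by rw [nsmul_eq_mul, mul_div_cancel₀ _ hX0.ne'])
  obtain ⟨P₁, hP₁⟩ : ∃ P₁, P₁ = P.filter (fun x => f x = t) := ⟨_, rfl⟩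
  rw [← hP₁] at hcard
  have hP₁0 : (0 : ℝ) < P₁.card := lt_of_lt_of_le (by positivity) hcard
  refine ⟨T, S.card, fun i => (S.equivFin.symm i : Γ), P₁, hTfin, hS, ?_, ?_, ?_, ?_⟩
  · rw [hP₁]; exact Finset.filter_subset _ _
  · rw [← Finset.card_pos]; exact_mod_cast hP₁0
  · rw [div_le_iff₀ hX0] at hcard
    calc (P.card : ℝ) ≤ P₁.card * X.card := hcard
      _ ≤ P₁.card * K ^ 185 := mul_le_mul_of_nonneg_left hX hP₁0.le
      _ = _ := by ring
  · intro x hx y hy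
    rw [hP₁, Finset.mem_filter] at hx hy
    have h1 := (hf x hx.1).2
    have h2 := (hf y hy.1).2
    rw [hx.2] at h1
    rw [hy.2] at h2
    have h3 := AddSubgroup.sub_mem _ h1 h2
    have e : x - t - (y - t) = x - y := by abel
    rw [e, AddSubgroup.mem_sup] at h3
    obtain ⟨τ, hτ, w, hw, hsum⟩ := h3
    have hr : Set.range (fun i : Fin S.card => (S.equivFin.symm i : Γ)) = (S : Set Γ) := by
      ext z
      constructor
      · rintro ⟨i, rfl⟩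
        exact (S.equivFin.symm i).2
      · intro hz
        exact ⟨S.equivFin ⟨z, hz⟩, by simp⟩
    rw [← hr] at hw
    obtain ⟨c, hc⟩ := closure_comb _ hw
    refine ⟨c, ?_⟩
    rw [← hc, ← hsum, add_sub_cancel_right]
    exact hτ

/-- the statement of the finite theorem -/
def FinThm (a b : ℕ) : Prop :=
  ∀ (D : ℕ) (Q : Type) [AddCommGroup Q] [Finite Q] (ψ : (Fin D → ℤ) →+ Q)
      (V : Set (Fin D → ℝ)) (K : ℝ), Convex ℝ V →
      (∀ x : Fin D → ℝ, (∀ i, |x i| ≤ 1) → x ∈ V) → 1 ≤ K →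
      ((ψ '' lat V + ψ '' lat V).ncard : ℝ) ≤ K * (ψ '' lat V).ncard →
      ∃ (g r : ℕ) (Yv : Fin r → Fin D → ℤ), 1 ≤ g ∧
        (r : ℝ) ≤ 480 * Real.log ((2 ^ 22 * (1024 * (K ^ 3) ^ 12) ^ 10) ^ 2) + 1 ∧
        ({x : Q | ∃ z : Fin D → ℤ, x = ψ z ∧ ∃ v ∈ V, ∀ j, ∃ k : ℤ,
          ∑ i, (Yv j i : ℝ) * ((z i : ℝ) - 2 * v i) = g * k}.ncard : ℝ) ≤
            a * K ^ b * (ψ '' lat V).ncard

/-- **The structure theorem in a finitely generated group.** -/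
theorem coreFg (h6 : S6.{u}) (a₁ b₁ : ℕ) (hft : FinThm a₁ b₁) {Γ : Type u} [AddCommGroup Γ]
    [DecidableEq Γ] [AddGroup.FG Γ] {D : ℕ} {V : Set (Fin D → ℝ)} (hV : Sym V)
    (hVc : ∀ x : Fin D → ℝ, (∀ i, |x i| ≤ 1) → x ∈ V) (ψ : (Fin D → ℤ) →+ Γ) {K : ℝ}
    (hK : 1 ≤ K) {P : Finset Γ} (hP : (P : Set Γ) = ψ '' lat V)
    (hdoub : ((P + P).card : ℝ) ≤ K * P.card) :
    ∃ (P₁ : Finset Γ) (d : ℕ) (B' : Set (Fin d → ℝ)) (θ : (Fin d → ℤ) →+ Γ) (H : AddSubgroup Γ),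
      P₁ ⊆ P ∧ P₁.Nonempty ∧ (P.card : ℝ) ≤ K ^ 185 * P₁.card ∧
      (d : ℝ) ≤ (480 * Real.log ((2 ^ 22 * (1024 * (K ^ 3) ^ 12) ^ 10) ^ 2) + 1) +
        (480 * Real.log K + 1) ∧ Sym B' ∧ Finite H ∧
      ((cpr (lat B') θ H).ncard : ℝ) ≤ a₁ * K ^ b₁ * P.card ∧
      ∀ x ∈ P₁, ∀ y ∈ P₁, x - y ∈ cpr (lat B') θ H := by
  classical
  have h0V : (0 : Fin D → ℝ) ∈ V := hVc 0 (fun i => by simp)
  have hPne : P.Nonempty := by
    rw [← Finset.coe_nonempty, hP]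
    refine ⟨ψ 0, 0, ?_, rfl⟩
    show re 0 ∈ V
    have : re (0 : Fin D → ℤ) = 0 := by funext i; simp [re]
    rw [this]; exact h0V
  obtain ⟨T, b, s, P₁, hTfin, hb, hP₁P, hP₁ne, hP₁c, hP₁s⟩ := popular P hPne hdoub
  -- the bound for the coordinates
  have hch : ∀ x y : Γ, ∃ c : Fin b → ℤ, x ∈ P₁ → y ∈ P₁ → x - y - ∑ i, c i • s i ∈ T := by
    intro x y
    by_cases h : x ∈ P₁ ∧ y ∈ P₁
    · obtain ⟨c, hc⟩ := hP₁s x h.1 y h.2
      exact ⟨c, fun _ _ => hc⟩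
    · exact ⟨0, fun h1 h2 => absurd ⟨h1, h2⟩ h⟩
  choose c hc using hch
  obtain ⟨R, hR⟩ : ∃ R : ℕ, R = ∑ x ∈ P₁, ∑ y ∈ P₁, ∑ i, (c x y i).natAbs := ⟨_, rfl⟩
  have hcR : ∀ x ∈ P₁, ∀ y ∈ P₁, ∀ i, |c x y i| ≤ (R : ℤ) := by
    intro x hx y hy i
    rw [Int.abs_eq_natAbs]
    have h1 : (c x y i).natAbs ≤ ∑ i, (c x y i).natAbs :=
      Finset.single_le_sum (f := fun i => (c x y i).natAbs) (fun _ _ => Nat.zero_le _)
        (Finset.mem_univ i)
    have h2 : ∑ i, (c x y i).natAbs ≤ ∑ y ∈ P₁, ∑ i, (c x y i).natAbs :=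
      Finset.single_le_sum (f := fun y => ∑ i, (c x y i).natAbs) (fun _ _ => Nat.zero_le _) hy
    have h3 : ∑ y ∈ P₁, ∑ i, (c x y i).natAbs ≤ R := by
      rw [hR]
      exact Finset.single_le_sum (f := fun x => ∑ y ∈ P₁, ∑ i, (c x y i).natAbs)
        (fun _ _ => Nat.zero_le _) hx
    exact_mod_cast h1.trans (h2.trans h3)
  -- the box
  obtain ⟨Bx, hBx⟩ : ∃ Bx : Set Γ, Bx = {y | ∃ x : Fin b → ℤ, (∀ i, |x i| ≤ (R : ℤ)) ∧
      y - ∑ i, x i • s i ∈ T} := ⟨_, rfl⟩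
  have hBxfin : Bx.Finite := by
    have h1 : Bx ⊆ (fun p : (Fin b → ℤ) × Γ => p.2 + ∑ i, p.1 i • s i) ''
        ((Set.Icc (fun _ => -(R : ℤ)) (fun _ => (R : ℤ))) ×ˢ (T : Set Γ)) := by
      rw [hBx]
      rintro y ⟨x, hx, hy⟩
      refine ⟨(x, y - ∑ i, x i • s i), ⟨⟨fun i => (abs_le.1 (hx i)).1, fun i => (abs_le.1 (hx i)).2⟩,
        hy⟩, ?_⟩
      simp only [sub_add_cancel]
    exact (((Set.finite_Icc _ _).prod (Set.toFinite _)).image _).subset h1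
  obtain ⟨Q, _, _, π, hπ⟩ := H112.exists_finite_quotient Γ (P ∪ hBxfin.toFinset)
  have hπP : Set.InjOn π (P : Set Γ) := hπ.mono (by
    intro x hx
    rw [Finset.mem_coe, Finset.mem_union]
    exact Or.inl hx)
  have hπB : Set.InjOn π Bx := hπ.mono (by
    intro x hx
    rw [Finset.mem_coe, Finset.mem_union, Set.Finite.mem_toFinset]
    exact Or.inr hx)
  have himg : (π.comp ψ) '' lat V = π '' (P : Set Γ) := by
    rw [hP, Set.image_image]
    rfl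
  have hcardP : (((π.comp ψ) '' lat V).ncard : ℝ) = P.card := by
    rw [himg, hπP.ncard_image, Set.ncard_coe_finset]
  have hdoub' : (((π.comp ψ) '' lat V + (π.comp ψ) '' lat V).ncard : ℝ) ≤
      K * ((π.comp ψ) '' lat V).ncard := by
    rw [hcardP, himg]
    have e : π '' (P : Set Γ) + π '' (P : Set Γ) = π '' ((P + P : Finset Γ) : Set Γ) := by
      rw [Finset.coe_add, Set.image_add]
    rw [e]
    have h1 := Set.ncard_image_le (f := π) (Finset.finite_toSet (P + P))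
    rw [Set.ncard_coe_finset] at h1
    exact le_trans (by exact_mod_cast h1) hdoub
  obtain ⟨g, r, Yv, hg, hr, hcard⟩ := hft D Q (π.comp ψ) V K hV.conv hVc hK hdoub'
  have hR0 : (0 : ℝ) ≤ R := Nat.cast_nonneg _
  obtain ⟨d, B', θ, H, hd, hB', hH, hmem⟩ := h6 Γ (r + b) (relG ψ g Yv s T) (relB Yv V R)
    (relB_sym Yv V hV hR0) (by
      refine Set.Finite.subset (Set.toFinite (T : Set Γ)) ?_
      rintro y ⟨hy, -⟩
      simpa using hy)
  have hEB : cpr (lat B') θ H ⊆ Bx := by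
    intro y hy
    obtain ⟨c', ⟨-, hc'2⟩, hc'3, -⟩ := (hmem y).2 hy
    rw [hBx]
    refine ⟨fun i => c' (Fin.natAdd r i), fun i => ?_, hc'3⟩
    have := hc'2 i
    simp only [re] at this
    exact_mod_cast this
  refine ⟨P₁, d, B', θ, H, hP₁P, hP₁ne, hP₁c, ?_, hB', hH, ?_, ?_⟩
  · have h1 : (d : ℝ) ≤ ((r + b : ℕ) : ℝ) := by exact_mod_cast hd
    push_cast at h1
    linarith
  · rw [← (hπB.mono hEB).ncard_image]
    rw [hcardP] at hcard
    refine le_trans ?_ hcard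
    have h1 : π '' cpr (lat B') θ H ⊆ {x : Q | ∃ z : Fin D → ℤ, x = (π.comp ψ) z ∧ ∃ v ∈ V,
        ∀ j, ∃ k : ℤ, ∑ i, (Yv j i : ℝ) * ((z i : ℝ) - 2 * v i) = g * k} := by
      rintro _ ⟨y, hy, rfl⟩
      obtain ⟨c', ⟨⟨v, hv, hc'v⟩, -⟩, -, z, hz, hdvd⟩ := (hmem y).2 hy
      simp only at hz
      refine ⟨z, by rw [hz]; rfl, v, hv, fun j => ?_⟩
      obtain ⟨k, hk⟩ := hdvd j
      simp only at hk
      refine ⟨-k, ?_⟩
      have h2 := hc'v j
      simp only [re] at h2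
      have h3 : ((c' (Fin.castAdd b j) : ℤ) : ℝ) - ∑ i, (Yv j i : ℝ) * z i = g * k := by
        have : ((c' (Fin.castAdd b j) - ∑ i, Yv j i * z i : ℤ) : ℝ) = ((g * k : ℤ) : ℝ) := by
          rw [hk]
        push_cast at this
        exact this
      simp only [mul_sub, Finset.sum_sub_distrib]
      rw [← h2]
      push_cast
      linarith
    exact_mod_cast Set.ncard_le_ncard h1 (Set.toFinite _)
  · intro x hx y hy
    rw [← hmem]
    have hxV : x ∈ ψ '' lat V := by rw [← hP]; exact Finset.mem_coe.2 (hP₁P hx)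
    have hyV : y ∈ ψ '' lat V := by rw [← hP]; exact Finset.mem_coe.2 (hP₁P hy)
    obtain ⟨z, hz, rfl⟩ := hxV
    obtain ⟨w, hw, rfl⟩ := hyV
    refine ⟨fun k => Fin.addCases (fun j => ∑ i, Yv j i * (z i - w i))
      (fun i => c (ψ z) (ψ w) i) k, ⟨?_, ?_⟩, ?_, z - w, ?_, ?_⟩
    · refine ⟨(1 / 2 : ℝ) • re z + (1 / 2 : ℝ) • (-re w),
        hV.conv hz (hV.symm _ hw) (by norm_num) (by norm_num) (by norm_num), fun j => ?_⟩
      simp only [re, Fin.addCases_left]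
      push_cast
      refine Finset.sum_congr rfl fun i _ => ?_
      simp only [Pi.add_apply, Pi.smul_apply, Pi.neg_apply, smul_eq_mul]
      have hre : ∀ z : Fin D → ℤ, re z i = z i := fun _ => rfl
      rw [hre z, hre w]
      ring
    · intro i
      simp only [re, Fin.addCases_right]
      exact_mod_cast hcR _ hx _ hy i
    · simp only [Fin.addCases_right]
      exact hc _ _ hx hy
    · simp only [map_sub]
    · intro j
      simp only [Fin.addCases_left, Pi.sub_apply, sub_self]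
      exact dvd_zero _

end Pool.Agent.H98.Gap
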