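import Pool.Agent.H98.Gap.Stmt
import Pool.Agent.H98.Big.Main

/-!
# Progressions of arbitrary rank: auxiliary statements for the finite theorem
-/

set_option autoImplicit false

namespace Pool.Agent.H98.Gap

open Finset Pool.Agent.Y806.DF Pool.Agent.H608VF
open scoped Pointwise

/-- the Pluennecke inequality, with real numbers -/
theorem plun {G : Type*} [AddCommGroup G] [DecidableEq G] {S : Finset G} (hS : S.Nonempty)
    {K : ℝ} (h : ((S + S).card : ℝ) ≤ K * S.card) (m n : ℕ) :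
    ((m • S - n • S).card : ℝ) ≤ K ^ (m + n) * S.card := by
  have hS0 : (0 : ℝ) < S.card := by exact_mod_cast hS.card_pos
  have h1 := Finset.pluennecke_ruzsa_inequality_nsmul_sub_nsmul_add hS S m n
  have h2 : ((m • S - n • S).card : ℝ) ≤ (((S + S).card : ℝ) / S.card) ^ (m + n) * S.card := by
    have h3 := (NNRat.cast_le (K := ℝ)).2 h1
    push_cast at h3
    exact h3
  have h4 : ((S + S).card : ℝ) / S.card ≤ K := by rwa [div_le_iff₀ hS0]
  refine h2.trans (mul_le_mul_of_nonneg_right ?_ hS0.le)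
  exact pow_le_pow_left₀ (by positivity) h4 _

theorem blow_doubling (h7 : S7) {D : ℕ} {Q : Type} [AddCommGroup Q] [Finite Q]
    (ψ : (Fin D → ℤ) →+ Q) (g M : ℕ) [NeZero (g * M)] (hgψ : ∀ z, ψ (g • z) = 0) (P : Set Q)
    (hPr : P ⊆ Set.range ψ) (hne : P.Nonempty) (hc : cube ψ ⊆ P) (K : ℝ)
    (hP : ((P + P).ncard : ℝ) ≤ K * P.ncard) :
    (((blow ψ g M P + blow ψ g M P).card : ℝ) ≤ K ^ 3 * (blow ψ g M P).card) ∧
    (((blow ψ g M P - blow ψ g M P).card : ℝ) ≤ K ^ 3 * (blow ψ g M P).card) := by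
  classical
  have : Fintype Q := Fintype.ofFinite Q
  obtain ⟨⟨κ, hκ, hcard⟩, hadd, hsub, -⟩ := h7 D Q ψ g M hgψ
  obtain ⟨S, hS⟩ : ∃ S : Finset Q, (S : Set Q) = P := ⟨P.toFinset, by simp⟩
  have hSne : S.Nonempty := by
    rw [← Finset.coe_nonempty, hS]; exact hne
  have hcardS : (P.ncard : ℝ) = S.card := by rw [← hS, Set.ncard_coe_finset]
  have hdS : ((S + S).card : ℝ) ≤ K * S.card := by
    rw [← hS] at hP
    rw [← Finset.coe_add, Set.ncard_coe_finset, Set.ncard_coe_finset] at hP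
    exact hP
  have hr0 : ∀ x ∈ S, ∃ z, ψ z = x := by
    intro x hx
    exact hPr (by rw [← hS]; exact Finset.mem_coe.2 hx)
  have hcr : ∀ x ∈ cube ψ, ∃ z, ψ z = x := by
    rintro x ⟨ε, -, rfl⟩
    exact ⟨ε, rfl⟩
  have hPP : P + P + cube ψ ⊆ ((3 • S - 0 • S : Finset Q) : Set Q) := by
    rintro _ ⟨_, ⟨a, ha, b, hb, rfl⟩, c, hcc, rfl⟩
    rw [zero_smul, sub_zero, show (3 : ℕ) = 1 + 1 + 1 by norm_num, add_smul, add_smul, one_smul,
      Finset.coe_add, Finset.coe_add, hS]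
    exact ⟨_, ⟨a, ha, b, hb, rfl⟩, c, hc hcc, rfl⟩
  have hPm : P - P - cube ψ ⊆ ((1 • S - 2 • S : Finset Q) : Set Q) := by
    rintro _ ⟨_, ⟨a, ha, b, hb, rfl⟩, c, hcc, rfl⟩
    rw [show (2 : ℕ) = 1 + 1 by norm_num, add_smul, one_smul,
      Finset.coe_sub, Finset.coe_add, hS]
    exact ⟨a, ha, b + c, ⟨b, hb, c, hc hcc, rfl⟩, by simp only; abel⟩
  have hPPr : P + P + cube ψ ⊆ Set.range ψ := by
    rintro _ ⟨_, ⟨a, ha, b, hb, rfl⟩, c, hcc, rfl⟩
    obtain ⟨z1, rfl⟩ := hPr ha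
    obtain ⟨z2, rfl⟩ := hPr hb
    obtain ⟨z3, rfl⟩ := hcr c hcc
    exact ⟨z1 + z2 + z3, by rw [map_add, map_add]⟩
  have hPmr : P - P - cube ψ ⊆ Set.range ψ := by
    rintro _ ⟨_, ⟨a, ha, b, hb, rfl⟩, c, hcc, rfl⟩
    obtain ⟨z1, rfl⟩ := hPr ha
    obtain ⟨z2, rfl⟩ := hPr hb
    obtain ⟨z3, rfl⟩ := hcr c hcc
    exact ⟨z1 - z2 - z3, by rw [map_sub, map_sub]⟩
  have e1 : (((blow ψ g M P).card : ℕ) : ℝ) = κ * S.card := by
    rw [hcard P hPr, Nat.cast_mul, hcardS]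
  have hκ0 : (0 : ℝ) ≤ κ := Nat.cast_nonneg _
  constructor
  · have h1 := Finset.card_le_card (hadd P P)
    rw [hcard _ hPPr] at h1
    have h2 := Set.ncard_le_ncard hPP (Finset.finite_toSet _)
    rw [Set.ncard_coe_finset] at h2
    have h3 := plun hSne hdS 3 0
    have h4 : (((P + P + cube ψ).ncard : ℕ) : ℝ) ≤ K ^ 3 * S.card :=
      le_trans (by exact_mod_cast h2) h3
    have h5 : (((blow ψ g M P + blow ψ g M P).card : ℕ) : ℝ) ≤ κ * (P + P + cube ψ).ncard := by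
      exact_mod_cast h1
    rw [e1]
    calc _ ≤ _ := h5
      _ ≤ κ * (K ^ 3 * S.card) := mul_le_mul_of_nonneg_left h4 hκ0
      _ = _ := by ring
  · have h1 := Finset.card_le_card (hsub P P)
    rw [hcard _ hPmr] at h1
    have h2 := Set.ncard_le_ncard hPm (Finset.finite_toSet _)
    rw [Set.ncard_coe_finset] at h2
    have h3 := plun hSne hdS 1 2
    have h4 : (((P - P - cube ψ).ncard : ℕ) : ℝ) ≤ K ^ 3 * S.card :=
      le_trans (by exact_mod_cast h2) h3
    have h5 : (((blow ψ g M P - blow ψ g M P).card : ℕ) : ℝ) ≤ κ * (P - P - cube ψ).ncard := by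
      exact_mod_cast h1
    rw [e1]
    calc _ ≤ _ := h5
      _ ≤ κ * (K ^ 3 * S.card) := mul_le_mul_of_nonneg_left h4 hκ0
      _ = _ := by ring

/-- generators of a subgroup of a group with few generators -/
theorem gens {D : ℕ} (W : AddSubgroup (Fin D → ℤ)) (S₀ : Finset (Fin D → ℤ))
    (h : W ≤ AddSubgroup.closure (S₀ : Set (Fin D → ℤ))) :
    ∃ (r : ℕ) (Yv : Fin r → Fin D → ℤ), r ≤ S₀.card ∧ (∀ j, Yv j ∈ W) ∧
      ∀ Y ∈ W, ∃ c : Fin r → ℤ, Y = ∑ j, c j • Yv j := by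
  classical
  obtain ⟨L, hL⟩ : ∃ L : Submodule ℤ (Fin D → ℤ), L = AddSubgroup.toIntSubmodule W := ⟨_, rfl⟩
  have hmem : ∀ x, x ∈ L ↔ x ∈ W := by intro x; rw [hL]; rfl
  have hle : L ≤ Submodule.span ℤ (S₀ : Set (Fin D → ℤ)) := by
    intro x hx
    have h1 := h ((hmem x).1 hx)
    clear hx
    induction h1 using AddSubgroup.closure_induction with
    | mem x hx => exact Submodule.subset_span hx
    | zero => exact Submodule.zero_mem _
    | add x y _ _ hx hy => exact Submodule.add_mem _ hx hy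
    | neg x _ hx => exact Submodule.neg_mem _ hx
  obtain ⟨d, b⟩ := Submodule.basisOfPid (Pi.basisFun ℤ (Fin D)) L
  have hd : d ≤ S₀.card := by
    have h1 : Module.finrank ℤ L = d := by
      rw [Module.finrank_eq_card_basis b, Fintype.card_fin]
    have h2 := Submodule.finrank_mono hle
    have h3 := finrank_span_finset_le_card (R := ℤ) S₀
    rw [Set.finrank] at h3
    omega
  refine ⟨d, fun j => (b j : Fin D → ℤ), hd, fun j => (hmem _).1 (b j).2, ?_⟩
  intro Y hY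
  have h1 := b.sum_repr ⟨Y, (hmem Y).2 hY⟩
  refine ⟨fun j => b.repr ⟨Y, (hmem Y).2 hY⟩ j, ?_⟩
  have h2 := congrArg (fun x : L => (x : Fin D → ℤ)) h1
  simp only [Submodule.coe_sum, Submodule.coe_smul] at h2
  exact h2.symm

/-- representatives of small absolute value -/
def vm {D n : ℕ} (Y : Fin D → ZMod n) : Fin D → ℤ := fun i => (Y i).valMinAbs

/-- reduction -/
def cz {D : ℕ} (n : ℕ) : (Fin D → ℤ) →+ (Fin D → ZMod n) where
  toFun z := fun i => (z i : ZMod n)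
  map_zero' := by funext i; simp
  map_add' x y := by funext i; simp

theorem cz_vm {D n : ℕ} (Y : Fin D → ZMod n) : cz n (vm Y) = Y := by
  funext i
  exact ZMod.coe_valMinAbs (Y i)

theorem vm_inj {D n : ℕ} : Function.Injective (vm : (Fin D → ZMod n) → (Fin D → ℤ)) := by
  intro x y h
  rw [← cz_vm x, ← cz_vm y, h]

/-- the energy is not changed by lifting small frequencies to the integers -/
theorem energy_lift {D n : ℕ} [NeZero n] (Y : Finset (Fin D → ZMod n)) (R : ℝ)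
    (hR : ∀ y ∈ Y, ∀ i, |((y i).valMinAbs : ℝ)| ≤ R) (hn : 4 * R < n) :
    (Finset.addEnergy Y Y) ≤ (Finset.addEnergy (Y.image vm) (Y.image vm)) := by
  classical
  unfold Finset.addEnergy
  refine Finset.card_le_card_of_injOn
    (fun x => ((vm x.1.1, vm x.1.2), (vm x.2.1, vm x.2.2))) ?_ ?_
  · intro x hx
    simp only [Finset.coe_filter, Finset.mem_product, Set.mem_setOf_eq] at hx
    simp only [Finset.coe_filter, Finset.mem_product, Set.mem_setOf_eq]
    obtain ⟨⟨⟨h1, h2⟩, h3, h4⟩, h5⟩ := hx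
    refine ⟨⟨⟨Finset.mem_image_of_mem _ h1, Finset.mem_image_of_mem _ h2⟩,
      Finset.mem_image_of_mem _ h3, Finset.mem_image_of_mem _ h4⟩, ?_⟩
    funext i
    have e1 := congrFun h5 i
    simp only [Pi.add_apply] at e1 ⊢
    have e2 : ((vm x.1.1 i + vm x.2.1 i - (vm x.1.2 i + vm x.2.2 i) : ℤ) : ZMod n) = 0 := by
      push_cast
      simp only [vm, ZMod.coe_valMinAbs]
      rw [e1, sub_self]
    rw [ZMod.intCast_zmod_eq_zero_iff_dvd] at e2
    have b1 := hR _ h1 i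
    have b2 := hR _ h2 i
    have b3 := hR _ h3 i
    have b4 := hR _ h4 i
    have e3 : |(vm x.1.1 i + vm x.2.1 i - (vm x.1.2 i + vm x.2.2 i) : ℤ)| < (n : ℤ) := by
      have : |((vm x.1.1 i + vm x.2.1 i - (vm x.1.2 i + vm x.2.2 i) : ℤ) : ℝ)| < n := by
        push_cast
        simp only [vm]
        rw [abs_le] at b1 b2 b3 b4
        rw [abs_lt]
        constructor <;> linarith [b1.1, b1.2, b2.1, b2.2, b3.1, b3.2, b4.1, b4.2]
      exact_mod_cast this
    have e4 := Int.eq_zero_of_abs_lt_dvd e2 e3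
    linarith
  · intro x _ y _ hxy
    simp only [Prod.mk.injEq] at hxy
    obtain ⟨⟨h1, h2⟩, h3, h4⟩ := hxy
    ext1
    · exact Prod.ext (vm_inj h1) (vm_inj h2)
    · exact Prod.ext (vm_inj h3) (vm_inj h4)

end Pool.Agent.H98.Gap
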