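import Pool.Agent.H98.Gap.Fin1

/-!
# Progressions of arbitrary rank: the finite theorem
-/

set_option autoImplicit false

namespace Pool.Agent.H98.Gap

open Finset Pool.Agent.Y806.DF Pool.Agent.H608VF
open scoped Pointwise

/-- the reduction of an integer combination -/
theorem sum_cast {D n : ℕ} (Y z : Fin D → ℤ) :
    ∑ i, (cz n Y) i * (cz n z) i = ((∑ i, Y i * z i : ℤ) : ZMod n) := by
  push_cast
  rfl

theorem energy_le {G : Type*} [AddCommGroup G] [DecidableEq G] (Z : Finset G) :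
    Finset.addEnergy Z Z ≤ Z.card ^ 3 := by
  have e : Z.card ^ 3 = (Z ×ˢ (Z ×ˢ Z)).card := by
    rw [Finset.card_product, Finset.card_product]; ring
  rw [e]
  unfold Finset.addEnergy
  refine Finset.card_le_card_of_injOn (fun x => (x.1.1, (x.1.2, x.2.1))) ?_ ?_
  · intro x hx
    simp only [Finset.coe_filter, Finset.mem_product] at hx
    simp only [Finset.coe_product, Set.mem_prod, Finset.mem_coe]
    exact ⟨hx.1.1.1, hx.1.1.2, hx.1.2.1⟩
  · intro x hx y hy hxy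
    have hx2 := (Finset.mem_filter.1 (Finset.mem_coe.1 hx)).2
    have hy2 := (Finset.mem_filter.1 (Finset.mem_coe.1 hy)).2
    simp only [Prod.mk.injEq] at hxy
    obtain ⟨h1, h2, h3⟩ := hxy
    rw [h1, h2, h3, hy2] at hx2
    have h4 : x.2.2 = y.2.2 := (add_left_cancel hx2).symm
    exact Prod.ext (Prod.ext h1 h2) (Prod.ext h3 h4)

/-- Frequencies: a dense part of the spectrum is in a coset of a subgroup of small rank. -/
theorem freq (h1 : S1) (h4 : S4) {D n : ℕ} [NeZero n] (S : Finset (Fin D → ZMod n)) (L R Ke : ℝ)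
    (hS : S.Nonempty) (hL : 1 ≤ L) (hKe : Ke = 1024 * L ^ 12)
    (hSS : ((S - S).card : ℝ) ≤ L * S.card)
    (hR : ∀ y ∈ spec S (1 / (8 * L ^ 3)), ∀ i, |((y i).valMinAbs : ℝ)| ≤ R) (hn : 4 * R < n) :
    ∃ (B S₀ : Finset (Fin D → ℤ)) (t₀ : Fin D → ℤ), B.Nonempty ∧
      (∀ y ∈ B, cz n y ∈ spec S (1 / (8 * L ^ 3)) ∧ vm (cz n y) = y) ∧
      ((n : ℝ) ^ D) ≤ 2 * L * S.card * (8 * Ke * ((2 ^ 22 * Ke ^ 10) ^ 2) ^ 185 * B.card) ∧
      (S₀.card : ℝ) ≤ 480 * Real.log ((2 ^ 22 * Ke ^ 10) ^ 2) + 1 ∧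
      ∀ y ∈ B, y - t₀ ∈ AddSubgroup.closure (S₀ : Set (Fin D → ℤ)) := by
  classical
  have hL0 : 0 < L := by linarith
  obtain ⟨a1, a2⟩ := h1 D n S L hS hL hSS
  obtain ⟨Z, hZ⟩ : ∃ Z, Z = spec S (1 / (8 * L ^ 3)) := ⟨_, rfl⟩
  rw [← hZ] at a1 a2 hR ⊢
  have hS0 : (0 : ℝ) < S.card := by exact_mod_cast hS.card_pos
  have hn0 : (0 : ℝ) < (n : ℝ) ^ D := by
    have : (0 : ℝ) < n := by exact_mod_cast Nat.pos_of_ne_zero (NeZero.ne n)
    positivity
  have hE : ((Finset.addEnergy Z Z : ℕ) : ℝ) ≤ (Z.card : ℝ) ^ 3 := by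
    have := energy_le Z
    exact_mod_cast this
  have hZ0 : (0 : ℝ) ≤ Z.card := Nat.cast_nonneg _
  -- lower bound for the size of the spectrum
  have hbig : (n : ℝ) ^ D ≤ 2 * L * S.card * Z.card := by
    by_contra hcon
    push Not at hcon
    have h3 : (2 * L * S.card * Z.card) ^ 3 < ((n : ℝ) ^ D) ^ 3 :=
      pow_lt_pow_left₀ hcon (by positivity) (by norm_num)
    have h4 : ((n : ℝ) ^ D) ^ 3 ≤ 2 * L ^ 3 * (S.card : ℝ) ^ 3 * (Z.card : ℝ) ^ 3 :=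
      a2.trans (mul_le_mul_of_nonneg_left hE (by positivity))
    have h5 : 2 * L ^ 3 * (S.card : ℝ) ^ 3 * (Z.card : ℝ) ^ 3 ≤ (2 * L * S.card * Z.card) ^ 3 := by
      have : 0 ≤ L ^ 3 * (S.card : ℝ) ^ 3 * (Z.card : ℝ) ^ 3 := by positivity
      nlinarith
    linarith
  have hZne : Z.Nonempty := by
    rw [Finset.nonempty_iff_ne_empty]
    rintro rfl
    simp only [Finset.card_empty, Nat.cast_zero, mul_zero] at hbig
    linarith
  -- energy
  have hen : (Z.card : ℝ) ^ 3 ≤ Ke * ((Finset.addEnergy Z Z : ℕ) : ℝ) := by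
    have h3 : ((Z.card : ℝ) * S.card) ^ 3 ≤ ((8 * L ^ 3) * (n : ℝ) ^ D) ^ 3 :=
      pow_le_pow_left₀ (by positivity) a1 3
    have h4 : ((8 * L ^ 3) * (n : ℝ) ^ D) ^ 3 ≤
        512 * L ^ 9 * (2 * L ^ 3 * (S.card : ℝ) ^ 3 * ((Finset.addEnergy Z Z : ℕ) : ℝ)) := by
      calc ((8 * L ^ 3) * (n : ℝ) ^ D) ^ 3 = 512 * L ^ 9 * ((n : ℝ) ^ D) ^ 3 := by ring
        _ ≤ _ := mul_le_mul_of_nonneg_left a2 (by positivity)
    have h5 : (Z.card : ℝ) ^ 3 * (S.card : ℝ) ^ 3 ≤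
        (Ke * ((Finset.addEnergy Z Z : ℕ) : ℝ)) * (S.card : ℝ) ^ 3 := by
      calc (Z.card : ℝ) ^ 3 * (S.card : ℝ) ^ 3 = ((Z.card : ℝ) * S.card) ^ 3 := by ring
        _ ≤ _ := h3.trans h4
        _ = _ := by rw [hKe]; ring
    exact le_of_mul_le_mul_right h5 (by positivity)
  have hen' : ((Z.image vm).card : ℝ) ^ 3 ≤
      Ke * ((Finset.addEnergy (Z.image vm) (Z.image vm) : ℕ) : ℝ) := by
    rw [Finset.card_image_of_injective _ vm_inj]
    refine hen.trans (mul_le_mul_of_nonneg_left ?_ (by rw [hKe]; positivity))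
    exact_mod_cast energy_lift Z R hR hn
  have hKe1 : 1 ≤ Ke := by
    rw [hKe]
    have := one_le_pow₀ hL (n := 12)
    linarith
  obtain ⟨B, S₀, t₀, hBZ, hBne, hBc, hS₀, hBt⟩ := h4 D (Z.image vm) Ke (hZne.image _) hKe1 hen'
  rw [Finset.card_image_of_injective _ vm_inj] at hBc
  refine ⟨B, S₀, t₀, hBne, ?_, ?_, hS₀, hBt⟩
  · intro y hy
    obtain ⟨x, hx, rfl⟩ := Finset.mem_image.1 (hBZ hy)
    rw [cz_vm]
    exact ⟨hx, rfl⟩
  · refine hbig.trans ?_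
    exact mul_le_mul_of_nonneg_left hBc (by positivity)

/-- the image of a subgroup of frequencies -/
theorem ann_mem {D n : ℕ} (B : Set (Fin D → ℤ)) (h : Fin D → ℤ)
    (hh : ∀ Y ∈ B, (n : ℤ) ∣ ∑ i, Y i * h i) :
    cz n h ∈ ann (AddSubgroup.closure ((cz n) '' B)) := by
  intro Y hY
  induction hY using AddSubgroup.closure_induction with
  | mem x hx =>
    obtain ⟨Y, hY, rfl⟩ := hx
    rw [sum_cast, ZMod.intCast_zmod_eq_zero_iff_dvd]
    exact hh Y hY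
  | zero => simp
  | add x y _ _ hx hy =>
    simp only [Pi.add_apply, add_mul, Finset.sum_add_distrib, hx, hy, add_zero]
  | neg x _ hx =>
    simp only [Pi.neg_apply, neg_mul, Finset.sum_neg_distrib, hx, neg_zero]

/-- **The iterated sumset of the blow-up absorbs the periods.** -/
theorem absorb (h2 : S2) (h3 : S3) {D n : ℕ} [NeZero n] (S : Finset (Fin D → ZMod n))
    (L δ X : ℝ) (hS : S.Nonempty) (hL : 1 ≤ L) (hδ : 0 < δ) (hX : 0 < X)
    (hSS : ((S + S).card : ℝ) ≤ L * S.card) (B : Finset (Fin D → ℤ)) (hB : B.Nonempty)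
    (hBs : ∀ y ∈ B, cz n y ∈ spec S δ ∧ vm (cz n y) = y)
    (hcard : ((n : ℝ) ^ D) ≤ X * S.card * B.card) (k : ℕ) :
    (((k • S : Finset (Fin D → ZMod n)) : Set (Fin D → ZMod n)) +
      (ann (AddSubgroup.closure ((cz n) '' {y | ∃ a ∈ B, ∃ b ∈ B, y = a - b})) :
        Set (Fin D → ZMod n))).ncard ≤ (δ / X)⁻¹ * L ^ (k + 1) * (S.card : ℝ) := by
  classical
  obtain ⟨b₀, hb₀⟩ := hB
  obtain ⟨W, hW⟩ : ∃ W, W = AddSubgroup.closure ((cz n) '' {y | ∃ a ∈ B, ∃ b ∈ B, y = a - b}) :=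
    ⟨_, rfl⟩
  rw [← hW]
  have hS0 : (0 : ℝ) < S.card := by exact_mod_cast hS.card_pos
  have hB0 : (0 : ℝ) < B.card := by exact_mod_cast (Finset.card_pos.2 ⟨b₀, hb₀⟩)
  have hinj : Set.InjOn (cz n) (B : Set (Fin D → ℤ)) := by
    intro x hx y hy hxy
    rw [← (hBs x hx).2, ← (hBs y hy).2, hxy]
  obtain ⟨s, hs, hcs⟩ := h2 D n S δ (cz n b₀) W (B.image (cz n)) hS hδ.le (by
    intro y hy
    obtain ⟨x, hx, rfl⟩ := Finset.mem_image.1 hy
    exact (hBs x hx).1) (by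
    intro y hy
    obtain ⟨x, hx, rfl⟩ := Finset.mem_image.1 hy
    rw [hW, ← map_sub]
    exact AddSubgroup.subset_closure ⟨x - b₀, ⟨x, hx, b₀, hb₀, rfl⟩, rfl⟩)
  rw [Finset.card_image_of_injOn hinj] at hcs
  refine h3 (Fin D → ZMod n) S (ann W) L (δ / X) s hS hL (by positivity) hSS ?_ k
  obtain ⟨F, hF⟩ : ∃ F : ℝ, F = ({s' : Fin D → ZMod n | s' ∈ S ∧ s' - s ∈ ann W}.ncard : ℝ) :=
    ⟨_, rfl⟩
  rw [← hF] at hcs ⊢
  have hF0 : 0 ≤ F := by rw [hF]; positivity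
  have h5 : (δ * Nat.card (ann W)) * (B.card * S.card) ≤ (X * F) * (B.card * S.card) := by
    calc _ = δ * B.card * S.card * Nat.card (ann W) := by ring
      _ ≤ _ := hcs
      _ ≤ (X * S.card * B.card) * F := mul_le_mul_of_nonneg_right hcard hF0
      _ = _ := by ring
  have h6 := le_of_mul_le_mul_right h5 (by positivity)
  rw [div_mul_eq_mul_div, div_le_iff₀ hX]
  linarith

end Pool.Agent.H98.Gap
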