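import Pool.Agent.H98.Gap.Fin2

/-!
# Progressions of arbitrary rank: the finite theorem
-/

set_option autoImplicit false

namespace Pool.Agent.H98.Gap

open Finset Pool.Agent.Y806.DF Pool.Agent.H608VF
open scoped Pointwise

theorem comb {D r : ℕ} (Yv : Fin r → Fin D → ℤ) (c : Fin r → ℤ) (w : Fin D → ℝ) (g : ℕ)
    (h : ∀ j, ∃ k : ℤ, ∑ i, (Yv j i : ℝ) * w i = g * k) :
    ∃ k : ℤ, ∑ i, (((∑ j, c j • Yv j) i : ℤ) : ℝ) * w i = g * k := by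
  choose k hk using h
  refine ⟨∑ j, c j * k j, ?_⟩
  have e : ∀ i, (((∑ j, c j • Yv j) i : ℤ) : ℝ) * w i = ∑ j, (c j : ℝ) * ((Yv j i : ℝ) * w i) := by
    intro i
    rw [Finset.sum_apply]
    push_cast
    rw [Finset.sum_mul]
    refine Finset.sum_congr rfl fun j _ => ?_
    simp only [Pi.smul_apply, smul_eq_mul]
    push_cast
    ring
  rw [Finset.sum_congr rfl fun i _ => e i, Finset.sum_comm]
  push_cast
  rw [Finset.mul_sum]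
  refine Finset.sum_congr rfl fun j _ => ?_
  rw [← Finset.mul_sum, hk j]
  ring

/-- one element of the blow-up of the candidates -/
theorem inclusion (h5 : S5) (h9 : S9) {D : ℕ} (g R N M : ℕ) (V : Set (Fin D → ℝ)) (hV : Convex ℝ V)
    (hVc : ∀ x : Fin D → ℝ, (∀ i, |x i| ≤ 1) → x ∈ V) (hg : 1 ≤ g) (hgN : g ≤ N) (hDR : D * R < N)
    (hNM : (N ^ D).factorial ∣ M) (hM : 0 < M) (𝒴 : Set (Fin D → ℤ))
    (hYR : ∀ Y ∈ 𝒴, ∀ i, |Y i| ≤ (R : ℤ)) (z q : Fin D → ℤ) (hq : ∀ i, 0 ≤ q i ∧ q i < M)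
    (v : Fin D → ℝ) (hv : v ∈ V) (hz : ∀ Y ∈ 𝒴, ∃ k : ℤ, ∑ i, (Y i : ℝ) * ((z i : ℝ) - 2 * v i) = g * k) :
    ∃ h z₁ q₁ : Fin D → ℤ, cz (g * M) h ∈ ann (AddSubgroup.closure ((cz (g * M)) '' 𝒴)) ∧
      (∀ i, 0 ≤ q₁ i ∧ q₁ i < M) ∧ (∃ p : Fin (11 + 1) → Fin D → ℤ, (∀ j, p j ∈ lat V) ∧ z₁ = ∑ j, p j) ∧
      ∀ i, (M : ℤ) * z i + q i = h i + (M * z₁ i + q₁ i) := by
  obtain ⟨h, hh, hhM⟩ := h5 D g R N M hg hgN hDR hNM hM 𝒴 hYR (fun i => (z i : ℝ) - 2 * v i) hz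
  have hM0 : (0 : ℤ) < M := by exact_mod_cast hM
  have hMr : (0 : ℝ) < M := by exact_mod_cast hM
  have hdiv : ∀ i, (M : ℤ) * z i - h i + q i = M * ((M * z i - h i + q i) / M) +
      (M * z i - h i + q i) % M := fun i => (Int.mul_ediv_add_emod _ _).symm
  have hmod0 : ∀ i, 0 ≤ ((M : ℤ) * z i - h i + q i) % M := fun i => Int.emod_nonneg _ hM0.ne'
  have hmod1 : ∀ i, ((M : ℤ) * z i - h i + q i) % M < M := fun i => Int.emod_lt_of_pos _ hM0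
  obtain ⟨z₁, hz₁⟩ : ∃ z₁ : Fin D → ℤ, z₁ = fun i => ((M : ℤ) * z i - h i + q i) / M := ⟨_, rfl⟩
  obtain ⟨q₁, hq₁⟩ : ∃ q₁ : Fin D → ℤ, q₁ = fun i => ((M : ℤ) * z i - h i + q i) % M := ⟨_, rfl⟩
  have hd : ∀ i, (M : ℤ) * z i - h i + q i = M * z₁ i + q₁ i := by
    intro i; rw [hz₁, hq₁]; exact hdiv i
  have hq₁0 : ∀ i, 0 ≤ q₁ i ∧ q₁ i < M := by
    intro i; rw [hq₁]; exact ⟨hmod0 i, hmod1 i⟩
  refine ⟨h, z₁, q₁, ann_mem 𝒴 h ?_, hq₁0, ?_, ?_⟩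
  · intro Y hY
    exact hh Y hY
  · refine h9 D 4 V hV hVc (by norm_num) z₁ ⟨fun i => (z₁ i : ℝ) / 4, ?_, fun i => ?_⟩
    · have hx : (fun i => ((z₁ i : ℝ) - 2 * v i) / 2) ∈ V := by
        refine hVc _ fun i => ?_
        have e1 : (M : ℝ) * z i - h i + q i = M * z₁ i + q₁ i := by exact_mod_cast hd i
        have e2 := hhM i
        have b1 := (hq i).1
        have b2 := (hq i).2
        have b3 := (hq₁0 i).1
        have b4 := (hq₁0 i).2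
        have b1' : (0 : ℝ) ≤ q i := by exact_mod_cast b1
        have b2' : (q i : ℝ) < M := by exact_mod_cast b2
        have b3' : (0 : ℝ) ≤ q₁ i := by exact_mod_cast b3
        have b4' : (q₁ i : ℝ) < M := by exact_mod_cast b4
        have e3 : (M : ℝ) * ((z₁ i : ℝ) - 2 * v i) = (M * ((z i : ℝ) - 2 * v i) - h i) + (q i - q₁ i) := by
          linarith
        have e4 : |(M : ℝ) * ((z₁ i : ℝ) - 2 * v i)| ≤ 2 * M := by
          rw [e3]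
          refine (abs_add_le _ _).trans ?_
          have : |(q i : ℝ) - q₁ i| ≤ M := by
            rw [abs_le]; constructor <;> linarith
          linarith
        rw [abs_mul, abs_of_pos hMr] at e4
        rw [abs_div, abs_two]
        rw [div_le_one (by norm_num)]
        by_contra hcon
        push Not at hcon
        have := mul_lt_mul_of_pos_left hcon hMr
        linarith
      have h1 := hV hv hx (show (0 : ℝ) ≤ 1 / 2 by norm_num) (show (0 : ℝ) ≤ 1 / 2 by norm_num)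
        (by norm_num)
      have e5 : (1 / 2 : ℝ) • v + (1 / 2 : ℝ) • (fun i => ((z₁ i : ℝ) - 2 * v i) / 2) =
          fun i => (z₁ i : ℝ) / 4 := by
        funext i
        simp only [Pi.add_apply, Pi.smul_apply, smul_eq_mul]
        ring
      rw [e5] at h1
      exact h1
    · push_cast
      ring
  · intro i
    have := hd i
    linarith

/-- **The finite theorem.** -/
theorem mainFin (h1 : S1) (h2 : S2) (h3 : S3) (h4 : S4) (h5 : S5) (h7 : S7) (h8 : S8) (h9 : S9) :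
    ∃ a b : ℕ, 1 ≤ a ∧ ∀ (D : ℕ) (Q : Type) [AddCommGroup Q] [Finite Q] (ψ : (Fin D → ℤ) →+ Q)
      (V : Set (Fin D → ℝ)) (K : ℝ), Convex ℝ V →
      (∀ x : Fin D → ℝ, (∀ i, |x i| ≤ 1) → x ∈ V) → 1 ≤ K →
      ((ψ '' lat V + ψ '' lat V).ncard : ℝ) ≤ K * (ψ '' lat V).ncard →
      ∃ (g r : ℕ) (Yv : Fin r → Fin D → ℤ), 1 ≤ g ∧
        (r : ℝ) ≤ 480 * Real.log ((2 ^ 22 * (1024 * (K ^ 3) ^ 12) ^ 10) ^ 2) + 1 ∧
        ({x : Q | ∃ z : Fin D → ℤ, x = ψ z ∧ ∃ v ∈ V, ∀ j, ∃ k : ℤ,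
          ∑ i, (Yv j i : ℝ) * ((z i : ℝ) - 2 * v i) = g * k}.ncard : ℝ) ≤
            a * K ^ b * (ψ '' lat V).ncard := by
  classical
  obtain ⟨e, he⟩ : ∃ e : ℕ, e = 2 * 185 := ⟨_, rfl⟩
  obtain ⟨c, hc⟩ : ∃ c : ℕ, c = 2 ^ 22 * 1024 ^ 10 := ⟨_, rfl⟩
  have hcr : (c : ℝ) = 2 ^ 22 * 1024 ^ 10 := by rw [hc]; norm_num
  refine ⟨128 * 1024 * c ^ e, 51 + 36 + 360 * e, ?_, ?_⟩
  · have : 1 ≤ c ^ e := Nat.one_le_pow _ _ (by rw [hc]; norm_num)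
    omega
  intro D Q _ _ ψ V K hV hVc hK hdoub
  obtain ⟨P, hP⟩ : ∃ P : Set Q, P = ψ '' lat V := ⟨_, rfl⟩
  obtain ⟨g, hg⟩ : ∃ g : ℕ, g = Nat.card Q := ⟨_, rfl⟩
  have hg1 : 1 ≤ g := by rw [hg]; exact Nat.card_pos
  have hg0 : (0 : ℝ) < g := by exact_mod_cast hg1
  have hgψ : ∀ z, ψ (g • z) = 0 := by
    intro z
    rw [map_nsmul, hg]
    exact card_nsmul_eq_zero'
  have hK0 : 0 < K := by linarith
  obtain ⟨L, hL⟩ : ∃ L : ℝ, L = K ^ 3 := ⟨_, rfl⟩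
  have hL1 : 1 ≤ L := by rw [hL]; exact one_le_pow₀ hK
  have hL0 : 0 < L := by linarith
  obtain ⟨δ, hδ⟩ : ∃ δ : ℝ, δ = 1 / (8 * L ^ 3) := ⟨_, rfl⟩
  have hδ0 : 0 < δ := by rw [hδ]; positivity
  have hsδ : 0 < Real.sqrt δ := Real.sqrt_pos.2 hδ0
  obtain ⟨R₁, hR₁⟩ : ∃ R₁ : ℝ, R₁ = g / (2 * Real.sqrt δ) := ⟨_, rfl⟩
  have hR₁0 : 0 < R₁ := by rw [hR₁]; positivity
  obtain ⟨R, hR⟩ := exists_nat_ge (2 * R₁)
  obtain ⟨N, hN⟩ : ∃ N : ℕ, N = g + D * R + 1 := ⟨_, rfl⟩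
  obtain ⟨M₀, hM₀⟩ := exists_nat_gt (4 * R₁)
  obtain ⟨M, hM⟩ : ∃ M : ℕ, M = (N ^ D).factorial * M₀ := ⟨_, rfl⟩
  have hM₀0 : 0 < M₀ := by
    have : (0 : ℝ) < M₀ := by linarith
    exact_mod_cast this
  have hM0 : 0 < M := by rw [hM]; exact Nat.mul_pos (Nat.factorial_pos _) hM₀0
  have hne : NeZero (g * M) := ⟨(Nat.mul_pos hg1 hM0).ne'⟩
  have h0V : (0 : Fin D → ℝ) ∈ V := hVc 0 (fun i => by simp)
  have hPne : P.Nonempty := by
    rw [hP]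
    refine ⟨ψ 0, 0, ?_, rfl⟩
    show re 0 ∈ V
    have : re (0 : Fin D → ℤ) = 0 := by funext i; simp [re]
    rw [this]; exact h0V
  have hPr : P ⊆ Set.range ψ := by
    rw [hP]; rintro _ ⟨z, -, rfl⟩; exact ⟨z, rfl⟩
  have hcP : cube ψ ⊆ P := by
    rintro _ ⟨ε, hε, rfl⟩
    rw [hP]
    refine ⟨ε, hVc _ fun i => ?_, rfl⟩
    simp only [re]
    rcases hε i with h | h <;> rw [h] <;> simp
  rw [← hP] at hdoub
  obtain ⟨hSp, hSm⟩ := blow_doubling h7 ψ g M hgψ P hPr hPne hcP K hdoub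
  obtain ⟨⟨κ, hκ, hcard⟩, -, -, hiter⟩ := h7 D Q ψ g M hgψ
  obtain ⟨S, hS⟩ : ∃ S, S = blow ψ g M P := ⟨_, rfl⟩
  rw [← hS, ← hL] at hSp hSm
  have hP0 : 0 < P.ncard := (Set.ncard_pos (Set.toFinite P)).2 hPne
  have hSc : S.card = κ * P.ncard := by rw [hS]; exact hcard P hPr
  have hSne : S.Nonempty := by
    rw [← Finset.card_pos, hSc]
    exact Nat.mul_pos hκ hP0
  have hspec := h8 D Q ψ g M hgψ P (by rw [← hS]; exact hSne) δ hδ0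
  rw [← hS] at hspec
  have hspecR : ∀ y ∈ spec S (1 / (8 * L ^ 3)), ∀ i, |((y i).valMinAbs : ℝ)| ≤ R₁ := by
    intro y hy i
    rw [← hδ] at hy
    have h := (hspec y hy).1 i
    rw [hR₁, le_div_iff₀ (by positivity)]
    linarith
  have hn : 4 * R₁ < ((g * M : ℕ) : ℝ) := by
    have h3 : M₀ ≤ g * M := by
      calc M₀ ≤ (N ^ D).factorial * M₀ := Nat.le_mul_of_pos_left _ (Nat.factorial_pos _)
        _ = M := hM.symm
        _ ≤ g * M := Nat.le_mul_of_pos_left _ hg1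
    have h4 : (M₀ : ℝ) ≤ ((g * M : ℕ) : ℝ) := by exact_mod_cast h3
    linarith
  obtain ⟨Ke, hKe⟩ : ∃ Ke : ℝ, Ke = 1024 * L ^ 12 := ⟨_, rfl⟩
  have hKe0 : 0 < Ke := by rw [hKe]; positivity
  obtain ⟨B, S₀, t₀, hBne, hBs, hBc, hS₀, hBt⟩ := freq h1 h4 S L R₁ Ke hSne hL1 hKe hSm hspecR hn
  rw [← hδ] at hBs
  obtain ⟨𝒴, h𝒴⟩ : ∃ 𝒴 : Set (Fin D → ℤ), 𝒴 = {y | ∃ a ∈ B, ∃ b ∈ B, y = a - b} := ⟨_, rfl⟩
  obtain ⟨W, hW⟩ : ∃ W : AddSubgroup (Fin D → ℤ), W = AddSubgroup.closure 𝒴 := ⟨_, rfl⟩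
  have hWS : W ≤ AddSubgroup.closure (S₀ : Set (Fin D → ℤ)) := by
    rw [hW, AddSubgroup.closure_le, h𝒴]
    rintro _ ⟨a, ha, b, hb, rfl⟩
    have := AddSubgroup.sub_mem _ (hBt a ha) (hBt b hb)
    have e1 : a - t₀ - (b - t₀) = a - b := by abel
    rwa [e1] at this
  obtain ⟨r, Yv, hr, hYW, hYspan⟩ := gens W S₀ hWS
  refine ⟨g, r, Yv, hg1, ?_, ?_⟩
  · rw [← hL, ← hKe]
    refine le_trans ?_ hS₀
    exact_mod_cast hr
  -- the periods of the spectrum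
  have hper : ∀ w : Fin D → ℤ, ψ w = 0 → ∀ Y ∈ W, (g : ℤ) ∣ ∑ i, Y i * w i := by
    intro w hw Y hY
    have hB' : ∀ y ∈ B, (g : ℤ) ∣ ∑ i, y i * w i := by
      intro y hy
      have h3 := (hspec _ (hBs y hy).1).2 w hw
      have h4 : ∀ i, (cz (g * M) y i).valMinAbs = y i := fun i => congrFun (hBs y hy).2 i
      simp only [h4] at h3
      exact h3
    rw [hW] at hY
    induction hY using AddSubgroup.closure_induction with
    | mem x hx =>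
      rw [h𝒴] at hx
      obtain ⟨a, ha, b, hb, rfl⟩ := hx
      have h3 := dvd_sub (hB' a ha) (hB' b hb)
      rw [← Finset.sum_sub_distrib] at h3
      simp only [Pi.sub_apply, sub_mul]
      exact h3
    | zero => simp
    | add x y _ _ hx hy =>
      simp only [Pi.add_apply, add_mul, Finset.sum_add_distrib]
      exact dvd_add hx hy
    | neg x _ hx =>
      simp only [Pi.neg_apply, neg_mul, Finset.sum_neg_distrib]
      exact (dvd_neg).2 hx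
  obtain ⟨Θ, hΘ⟩ : ∃ Θ : Set Q, Θ = {x : Q | ∃ z : Fin D → ℤ, x = ψ z ∧ ∃ v ∈ V, ∀ j, ∃ k : ℤ,
          ∑ i, (Yv j i : ℝ) * ((z i : ℝ) - 2 * v i) = g * k} := ⟨_, rfl⟩
  rw [← hΘ, ← hP]
  have hΘr : Θ ⊆ Set.range ψ := by
    rw [hΘ]; rintro _ ⟨z, rfl, -⟩; exact ⟨z, rfl⟩
  obtain ⟨E, hE⟩ : ∃ E : Set Q, E = {x | ∃ p : Fin (11 + 1) → Fin D → ℤ,
      (∀ j, p j ∈ lat V) ∧ x = ψ (∑ j, p j)} := ⟨_, rfl⟩
  have hE12 : blow ψ g M E ⊆ (11 + 1) • S := by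
    rw [hS]
    refine hiter 11 P E ?_
    intro x hx
    rw [hE] at hx
    obtain ⟨p, hp, hx⟩ := hx
    exact ⟨p, fun j => by rw [hP]; exact ⟨p j, hp j, rfl⟩, hx⟩
  have hincl : ((blow ψ g M Θ : Finset _) : Set (Fin D → ZMod (g * M))) ⊆
      ((((11 + 1) • S : Finset (Fin D → ZMod (g * M))) : Set (Fin D → ZMod (g * M))) +
      (ann (AddSubgroup.closure ((cz (g * M)) '' {y | ∃ a ∈ B, ∃ b ∈ B, y = a - b})) :
        Set (Fin D → ZMod (g * M)))) := by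
    intro u hu
    rw [Finset.mem_coe, blow, Finset.mem_filter] at hu
    obtain ⟨-, z, q, hq, hz, hu⟩ := hu
    rw [hΘ] at hz
    obtain ⟨z', hz', v, hv, hz'v⟩ := hz
    have hYz : ∀ Y ∈ W, ∃ k : ℤ, ∑ i, (Y i : ℝ) * ((z i : ℝ) - 2 * v i) = g * k := by
      intro Y hY
      obtain ⟨c, hc⟩ := hYspan Y hY
      obtain ⟨k, hk⟩ := comb Yv c (fun i => (z' i : ℝ) - 2 * v i) g hz'v
      rw [← hc] at hk
      obtain ⟨m, hm⟩ := hper (z - z') (by rw [map_sub, hz', sub_self]) Y hY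
      refine ⟨k + m, ?_⟩
      have hm' : ∑ i, (Y i : ℝ) * ((z i : ℝ) - z' i) = g * m := by
        have : ((∑ i, Y i * (z - z') i : ℤ) : ℝ) = ((g * m : ℤ) : ℝ) := by rw [hm]
        push_cast at this
        simpa using this
      push_cast
      rw [mul_add, ← hk, ← hm', ← Finset.sum_add_distrib]
      refine Finset.sum_congr rfl fun i _ => ?_
      ring
    have h𝒴W : ∀ Y ∈ 𝒴, Y ∈ W := fun Y hY => by rw [hW]; exact AddSubgroup.subset_closure hY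
    have h𝒴R : ∀ Y ∈ 𝒴, ∀ i, |Y i| ≤ (R : ℤ) := by
      intro Y hY i
      rw [h𝒴] at hY
      obtain ⟨a, ha, b, hb, rfl⟩ := hY
      have hb1 : ∀ y ∈ B, |(y i : ℝ)| ≤ R₁ := by
        intro y hy
        have h3 := hspecR (cz (g * M) y) (by rw [← hδ]; exact (hBs y hy).1) i
        have h4 : (cz (g * M) y i).valMinAbs = y i := congrFun (hBs y hy).2 i
        rwa [h4] at h3
      have h3 : |((a - b) i : ℝ)| ≤ R := by
        simp only [Pi.sub_apply]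
        push_cast
        refine (abs_sub _ _).trans ?_
        linarith [hb1 a ha, hb1 b hb]
      exact_mod_cast h3
    obtain ⟨h, z₁, q₁, hh, hq₁, ⟨p, hp, hp1⟩, hsum⟩ := inclusion h5 h9 g R N M V hV hVc hg1
      (by rw [hN]; omega) (by rw [hN]; omega) (by rw [hM]; exact dvd_mul_right _ _) hM0 𝒴 h𝒴R z q
      hq v hv (fun Y hY => hYz Y (h𝒴W Y hY))
    rw [h𝒴] at hh
    refine ⟨fun i => ((M * z₁ i + q₁ i : ℤ) : ZMod (g * M)), ?_, cz (g * M) h, hh, ?_⟩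
    · refine Finset.mem_coe.2 (hE12 ?_)
      rw [blow, Finset.mem_filter]
      refine ⟨Finset.mem_univ _, z₁, q₁, hq₁, ?_, fun i => rfl⟩
      rw [hE]
      exact ⟨p, hp, by rw [hp1]⟩
    · funext i
      rw [hu i, hsum i]
      simp only [Pi.add_apply]
      show _ + ((h i : ℤ) : ZMod (g * M)) = _
      push_cast
      ring
  -- counting
  obtain ⟨X, hX⟩ : ∃ X : ℝ, X = 2 * L * (8 * Ke * ((2 ^ 22 * Ke ^ 10) ^ 2) ^ 185) := ⟨_, rfl⟩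
  have hX0 : 0 < X := by rw [hX]; positivity
  have hab := absorb h2 h3 S L δ X hSne hL1 hδ0 hX0 hSp B hBne hBs (by
    rw [hX]
    calc _ ≤ _ := hBc
      _ = _ := by ring) (11 + 1)
  have hfin := Set.ncard_le_ncard hincl (Set.toFinite _)
  rw [Set.ncard_coe_finset, hcard Θ hΘr] at hfin
  have hfin' : ((κ * Θ.ncard : ℕ) : ℝ) ≤ (δ / X)⁻¹ * L ^ (11 + 1 + 1) * (S.card : ℝ) :=
    le_trans (by exact_mod_cast hfin) hab
  rw [hSc] at hfin'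
  push_cast at hfin'
  have hκ0 : (0 : ℝ) < κ := by exact_mod_cast hκ
  have h7' : (κ : ℝ) * Θ.ncard ≤ κ * (((δ / X)⁻¹ * L ^ 13) * P.ncard) := by
    calc _ ≤ _ := hfin'
      _ = _ := by ring
  have h8' := le_of_mul_le_mul_left h7' hκ0
  refine h8'.trans (mul_le_mul_of_nonneg_right (le_of_eq ?_) (Nat.cast_nonneg _))
  have e1 : ((2 ^ 22 * Ke ^ 10) ^ 2) ^ 185 = (2 ^ 22 * Ke ^ 10) ^ e := by rw [← pow_mul, ← he]
  have e2 : (δ / X)⁻¹ = X * (8 * L ^ 3) := by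
    rw [hδ, inv_div, div_div_eq_mul_div, div_one]
  have e3 : (2 ^ 22 * Ke ^ 10) ^ e = (c : ℝ) ^ e * K ^ (360 * e) := by
    rw [pow_mul K 360 e, ← mul_pow]
    congr 1
    rw [hKe, hL, hcr]; ring
  rw [e2, hX, e1, e3, hKe, hL]
  push_cast
  ring

end Pool.Agent.H98.Gap
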