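import Pool.Agent.H98.Gap.Fin3

/-!
# Progressions of arbitrary rank: the relation subgroup
-/

set_option autoImplicit false

namespace Pool.Agent.H98.Gap

open Finset Pool.Agent.Y806.DF Pool.Agent.H608VF
open scoped Pointwise

universe u

/-- the elements of a closure are integer combinations -/
theorem closure_comb {G : Type*} [AddCommGroup G] {b : ℕ} (s : Fin b → G) {y : G}
    (hy : y ∈ AddSubgroup.closure (Set.range s)) : ∃ x : Fin b → ℤ, y = ∑ i, x i • s i := by
  induction hy using AddSubgroup.closure_induction with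
  | mem y hy =>
    obtain ⟨i, rfl⟩ := hy
    classical
    refine ⟨Pi.single i 1, ?_⟩
    rw [Finset.sum_eq_single i]
    · rw [Pi.single_eq_same, one_smul]
    · intro j _ hj
      rw [Pi.single_eq_of_ne hj, zero_smul]
    · intro h; exact absurd (Finset.mem_univ i) h
  | zero => exact ⟨0, by simp⟩
  | add x y _ _ hx hy =>
    obtain ⟨a, rfl⟩ := hx
    obtain ⟨b, rfl⟩ := hy
    exact ⟨a + b, by simp only [Pi.add_apply, add_smul, Finset.sum_add_distrib]⟩
  | neg x _ hx =>
    obtain ⟨a, rfl⟩ := hx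
    exact ⟨-a, by simp only [Pi.neg_apply, neg_smul, Finset.sum_neg_distrib]⟩

section
variable {Γ : Type u} [AddCommGroup Γ]

/-- the relation subgroup -/
def relG {D r b : ℕ} (ψ : (Fin D → ℤ) →+ Γ) (g : ℕ) (Yv : Fin r → Fin D → ℤ) (s : Fin b → Γ)
    (T : AddSubgroup Γ) : AddSubgroup ((Fin (r + b) → ℤ) × Γ) where
  carrier := {p | p.2 - ∑ i, p.1 (Fin.natAdd r i) • s i ∈ T ∧
    ∃ z : Fin D → ℤ, p.2 = ψ z ∧ ∀ j, (g : ℤ) ∣ p.1 (Fin.castAdd b j) - ∑ i, Yv j i * z i}
  zero_mem' := by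
    refine ⟨?_, 0, ?_, fun j => ?_⟩
    · simp only [Prod.fst_zero, Prod.snd_zero, Pi.zero_apply, zero_smul, Finset.sum_const_zero,
        sub_zero]
      exact T.zero_mem
    · simp
    · simp
  add_mem' := by
    rintro ⟨c, y⟩ ⟨c', y'⟩ ⟨h1, z, hz, h2⟩ ⟨h1', z', hz', h2'⟩
    refine ⟨?_, z + z', ?_, fun j => ?_⟩
    · simp only [Prod.mk_add_mk, Pi.add_apply, add_smul, Finset.sum_add_distrib]
      have := T.add_mem h1 h1'
      have e : y + y' - (∑ i, c (Fin.natAdd r i) • s i + ∑ i, c' (Fin.natAdd r i) • s i) =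
        (y - ∑ i, c (Fin.natAdd r i) • s i) + (y' - ∑ i, c' (Fin.natAdd r i) • s i) := by abel
      rw [e]; exact this
    · simp only at hz hz' ⊢
      simp only [Prod.mk_add_mk]
      rw [map_add, hz, hz']
    · have h3 := dvd_add (h2 j) (h2' j)
      simp only at h3
      simp only [Prod.mk_add_mk, Pi.add_apply, mul_add, Finset.sum_add_distrib]
      have e : c (Fin.castAdd b j) + c' (Fin.castAdd b j) -
          (∑ i, Yv j i * z i + ∑ i, Yv j i * z' i) =
          c (Fin.castAdd b j) - ∑ i, Yv j i * z i + (c' (Fin.castAdd b j) - ∑ i, Yv j i * z' i) := by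
        ring
      rw [e]; exact h3
  neg_mem' := by
    rintro ⟨c, y⟩ ⟨h1, z, hz, h2⟩
    refine ⟨?_, -z, ?_, fun j => ?_⟩
    · simp only [Prod.neg_mk, Pi.neg_apply, neg_smul, Finset.sum_neg_distrib]
      have := T.neg_mem h1
      have e : -y - -∑ i, c (Fin.natAdd r i) • s i = -(y - ∑ i, c (Fin.natAdd r i) • s i) := by abel
      rw [e]; exact this
    · simp only at hz ⊢
      simp only [Prod.neg_mk]
      rw [map_neg, hz]
    · have h3 := (dvd_neg).2 (h2 j)
      simp only at h3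
      simp only [Prod.neg_mk, Pi.neg_apply, mul_neg, Finset.sum_neg_distrib]
      have e : -c (Fin.castAdd b j) - -∑ i, Yv j i * z i =
          -(c (Fin.castAdd b j) - ∑ i, Yv j i * z i) := by ring
      rw [e]; exact h3

/-- the body of the relation subgroup -/
def relB {D r b : ℕ} (Yv : Fin r → Fin D → ℤ) (V : Set (Fin D → ℝ)) (R : ℝ) :
    Set (Fin (r + b) → ℝ) :=
  {c | (∃ v ∈ V, ∀ j, c (Fin.castAdd b j) = ∑ i, (Yv j i : ℝ) * (2 * v i)) ∧
    ∀ i, |c (Fin.natAdd r i)| ≤ R}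

/-- the linear map of the body -/
noncomputable def relL {D r : ℕ} (b : ℕ) (Yv : Fin r → Fin D → ℤ) :
    ((Fin D → ℝ) × (Fin b → ℝ)) →ₗ[ℝ] (Fin (r + b) → ℝ) where
  toFun p := fun k => Fin.addCases (fun j => ∑ i, (Yv j i : ℝ) * (2 * p.1 i)) (fun i => p.2 i) k
  map_add' p q := by
    funext k
    refine Fin.addCases (fun j => ?_) (fun i => ?_) k
    · simp only [Fin.addCases_left, Prod.fst_add, Pi.add_apply, mul_add, Finset.sum_add_distrib]
    · simp only [Fin.addCases_right, Prod.snd_add, Pi.add_apply]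
  map_smul' t p := by
    funext k
    refine Fin.addCases (fun j => ?_) (fun i => ?_) k
    · simp only [Fin.addCases_left, Prod.smul_fst, Pi.smul_apply, smul_eq_mul, RingHom.id_apply,
        Finset.mul_sum]
      refine Finset.sum_congr rfl fun i _ => ?_
      ring
    · simp only [Fin.addCases_right, Prod.smul_snd, Pi.smul_apply, smul_eq_mul, RingHom.id_apply]

theorem relB_eq {D r b : ℕ} (Yv : Fin r → Fin D → ℤ) (V : Set (Fin D → ℝ)) (R : ℝ) :
    (relB Yv V R : Set (Fin (r + b) → ℝ)) =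
      relL b Yv '' (V ×ˢ {x : Fin b → ℝ | ∀ i, |x i| ≤ R}) := by
  ext c
  constructor
  · rintro ⟨⟨v, hv, h1⟩, h2⟩
    refine ⟨(v, fun i => c (Fin.natAdd r i)), ⟨hv, h2⟩, ?_⟩
    funext k
    refine Fin.addCases (fun j => ?_) (fun i => ?_) k
    · simp only [relL, LinearMap.coe_mk, AddHom.coe_mk, Fin.addCases_left]
      exact (h1 j).symm
    · simp only [relL, LinearMap.coe_mk, AddHom.coe_mk, Fin.addCases_right]
  · rintro ⟨⟨v, x⟩, ⟨hv, hx⟩, rfl⟩
    refine ⟨⟨v, hv, fun j => ?_⟩, fun i => ?_⟩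
    · simp only [relL, LinearMap.coe_mk, AddHom.coe_mk, Fin.addCases_left]
    · simp only [relL, LinearMap.coe_mk, AddHom.coe_mk, Fin.addCases_right]
      exact hx i

theorem relB_sym {D r b : ℕ} (Yv : Fin r → Fin D → ℤ) (V : Set (Fin D → ℝ)) (hV : Sym V) {R : ℝ}
    (hR : 0 ≤ R) : Sym (relB Yv V R : Set (Fin (r + b) → ℝ)) := by
  have hbox : {x : Fin b → ℝ | ∀ i, |x i| ≤ R} = Metric.closedBall (0 : Fin b → ℝ) R := by
    ext x
    rw [mem_closedBall_zero_iff, pi_norm_le_iff_of_nonneg hR]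
    rfl
  rw [relB_eq, hbox]
  refine ⟨?_, ?_, ?_, ?_⟩
  · exact (hV.conv.prod (convex_closedBall _ _)).linear_image _
  · exact (hV.comp.prod (isCompact_closedBall _ _)).image
      (LinearMap.continuous_of_finiteDimensional _)
  · rintro _ ⟨⟨v, x⟩, ⟨hv, hx⟩, rfl⟩
    refine ⟨(-v, -x), ⟨hV.symm v hv, ?_⟩, ?_⟩
    · simp only [mem_closedBall_zero_iff, norm_neg] at hx ⊢
      exact hx
    · rw [← Prod.neg_mk, map_neg]
  · exact ((hV.ne).prod ⟨0, Metric.mem_closedBall_self hR⟩).image _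

end

end Pool.Agent.H98.Gap
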