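import Pool.Graph.R_pool_sql_team_seeded_620a6dc7.helper608_VF_.V7
import Pool.Graph.R_seed8.W860.PC.Lift
import Pool.Graph.R_seed8.H217R3.AK.Bsg

/-!
# Progressions of arbitrary rank: definitions and interface

Everything takes place in `(ℤ/n)^D`, with the characters `ch Y u = e(Y·u/n)`.
-/

set_option autoImplicit false

namespace Pool.Agent.H98.Gap

open Finset Pool.Agent.Y806.DF Pool.Agent.H608VF
open scoped Pointwise

universe u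

/-- the character of `(ℤ/n)^D` with frequency `Y` -/
noncomputable def ch {D n : ℕ} [NeZero n] (Y u : Fin D → ZMod n) : ℂ :=
  ZMod.stdAddChar (∑ i, Y i * u i)

/-- the Fourier transform of the indicator function of `S` -/
noncomputable def ft {D n : ℕ} [NeZero n] (S : Finset (Fin D → ZMod n)) (Y : Fin D → ZMod n) : ℂ :=
  ∑ u ∈ S, ch Y u

open Classical in
/-- the large spectrum -/
noncomputable def spec {D n : ℕ} [NeZero n] (S : Finset (Fin D → ZMod n)) (δ : ℝ) :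
    Finset (Fin D → ZMod n) :=
  Finset.univ.filter (fun Y => δ * (S.card : ℝ) ^ 2 ≤ ‖ft S Y‖ ^ 2)

/-- the annihilator of a subgroup -/
def ann {D n : ℕ} (W : AddSubgroup (Fin D → ZMod n)) : AddSubgroup (Fin D → ZMod n) where
  carrier := {t | ∀ Y ∈ W, ∑ i, Y i * t i = 0}
  zero_mem' := by intro Y _; simp
  add_mem' := by
    intro a b ha hb Y hY
    have h1 := ha Y hY
    have h2 := hb Y hY
    simp only [Pi.add_apply, mul_add, Finset.sum_add_distrib, h1, h2, add_zero]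
  neg_mem' := by
    intro a ha Y hY
    have h1 := ha Y hY
    simp only [Pi.neg_apply, mul_neg, Finset.sum_neg_distrib, h1, neg_zero]

/-- **Energy of the large spectrum.**

Proof. Let `G = (ℤ/n)^D`, `N = |G| = n^D`, `δ = 1/(8 L^3)`, `a Y = ft S Y`, `m Y = ‖a Y‖² / |S|² ∈ [0,1]`,
`X = N / |S|`. Orthogonality: `∑_Y ch Y t = N` if `t = 0`, and `0` otherwise (product of the
one-dimensional sums). Parseval: for `f : G → ℂ` and `F Y = ∑_t f t * ch Y t`,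
`∑_Y ‖F Y‖² = N ∑_t ‖f t‖²`. So `∑_Y m Y = X`, and `δ |spec| ≤ X` is the first claim.
`‖a Y‖² = ∑_t R t * ch Y t` with `R t = #{(u,u') ∈ S² : u - u' = t}`, `∑ R = |S|²`, support in `S - S`.
Let `c Y = ∑_{Y'} m Y' * m (Y - Y')`; then `c Y = (N / |S|^4) ∑_t (R t)² ch Y t`, so
`∑_Y (c Y)² = (N^3 / |S|^8) ∑_t (R t)^4 ≥ (N^3 / |S|^8) * (|S|²)^4 / |S - S|^3 ≥ X^3 / L^3`
(power mean inequality; `inner_mul_le_norm_mul_norm`/`inner_le_nnorm_mul_nnorm`, or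
`Finset.inner_mul_le_norm_mul_norm`, `inner_pow...`, `Finset.sum_pow_le_pow_sum`, e.g. Cauchy-Schwarz
twice). Let `m₁ = m` on `spec`, `0` elsewhere, `c₁ = m₁ * m₁`. Pointwise
`c₁ ≤ c ≤ c₁ + 2 δ X` (since `m - m₁ ≤ δ`, `∑ m = X`), `∑ c = X²`, so
`∑ c₁² ≥ ∑ c² - 4 δ X^3 ≥ X^3 / (2 L^3)`. Finally `m₁ ≤ 1` on `spec`, so `c₁ Y ≤ #{(y,y') ∈ spec² : y + y' = Y}`
and `∑ c₁² ≤ addEnergy spec spec` (`Finset.addEnergy_eq_sum_sq'`). -/
def S1 : Prop :=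
  ∀ (D n : ℕ) [NeZero n] (S : Finset (Fin D → ZMod n)) (L : ℝ), S.Nonempty → 1 ≤ L →
    ((S - S).card : ℝ) ≤ L * S.card →
    ((spec S (1 / (8 * L ^ 3))).card : ℝ) * S.card ≤ (8 * L ^ 3) * (n : ℝ) ^ D ∧
    ((n : ℝ) ^ D) ^ 3 ≤ 2 * L ^ 3 * (S.card : ℝ) ^ 3 *
      ((Finset.addEnergy (spec S (1 / (8 * L ^ 3))) (spec S (1 / (8 * L ^ 3))) : ℕ) : ℝ)

/-- **Much of the spectrum in a coset of a subgroup gives periods.**

Proof. `∑_{Y ∈ Y₀ + W} ‖ft S Y‖² = ∑_{s,s' ∈ S} ∑_{Y ∈ Y₀ + W} ch Y (s' - s)`, and for `t = s' - s` the inner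
sum is `ch Y₀ t * ∑_{Y ∈ W} ch Y t`, which is `ch Y₀ t * |W|` if `t ∈ ann W` and `0` otherwise
(a nontrivial character of `W` sums to `0`; note `ch Y t = 1 ↔ ∑ Y i * t i = 0`, `ZMod.stdAddChar` is
injective). So the left side is at most `|W| * #{(s,s') ∈ S² : s' - s ∈ ann W}`, and at least
`|B| δ |S|²`. The same computation with `∑_{t ∈ G} ∑_{Y ∈ W} ch Y t` gives `|W| * |ann W| = |G| = n^D`. Hence
`#{(s,s')} ≥ δ |B| |S|² |ann W| / n^D`, and some `s` has at least the average number of `s'`. -/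
def S2 : Prop :=
  ∀ (D n : ℕ) [NeZero n] (S : Finset (Fin D → ZMod n)) (δ : ℝ) (Y₀ : Fin D → ZMod n)
    (W : AddSubgroup (Fin D → ZMod n)) (B : Finset (Fin D → ZMod n)), S.Nonempty → 0 ≤ δ →
    B ⊆ spec S δ → (∀ Y ∈ B, Y - Y₀ ∈ W) →
    ∃ s ∈ S, δ * B.card * S.card * Nat.card (ann W) ≤
      (n : ℝ) ^ D * ({s' : Fin D → ZMod n | s' ∈ S ∧ s' - s ∈ ann W}.ncard : ℝ)

/-- **From a dense fibre to iterated sums.**

Proof. Let `F = {s' ∈ S : s' - s ∈ H}`. For each coset `c` of `H` that meets `S` choose `s_c ∈ S ∩ c`; the sets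
`s_c + F` are in different cosets, so `|S + S| ≥ (number of cosets) * |F| ≥ κ |S + H|`, hence
`|S + H| ≤ κ⁻¹ K |S|`. Choose a nonempty `X ⊆ S` with `|X + S| / |X|` minimal (`≤ K`). By Petridis
(`Finset.pluennecke_petridis_inequality_add`) `|C + X + S| |X| ≤ |X + S| |C + X|` for all finite `C`, so
`|C + X + k S| ≤ K^k |C + X|`; take `C = H` : `|H + k S| ≤ |H + X + k S| ≤ K^k |H + X| ≤ K^k |H + S|`. -/
def S3 : Prop :=
  ∀ (G : Type) [AddCommGroup G] [Fintype G] [DecidableEq G] (S : Finset G) (H : AddSubgroup G)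
    (K κ : ℝ) (s : G), S.Nonempty → 1 ≤ K → 0 < κ → ((S + S).card : ℝ) ≤ K * S.card →
    κ * Nat.card H ≤ ({s' : G | s' ∈ S ∧ s' - s ∈ H}.ncard : ℝ) →
    ∀ k : ℕ, (((k • S : Finset G) : Set G) + (H : Set G)).ncard ≤ κ⁻¹ * K ^ (k + 1) * (S.card : ℝ)

/-- **Balog-Szemerédi-Gowers and weak Marton in `ℤ^D`.**

Proof. `Pool.Agent.H217R3.AK.bsg` (file `Pool/Graph/R_seed8/H217R3/AK/Bsg.lean`) gives `B' ⊆ Y` with
`|Y| ≤ 8 K |B'|`, `|B' - B'| ≤ 2^22 K^10 |B'|`; by Plünnecke-Ruzsa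
(`Finset.pluennecke_ruzsa_inequality_nsmul_sub_nsmul_sub` or similar) `|B' + B'| ≤ (2^22 K^10)^2 |B'|`.
`W860.PC.marton_Zm` (file `Pool/Graph/R_seed8/W860/PC/Lift.lean`) covers `B'` by `|T| ≤ L^185` cosets of
`closure S₀`; take the popular one. -/
def S4 : Prop :=
  ∀ (D : ℕ) (Y : Finset (Fin D → ℤ)) (K : ℝ), Y.Nonempty → 1 ≤ K →
    (Y.card : ℝ) ^ 3 ≤ K * ((Finset.addEnergy Y Y : ℕ) : ℝ) →
    ∃ (B S₀ : Finset (Fin D → ℤ)) (t₀ : Fin D → ℤ), B ⊆ Y ∧ B.Nonempty ∧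
      (Y.card : ℝ) ≤ 8 * K * ((2 ^ 22 * K ^ 10) ^ 2) ^ 185 * B.card ∧
      (S₀.card : ℝ) ≤ 480 * Real.log ((2 ^ 22 * K ^ 10) ^ 2) + 1 ∧
      ∀ y ∈ B, y - t₀ ∈ AddSubgroup.closure (S₀ : Set (Fin D → ℤ))

/-- **Rational points are dense in the solutions of a system of congruences.**

Proof. Pigeonhole for the `N^D + 1` points `j w mod g`, `0 ≤ j ≤ N^D`, and the `N^D` boxes of side `g/N`
(box of `j w`: `i ↦ ⌊N * Int.fract (j * w i / g)⌋`): there are `1 ≤ q ≤ N^D` and `z : Fin D → ℤ` with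
`|q w i - g z i| ≤ g/N` (even `<`) for all `i`. For `Y ∈ 𝒴` the number `∑ Y i (q w i - g z i)` is in `g ℤ` and of
absolute value `≤ D R g / N < g`, so it is `0`. Put `h = (M/q) g z` (`q ∣ (N^D)! ∣ M`). Then
`∑ Y i h i = (M/q) ∑ Y i g z i = (M/q) q ∑ Y i w i = M g k`, and
`|M w i - h i| = (M/q) |q w i - g z i| ≤ (M/q) (g/N) ≤ M`. -/
def S5 : Prop :=
  ∀ (D g R N M : ℕ), 1 ≤ g → g ≤ N → D * R < N → (N ^ D).factorial ∣ M → 0 < M →
    ∀ (𝒴 : Set (Fin D → ℤ)), (∀ Y ∈ 𝒴, ∀ i, |Y i| ≤ (R : ℤ)) →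
    ∀ w : Fin D → ℝ, (∀ Y ∈ 𝒴, ∃ k : ℤ, ∑ i, (Y i : ℝ) * w i = g * k) →
    ∃ h : Fin D → ℤ, (∀ Y ∈ 𝒴, ((g * M : ℕ) : ℤ) ∣ ∑ i, Y i * h i) ∧
      ∀ i, |M * w i - h i| ≤ (M : ℝ)

/-- **Convex coset progressions from systems of relations.**

Proof. `H = {y : (0,y) ∈ G}` is a finite subgroup. The first projection of `G` is a subgroup of `ℤ^m`; it
has a basis `b₁, …, b_k`, `k ≤ m` (`Submodule.basisOfPid`, `Module.finBasis`, free of finite rank), and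
`b_j` has a partner `y_j` with `(b_j, y_j) ∈ G`. `ψ u = ∑ u_j y_j`,
`B' = {x ∈ ℝ^k : ∑ x_j b_j ∈ B}` (closed, convex, symmetric, contains `0`; bounded because the `b_j` are
linearly independent over `ℝ`, so that `x ↦ ∑ x_j b_j` is an injective linear map). If `(c,y) ∈ G`
then `c = ∑ u_j b_j` and `(0, y - ψ u) ∈ G`; the converse is clear. (`Pool.Agent.Y806.DF.ext`, `ext_re` in
`Pool/Graph/R_seed8/Y806/DF/B.lean` may help; compare `Pool/Agent/H98/Big/Rank.lean`, `subgroup_basis'`.) -/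
def S6 : Prop :=
  ∀ (Γ : Type u) [AddCommGroup Γ] (m : ℕ) (G : AddSubgroup ((Fin m → ℤ) × Γ))
    (B : Set (Fin m → ℝ)), Sym B → {y : Γ | ((0 : Fin m → ℤ), y) ∈ G}.Finite →
    ∃ (k : ℕ) (B' : Set (Fin k → ℝ)) (ψ : (Fin k → ℤ) →+ Γ) (H : AddSubgroup Γ),
      k ≤ m ∧ Sym B' ∧ Finite H ∧ ∀ y : Γ, (∃ c ∈ lat B, (c, y) ∈ G) ↔ y ∈ cpr (lat B') ψ H

/-- the blow-up in `(ℤ/gM)^D` of a set `P` of elements of a group `Q` killed by `g`: all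
`M z + q`, `ψ z ∈ P`, `0 ≤ q_i < M` -/
def inBlow {D : ℕ} {Q : Type*} [AddCommGroup Q] (ψ : (Fin D → ℤ) →+ Q) (g M : ℕ) (P : Set Q)
    (u : Fin D → ZMod (g * M)) : Prop :=
  ∃ z q : Fin D → ℤ, (∀ i, 0 ≤ q i ∧ q i < M) ∧ ψ z ∈ P ∧
    ∀ i, u i = ((M * z i + q i : ℤ) : ZMod (g * M))

open Classical in
/-- the blow-up as a finite set -/
noncomputable def blow {D : ℕ} {Q : Type*} [AddCommGroup Q] (ψ : (Fin D → ℤ) →+ Q) (g M : ℕ)
    [NeZero (g * M)] (P : Set Q) : Finset (Fin D → ZMod (g * M)) :=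
  Finset.univ.filter (inBlow ψ g M P)

/-- the image of the discrete cube -/
def cube {D : ℕ} {Q : Type*} [AddCommGroup Q] (ψ : (Fin D → ℤ) →+ Q) : Set Q :=
  {x | ∃ ε : Fin D → ℤ, (∀ i, ε i = 0 ∨ ε i = 1) ∧ x = ψ ε}

/-- **Sizes and sums of blow-ups.**

Proof. Every `u ∈ (ℤ/gM)^D` is `M w + q` with unique `q`, `0 ≤ q_i < M`, and `w` unique modulo `g`
(`u_i.val = M (u_i.val / M) + u_i.val % M`); `ψ w` depends only on `w mod g`. So `|blow P|` is `M^D` times the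
number of the `w ∈ (ℤ/g)^D` with `ψ w ∈ P`, and this is `|P|` times the number of the `w` with `ψ w = 0`
(translate), if `P ⊆ range ψ`: `κ = M^D #{w : ψ w = 0}`.
Sums: `(M z + q) + (M z' + q') = M (z + z' + ε) + q''` with `ε_i ∈ {0,1}` the carry; differences:
`(M z + q) - (M z' + q') = M (z - z' - ε) + q''`, `ε_i = 1` iff `q_i < q'_i`.
Last part: `u = M z + q`, `ψ z = ψ (∑ p j)`; replace the last `p j` by `p j + (z - ∑ p)` (same image under `ψ`);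
then `u` is the sum of the elements `M p_j` (`q = 0`) and `M p_k + q` of `blow P`. -/
def S7 : Prop :=
  ∀ (D : ℕ) (Q : Type) [AddCommGroup Q] [Finite Q] (ψ : (Fin D → ℤ) →+ Q) (g M : ℕ)
    [NeZero (g * M)], (∀ z, ψ (g • z) = 0) →
    (∃ κ : ℕ, 0 < κ ∧ ∀ P : Set Q, P ⊆ Set.range ψ → (blow ψ g M P).card = κ * P.ncard) ∧
    (∀ P₁ P₂ : Set Q, blow ψ g M P₁ + blow ψ g M P₂ ⊆ blow ψ g M (P₁ + P₂ + cube ψ)) ∧
    (∀ P₁ P₂ : Set Q, blow ψ g M P₁ - blow ψ g M P₂ ⊆ blow ψ g M (P₁ - P₂ - cube ψ)) ∧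
    (∀ (k : ℕ) (P E : Set Q), (∀ x ∈ E, ∃ p : Fin (k + 1) → Fin D → ℤ, (∀ j, ψ (p j) ∈ P) ∧
      x = ψ (∑ j, p j)) → blow ψ g M E ⊆ (k + 1) • blow ψ g M P)

/-- **Frequencies in the spectrum of a blow-up.**

Proof. (ii) If `ψ z = 0` then `blow P` is invariant under the translation by `M z mod gM`, so
`ft Y = ch Y (M z) * ft Y`; `ft Y ≠ 0` as `δ > 0` and `blow P ≠ ∅`; so `ch Y (M z) = 1`, i.e.
`gM ∣ ∑ Y_i M z_i` (`Y_i` replaced by its representative `valMinAbs`), so `g ∣ ∑ Y_i z_i`.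
(i) `blow P = {M w + q}` with `w` in a set `P' ⊆ (ℤ/g)^D` and `q ∈ {0..M-1}^D` independent, `|blow P| = |P'| M^D`,
so `ft Y = (∑_{w ∈ P'} ch Y (M w)) * ∏_i ∑_{q<M} stdAddChar (Y_i q)`, hence
`‖ft Y‖ ≤ |P'| M^(D-1) ‖∑_{q<M} stdAddChar (Y_i q)‖` for each `i`. With `v = (Y i).valMinAbs ≠ 0`, `θ = v/(gM)`,
`|θ| ≤ 1/2`, the geometric sum is at most `2 / ‖e(θ) - 1‖ ≤ 1/(2|θ|) = gM/(2|v|)` (`4‖t‖ ≤ ‖ee t - 1‖` is
`H112.four_mul_norm_le` in `Pool/Graph/R_seed8/H112R2/Near.lean`, for `t : UnitAddCircle`; or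
`Real.abs_sin`-estimates). With `‖ft Y‖ ≥ √δ |P'| M^D` this gives `2 √δ |v| ≤ g`. -/
def S8 : Prop :=
  ∀ (D : ℕ) (Q : Type) [AddCommGroup Q] [Finite Q] (ψ : (Fin D → ℤ) →+ Q) (g M : ℕ)
    [NeZero (g * M)], (∀ z, ψ (g • z) = 0) → ∀ P : Set Q, (blow ψ g M P).Nonempty →
    ∀ δ : ℝ, 0 < δ → ∀ Y ∈ spec (blow ψ g M P) δ,
      (∀ i, 2 * Real.sqrt δ * |((Y i).valMinAbs : ℝ)| ≤ g) ∧
      ∀ z : Fin D → ℤ, ψ z = 0 → (g : ℤ) ∣ ∑ i, (Y i).valMinAbs * z i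

/-- **Integer points of multiples of a convex body containing the unit cube.**

Proof. Let `re z = k v`, `v ∈ V`, `r i = round (z i / (2 k))`. Then `z/(2k) = v/2 ∈ V/2` and the rounding error is
in `[-1/2,1/2]^D ⊆ (1/2) V`, so `re r ∈ V` by convexity (midpoint of `v` and of a point of the unit cube).
`e = z - 2 k r` has `|e i| ≤ k`, so `e` is a sum of `k` vectors with coordinates in `{-1,0,1}`, e.g.
`p_j i = 1` if `j < e i`, `-1` if `j < -e i`, `0` otherwise, `j = 0, …, k-1`; these are in the unit cube, so in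
`lat V`. Take `2k` copies of `r` and these `k` vectors. -/
def S9 : Prop :=
  ∀ (D k : ℕ) (V : Set (Fin D → ℝ)), Convex ℝ V → (∀ x : Fin D → ℝ, (∀ i, |x i| ≤ 1) → x ∈ V) →
    1 ≤ k → ∀ z : Fin D → ℤ, (∃ v ∈ V, ∀ i, (z i : ℝ) = k * v i) →
    ∃ p : Fin (3 * k) → Fin D → ℤ, (∀ j, p j ∈ lat V) ∧ z = ∑ j, p j

end Pool.Agent.H98.Gap
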